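import Pool.Agent.Lib.MP_06caae_pr.B.Vol

/-!
# The one-arm bound (Kozma and Nachmias) from the volume tail
-/

open Finset SimpleGraph
open Pool.Agent.Lib.MP_566bac_pr.Zd

namespace Pool.Agent.Lib.MP_06caae_pr

variable {d : ℕ} {p : ℝ}

/-- survival to `3 m` with a small volume up to level `2 m` -/
theorem thin (hp : 0 ≤ p) (hp1 : p ≤ 1) {g : ℝ} (hg : 0 ≤ g) {m : ℕ} (hm1 : 1 ≤ m)
    (harm : ∀ (E : Finset (Ed d)) (x : V d), PE p E {S | (sph S x m).Nonempty} ≤ g)
    {κ : ℝ} (hκ0 : 0 ≤ κ) (E : Finset (Ed d)) (x : V d) :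
    PE p E {S | (vol S x (2 * m) : ℝ) ≤ m * κ ∧ (sph S x (3 * m)).Nonempty} ≤ g * κ * g := by
  classical
  have hw : Wt (fun _ : Ed d => p) := fun _ => ⟨hp, hp1⟩
  have hm0 : (0 : ℝ) < m := by exact_mod_cast hm1
  set K : ℕ → Set (Set (Ed d)) := fun j => {S | ((sph S x j).card : ℝ) ≤ κ ∧
    ∀ i, m ≤ i → i < j → κ < ((sph S x i).card : ℝ)} with hK
  have hKB : ∀ j, BDet x j (K j) := by
    intro j
    rw [bdet_iff]
    intro S S' hS
    refine propext ?_
    have h1 := sph_agree hS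
    simp only [hK, Set.mem_ofPred_eq]
    rw [h1 j le_rfl]
    constructor
    · rintro ⟨h2, h3⟩
      refine ⟨h2, fun i hi hij => ?_⟩
      have := h3 i hi hij
      rwa [h1 i hij.le] at this
    · rintro ⟨h2, h3⟩
      refine ⟨h2, fun i hi hij => ?_⟩
      rw [h1 i hij.le]
      exact h3 i hi hij
  have h1 : PE p E {S | (vol S x (2 * m) : ℝ) ≤ m * κ ∧ (sph S x (3 * m)).Nonempty} ≤
      ∑ j ∈ Finset.Ico m (2 * m), PE p E {S | S ∈ K j ∧ (sph S x (j + m)).Nonempty} := by
    refine le_trans (PE_mono hp hp1 E ?_) (Pr_biUnion_le hw E (Finset.Ico m (2 * m))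
      (fun j => {S | S ∈ K j ∧ (sph S x (j + m)).Nonempty}))
    rintro ω ⟨h2, h3⟩
    rw [Set.mem_iUnion₂]
    -- a level with few vertices
    have h4 : ∃ j, j ∈ Finset.Ico m (2 * m) ∧ ((sph ω x j).card : ℝ) ≤ κ := by
      by_contra h5
      push Not at h5
      have h6' : ∑ _j ∈ Finset.Ico m (2 * m), κ < ∑ j ∈ Finset.Ico m (2 * m), ((sph ω x j).card : ℝ) :=
        sum_lt_sum_of_nonempty ⟨m, Finset.mem_Ico.2 ⟨le_rfl, by omega⟩⟩ fun j hj => h5 j hj
      have h7 := sum_sph_le ω x (2 * m) (Finset.Ico m (2 * m)) fun j hj => by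
        rw [Finset.mem_Ico] at hj
        omega
      have h8 : ∑ j ∈ Finset.Ico m (2 * m), ((sph ω x j).card : ℝ) ≤ vol ω x (2 * m) := by
        exact_mod_cast h7
      rw [sum_const, Nat.card_Ico, nsmul_eq_mul] at h6'
      have h9 : ((2 * m - m : ℕ) : ℝ) = m := by
        have : 2 * m - m = m := by omega
        rw [this]
      rw [h9] at h6'
      linarith
    obtain ⟨hj1, hj2⟩ := Nat.find_spec h4
    set j := Nat.find h4 with hj
    rw [Finset.mem_Ico] at hj1
    refine ⟨j, Finset.mem_Ico.2 hj1, ⟨hj2, fun i hi hij => ?_⟩, ?_⟩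
    · by_contra h5
      push Not at h5
      exact Nat.find_min h4 hij ⟨Finset.mem_Ico.2 ⟨hi, by omega⟩, h5⟩
    · obtain ⟨y, hy⟩ := h3
      exact sph_nonempty_of_le hy (by omega)
  have h2 : ∀ j ∈ Finset.Ico m (2 * m), PE p E {S | S ∈ K j ∧ (sph S x (j + m)).Nonempty} ≤
      g * κ * PE p E {S | S ∈ K j ∧ (sph S x m).Nonempty} := by
    intro j hj
    rw [Finset.mem_Ico] at hj
    refine (pr_arm hp hp1 E x j m (hKB j) fun u E' _ => harm E' u).trans ?_
    rw [mul_assoc]
    refine mul_le_mul_of_nonneg_left ?_ hg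
    have h3 : κ * PE p E {S | S ∈ K j ∧ (sph S x m).Nonempty} =
        EE p E (fun S => κ * ind (S ∈ {S | S ∈ K j ∧ (sph S x m).Nonempty})) := by
      unfold EE PE
      rw [Ex_mul, Ex_ind]
    rw [h3]
    unfold EE
    refine Ex_mono hw fun S => ?_
    by_cases h4 : S ∈ K j
    · rw [ind_true h4, one_mul]
      by_cases h5 : (sph S x j).Nonempty
      · obtain ⟨y, hy⟩ := h5
        have h6 : S ∈ {S | S ∈ K j ∧ (sph S x m).Nonempty} := ⟨h4, sph_nonempty_of_le hy hj.1⟩
        rw [ind_true h6, mul_one]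
        exact h4.1
      · rw [not_nonempty_iff_eq_empty] at h5
        rw [h5, card_empty, Nat.cast_zero]
        exact mul_nonneg hκ0 (ind_nonneg _)
    · rw [ind_false h4, zero_mul]
      exact mul_nonneg hκ0 (ind_nonneg _)
  have h3 : ∑ j ∈ Finset.Ico m (2 * m), PE p E {S | S ∈ K j ∧ (sph S x m).Nonempty} ≤
      PE p E {S | (sph S x m).Nonempty} := by
    have h4 : ∑ j ∈ Finset.Ico m (2 * m), PE p E {S | S ∈ K j ∧ (sph S x m).Nonempty} =
        Ex (fun _ => p) E (fun S => ∑ j ∈ Finset.Ico m (2 * m), ind (S ∈ {S | S ∈ K j ∧ (sph S x m).Nonempty})) := by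
      rw [Ex_sum]
      refine sum_congr rfl fun j _ => ?_
      rw [Ex_ind]
      rfl
    have h5 : PE p E {S | (sph S x m).Nonempty} = Ex (fun _ => p) E (fun S => ind (S ∈ {S | (sph S x m).Nonempty})) := by
      rw [Ex_ind]
      rfl
    rw [h4, h5]
    refine Ex_mono hw fun S => ?_
    by_cases h6 : ∃ j ∈ Finset.Ico m (2 * m), S ∈ K j ∧ (sph S x m).Nonempty
    · obtain ⟨j, hj, h7, h8⟩ := h6
      rw [ind_true (show S ∈ {S | (sph S x m).Nonempty} from h8), sum_eq_single j]
      · exact ind_le_one _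
      · intro i hi hij
        refine ind_false ?_
        rintro ⟨h9, _⟩
        rcases Nat.lt_or_gt_of_ne hij with h10 | h10
        · have := h7.2 i (Finset.mem_Ico.1 hi).1 h10
          exact absurd h9.1 (not_le.2 this)
        · have := h9.2 j (Finset.mem_Ico.1 hj).1 h10
          exact absurd h7.1 (not_le.2 this)
      · intro h9
        exact absurd hj h9
    · push Not at h6
      rw [sum_eq_zero fun j hj => ind_false (show ¬ S ∈ {S | S ∈ K j ∧ (sph S x m).Nonempty} from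
        fun h7 => absurd h7.2 (by rw [h6 j hj h7.1]; exact not_nonempty_empty))]
      exact ind_nonneg _
  calc PE p E {S | (vol S x (2 * m) : ℝ) ≤ m * κ ∧ (sph S x (3 * m)).Nonempty} ≤
        ∑ j ∈ Finset.Ico m (2 * m), g * κ * PE p E {S | S ∈ K j ∧ (sph S x m).Nonempty} :=
        h1.trans (sum_le_sum h2)
    _ = g * κ * ∑ j ∈ Finset.Ico m (2 * m), PE p E {S | S ∈ K j ∧ (sph S x m).Nonempty} := by rw [mul_sum]
    _ ≤ g * κ * g := mul_le_mul_of_nonneg_left (h3.trans (harm E x)) (by positivity)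

/-- **A7.** The one-arm bound. -/
theorem arm_of_tail (hp : 0 ≤ p) (hp1 : p ≤ 1) {C : ℝ} (hC : 0 < C)
    (htail : ∀ (E : Finset (Ed d)) (x : V d) (n : ℕ), 0 < n →
      PE p E {S | ∃ A : Finset (V d), (A : Set (V d)) ⊆ clu S x ∧ n ≤ A.card} ≤ C / Real.sqrt n) :
    ∃ C₂ : ℝ, 0 < C₂ ∧ ∀ (E : Finset (Ed d)) (x : V d) (r : ℕ), 1 ≤ r →
      PE p E {S | (sph S x r).Nonempty} ≤ C₂ / r := by
  classical
  have hw : Wt (fun _ : Ed d => p) := fun _ => ⟨hp, hp1⟩
  set q : ℝ := 3 * (C + 1) with hq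
  have hq3 : 3 < q := by linarith
  have hq0 : 0 < q := by linarith
  set M : ℝ := q ^ 3 with hM
  have hM0 : 0 < M := by positivity
  have hM1 : 1 ≤ M := one_le_pow₀ (by linarith)
  have key : ∀ k : ℕ, ∀ (E : Finset (Ed d)) (x : V d), PE p E {S | (sph S x (3 ^ k)).Nonempty} ≤ M / (3 : ℝ) ^ k := by
    intro k
    induction k with
    | zero =>
      intro E x
      rw [pow_zero, pow_zero, div_one]
      exact (PE_le_one hp hp1 _ _).trans hM1
    | succ k ih =>
      intro E x
      set m := 3 ^ k with hm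
      have hm1 : 1 ≤ m := Nat.one_le_pow _ _ (by norm_num)
      have hm0 : (0 : ℝ) < m := by exact_mod_cast hm1
      have hmc : ((3 : ℝ) ^ k) = m := by rw [hm]; push_cast; ring
      have h3m : 3 ^ (k + 1) = 3 * m := by rw [pow_succ]; ring
      rw [h3m]
      rw [hmc] at ih
      set κ : ℝ := m / q ^ 4 with hκ
      have hκ0 : 0 < κ := by positivity
      have h1 := thin hp hp1 (by positivity) hm1 ih hκ0.le E x
      have h2 : PE p E {S | (m : ℝ) * κ < vol S x (2 * m)} ≤ C * q ^ 2 / m := by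
        set n := ⌊(m : ℝ) * κ⌋₊ + 1 with hn
        have h3 := htail E x n (Nat.succ_pos _)
        have h4 : (m : ℝ) * κ ≤ n := by
          rw [hn]
          push_cast
          exact (Nat.lt_floor_add_one _).le
        have h5 : PE p E {S | (m : ℝ) * κ < vol S x (2 * m)} ≤
            PE p E {S | ∃ A : Finset (V d), (A : Set (V d)) ⊆ clu S x ∧ n ≤ A.card} := by
          refine PE_mono hp hp1 E ?_
          intro S hS
          refine ⟨ball S x (2 * m), ?_, ?_⟩
          · intro y hy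
            obtain ⟨w, _⟩ := mem_ball.1 (Finset.mem_coe.1 hy)
            exact ⟨w⟩
          · have hS' : (m : ℝ) * κ < ((ball S x (2 * m)).card : ℝ) := hS
            have := (Nat.floor_lt (by positivity)).2 hS'
            omega
        refine h5.trans (h3.trans ?_)
        have h6 : Real.sqrt n ≥ m / q ^ 2 := by
          apply Real.le_sqrt_of_sq_le
          refine le_trans (le_of_eq ?_) h4
          rw [hκ]
          field_simp
        have h7 : 0 < (m : ℝ) / q ^ 2 := by positivity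
        calc C / Real.sqrt n ≤ C / (m / q ^ 2) := div_le_div_of_nonneg_left hC.le h7 h6
          _ = C * q ^ 2 / m := by field_simp
      have h3 : PE p E {S | (sph S x (3 * m)).Nonempty} ≤
          PE p E {S | (vol S x (2 * m) : ℝ) ≤ m * κ ∧ (sph S x (3 * m)).Nonempty} +
          PE p E {S | (m : ℝ) * κ < vol S x (2 * m)} := by
        refine le_trans (PE_mono hp hp1 E ?_) (Pr_union_le hw E _ _)
        intro S hS
        by_cases h4 : (vol S x (2 * m) : ℝ) ≤ m * κ
        · exact Or.inl ⟨h4, hS⟩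
        · exact Or.inr (not_le.1 h4)
      have h4 : M / m * κ * (M / m) = q ^ 2 / m := by
        rw [hκ, hM]
        field_simp
      have h5 : M / (3 : ℝ) ^ (k + 1) = q ^ 2 / m + C * q ^ 2 / m := by
        rw [pow_succ, hmc, hM]
        have : q = 3 * (C + 1) := hq
        field_simp
        rw [this]
        ring
      rw [h5]
      linarith
  refine ⟨3 * M, by positivity, fun E x r hr => ?_⟩
  have hr0 : (0 : ℝ) < r := by exact_mod_cast hr
  set k := Nat.log 3 r with hk
  have h1 : 3 ^ k ≤ r := Nat.pow_log_le_self 3 (by omega)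
  have h2 : r < 3 ^ (k + 1) := Nat.lt_pow_succ_log_self (by norm_num) r
  have h3 : PE p E {S | (sph S x r).Nonempty} ≤ PE p E {S | (sph S x (3 ^ k)).Nonempty} := by
    refine PE_mono hp hp1 E ?_
    rintro S ⟨y, hy⟩
    exact sph_nonempty_of_le hy h1
  refine h3.trans ((key k E x).trans ?_)
  rw [div_le_div_iff₀ (by positivity) hr0]
  have h4 : (r : ℝ) ≤ 3 * 3 ^ k := by
    have : ((r : ℕ) : ℝ) ≤ ((3 ^ (k + 1) : ℕ) : ℝ) := by exact_mod_cast h2.le
    push_cast at this
    rw [pow_succ] at this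
    linarith
  nlinarith

theorem Std.arm {d : ℕ} {p : ℝ} (hS : Std d p) :
    ∃ C₂ : ℝ, 0 < C₂ ∧ ∀ (E : Finset (Ed d)) (x : V d) (r : ℕ), 1 ≤ r →
      PE p E {S | (sph S x r).Nonempty} ≤ C₂ / r := by
  obtain ⟨C, hC, h⟩ := hS.tail
  exact arm_of_tail hS.hp0.le hS.hp1.le hC h

end Pool.Agent.Lib.MP_06caae_pr
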