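import Pool.Agent.Lib.MP_06caae_pr.Path

/-!
# Two arms outside a box, and opening the box (surgery without closing edges)

`off S Q`: the open edges which do not have both ends in the box `Q`. `Av Q a a' r r'`: outside the box
there are arms from `Q` to `a` (length `r`) and to `a'` (length `r'`) in different clusters of
`off S Q`.  This event does not depend on the edges inside `Q`; if in addition all edges inside `Q` are
open then `a` and `a'` are connected and all open paths from `a` to `a'` visit `Q`.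
-/

open Finset SimpleGraph
open Pool.Agent.Lib.MP_566bac_pr.Zd

namespace Pool.Agent.Lib.MP_06caae_pr

variable {d : ℕ}

/-- the open edges which are not inside `Q` -/
def offQ (S : Set (Ed d)) (Q : Finset (V d)) : Set (Ed d) := S \ (Ein Q : Set (Ed d))

/-- two arms outside the box -/
def Av (Q : Finset (V d)) (a a' : V d) (r r' : ℕ) : Set (Set (Ed d)) :=
  {S | ∃ b ∈ Q, ∃ b' ∈ Q, Rch (offQ S Q) b r a ∧ Rch (offQ S Q) b' r' a' ∧
    ¬ Con (offQ S Q) b b'}

lemma offQ_subset (S : Set (Ed d)) (Q : Finset (V d)) : offQ S Q ⊆ S := fun _ h => h.1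

/-- last exit: after the last visit to `Q` a path uses no edge inside `Q` -/
lemma last_exit {S : Set (Ed d)} {Q : Finset (V d)} {v a : V d} {r : ℕ} (hv : v ∈ Q)
    (h : Rch S v r a) : ∃ b ∈ Q, Con S v b ∧ Rch (offQ S Q) b r a := by
  classical
  obtain ⟨q, hq⟩ := h
  rcases walk_last (X := (Q : Set (V d))) q with h3 | ⟨u, h3, q2, h4, h5, h6⟩
  · exact absurd (Finset.mem_coe.mpr hv) (h3 v q.start_mem_support)
  refine ⟨u, Finset.mem_coe.mp h3, ?_, ?_⟩
  · have h7 : Con S v a := ⟨q⟩
    have h8 : Con S u a := ⟨q2⟩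
    exact h7.trans h8.symm
  · refine (rch_edges q2).mono ?_ (h4.trans hq)
    intro e he
    refine ⟨edges_mem q2 he, ?_⟩
    intro hE
    obtain ⟨z, hz, hze⟩ := h6 e he
    apply hz
    rw [Finset.mem_coe] at hE
    induction e using Sym2.ind with
    | _ x y =>
      rw [mem_Ein] at hE
      rw [Sym2.mem_iff] at hze
      rcases hze with rfl | rfl
      · exact Finset.mem_coe.mpr hE.1
      · exact Finset.mem_coe.mpr hE.2.1

lemma av_of_pre {S : Set (Ed d)} {Q : Finset (V d)} {v₁ v₂ a a' : V d} {r r' : ℕ} (h1 : v₁ ∈ Q)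
    (h2 : v₂ ∈ Q) (ha : Rch S v₁ r a) (ha' : Rch S v₂ r' a') (hn : ¬ Con S v₁ v₂) :
    S ∈ Av Q a a' r r' := by
  obtain ⟨b, hb, hc, hr⟩ := last_exit h1 ha
  obtain ⟨b', hb', hc', hr'⟩ := last_exit h2 ha'
  refine ⟨b, hb, b', hb', hr, hr', ?_⟩
  intro hcon
  exact hn ((hc.trans (hcon.mono (offQ_subset S Q))).trans hc'.symm)

lemma av_dp (Q : Finset (V d)) (a a' : V d) (r r' : ℕ) :
    Dp ((Ein Q : Set (Ed d))ᶜ) (Av Q a a' r r') := by
  intro S S' h
  have h1 : offQ S Q = offQ S' Q := by
    ext e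
    simp only [offQ, Set.mem_sdiff]
    constructor
    · rintro ⟨h2, h3⟩
      exact ⟨(h e h3).mp h2, h3⟩
    · rintro ⟨h2, h3⟩
      exact ⟨(h e h3).mpr h2, h3⟩
  simp only [Av, Set.mem_ofPred_eq, h1]

/-- in an open box the graph distance is at most the `l1` distance -/
lemma box_l1 {S : Set (Ed d)} {v : V d} {k : ℕ} (hS : (Ein (Lam v k) : Set (Ed d)) ⊆ S) :
    ∀ (n : ℕ) (x y : V d), x ∈ Lam v k → y ∈ Lam v k → (∑ i, (x i - y i).natAbs) = n →
      Rch S x n y := by
  intro n
  induction n with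
  | zero =>
    intro x y _ _ hk
    have h1 : x = y := by
      ext i
      have h2 := (sum_eq_zero_iff.mp hk) i (mem_univ i)
      omega
    rw [h1]
    exact Rch.refl _ _ _
  | succ n ih =>
    intro x y hx hy hk
    have h1 : ∃ i, x i ≠ y i := by
      by_contra hcon
      push Not at hcon
      rw [sum_eq_zero (fun i _ => by rw [hcon i, sub_self]; rfl)] at hk
      omega
    obtain ⟨i, hi'⟩ := h1
    rw [mem_Lam'] at hx hy
    obtain ⟨x', hadj, hother, hmove⟩ : ∃ x' : V d, (lattice d).Adj x x' ∧ (∀ j, j ≠ i → x' j = x j) ∧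
        ((x i < y i ∧ x' i = x i + 1) ∨ (y i < x i ∧ x' i = x i - 1)) := by
      rcases lt_or_gt_of_ne hi' with h | h
      · refine ⟨x + uv i, adj_add x i, ?_, Or.inl ⟨h, ?_⟩⟩
        · intro j hj
          rw [Pi.add_apply, uv_ne hj, add_zero]
        · rw [Pi.add_apply, uv_same]
      · refine ⟨x - uv i, adj_sub x i, ?_, Or.inr ⟨h, ?_⟩⟩
        · intro j hj
          rw [Pi.sub_apply, uv_ne hj, sub_zero]
        · rw [Pi.sub_apply, uv_same]
    have hx' : x' ∈ Lam v k := by
      rw [mem_Lam']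
      intro j
      rcases eq_or_ne j i with rfl | hj
      · have := hx j
        have := hy j
        omega
      · rw [hother j hj]
        exact hx j
    have hsum : ∑ j, (x' j - y j).natAbs = n := by
      have e1 : ∑ j, (x j - y j).natAbs =
          (x i - y i).natAbs + ∑ j ∈ univ.erase i, (x j - y j).natAbs :=
        (Finset.add_sum_erase univ (fun j => (x j - y j).natAbs) (mem_univ i)).symm
      have e2 : ∑ j, (x' j - y j).natAbs =
          (x' i - y i).natAbs + ∑ j ∈ univ.erase i, (x' j - y j).natAbs :=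
        (Finset.add_sum_erase univ (fun j => (x' j - y j).natAbs) (mem_univ i)).symm
      have e3 : ∑ j ∈ univ.erase i, (x' j - y j).natAbs = ∑ j ∈ univ.erase i, (x j - y j).natAbs := by
        apply sum_congr rfl
        intro j hj
        rw [hother j (ne_of_mem_erase hj)]
      rw [e1] at hk
      rw [e2, e3]
      omega
    have h2 := (Rch.step hadj (hS (Finset.mem_coe.mpr (mem_Ein.mpr ⟨mem_Lam'.mpr hx, hx', hadj⟩)))).trans
      (ih x' y hx' (mem_Lam'.mpr hy) hsum)
    rwa [add_comm] at h2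

/-- in an open box all vertices are at distance at most `2 k d` -/
lemma box_diam {S : Set (Ed d)} {v x y : V d} {k : ℕ} (hS : (Ein (Lam v k) : Set (Ed d)) ⊆ S)
    (hx : x ∈ Lam v k) (hy : y ∈ Lam v k) : Rch S x (2 * k * d) y := by
  refine (box_l1 hS _ x y hx hy rfl).mono subset_rfl ?_
  rw [mem_Lam'] at hx hy
  calc ∑ i, (x i - y i).natAbs ≤ ∑ _i : Fin d, 2 * k := by
        apply sum_le_sum
        intro i _
        have := hx i
        have := hy i
        omega
    _ = 2 * k * d := by
        rw [sum_const, card_univ, Fintype.card_fin, smul_eq_mul, mul_comm]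

lemma av_post {S : Set (Ed d)} {v a a' : V d} {k r r' : ℕ} (hS : S ∈ Av (Lam v k) a a' r r')
    (hQ : (Ein (Lam v k) : Set (Ed d)) ⊆ S) :
    (∀ z ∈ Lam v k, Rch S z (r + 2 * k * d) a) ∧ Rch S a (r + r' + 2 * k * d) a' ∧
      ∀ w : (openGraph S).Walk a a', ∃ z ∈ w.support, z ∈ (Lam v k : Set (V d)) := by
  obtain ⟨b, hb, b', hb', h1, h2, h3⟩ := hS
  have h1' : Rch S b r a := h1.mono (offQ_subset _ _) le_rfl
  have h2' : Rch S b' r' a' := h2.mono (offQ_subset _ _) le_rfl
  refine ⟨?_, ?_, ?_⟩
  · intro z hz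
    exact ((box_diam hQ hz hb).trans h1').mono subset_rfl (by omega)
  · exact ((h1'.symm.trans (box_diam hQ hb hb')).trans h2').mono subset_rfl (by omega)
  · intro w
    by_contra hcon
    push Not at hcon
    apply h3
    have h4 : Con (offQ S (Lam v k)) a a' := by
      refine ((rch_edges w).mono (S' := offQ S (Lam v k)) ?_ le_rfl).con
      intro e he
      refine ⟨edges_mem w he, ?_⟩
      intro hE
      rw [Finset.mem_coe] at hE
      have he' : e ∈ w.edges := he
      induction e using Sym2.ind with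
      | _ x y =>
        rw [mem_Ein] at hE
        exact hcon x (w.fst_mem_support_of_mem_edges he') (Finset.mem_coe.mpr hE.1)
    exact (h1.con.trans h4).trans h2.con.symm

end Pool.Agent.Lib.MP_06caae_pr
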