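import Pool.Agent.Lib.MP_06caae_pr.A.Av

/-!
# Three arms outside two boxes, and opening both boxes

`Pre3`: `v₁, v₂` are in the box `Q`, `v₂', v₃` in the box `Q'`; an arm from `v₁` to `a`, a middle piece
from `v₂` to `v₂'` and an arm from `v₃` to `y`; the cluster of `v₁` misses `Q'` and the cluster of `v₃`
misses `Q`.  `Av3`: the same outside the boxes, an event which does not depend on the edges inside the
boxes.  `Post3`: what we get when all edges inside the boxes are open.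
-/

open Finset SimpleGraph
open Pool.Agent.Lib.MP_566bac_pr.Zd

namespace Pool.Agent.Lib.MP_06caae_pr

variable {d : ℕ}

/-- the open edges which are inside neither box -/
def off2 (S : Set (Ed d)) (Q Q' : Finset (V d)) : Set (Ed d) := offQ (offQ S Q) Q'

lemma off2_comm (S : Set (Ed d)) (Q Q' : Finset (V d)) : off2 S Q Q' = off2 S Q' Q := by
  ext e
  simp only [off2, offQ, Set.mem_sdiff]
  tauto

lemma off2_subset (S : Set (Ed d)) (Q Q' : Finset (V d)) : off2 S Q Q' ⊆ S :=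
  fun _ h => h.1.1

lemma mem_off2 {S : Set (Ed d)} {Q Q' : Finset (V d)} {e : Ed d} (hS : e ∈ S) (h : e ∉ Ein Q)
    (h' : e ∉ Ein Q') : e ∈ off2 S Q Q' :=
  ⟨⟨hS, fun h2 => h (Finset.mem_coe.mp h2)⟩, fun h2 => h' (Finset.mem_coe.mp h2)⟩

/-- three arms -/
def Pre3 (Q Q' : Finset (V d)) (v₁ v₂ v₂' v₃ a y : V d) (R r : ℕ) : Set (Set (Ed d)) :=
  {S | Rch S v₁ R a ∧ Rch S v₂ r v₂' ∧ Rch S v₃ R y ∧ (∀ q ∈ Q', ¬ Con S v₁ q) ∧
    ∀ q ∈ Q, ¬ Con S v₃ q}

/-- three arms outside the boxes -/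
def Av3 (Q Q' : Finset (V d)) (a y : V d) (R r : ℕ) : Set (Set (Ed d)) :=
  {S | ∃ b₁ ∈ Q, ∃ b₂ ∈ Q, ∃ c₂ ∈ Q', ∃ c₃ ∈ Q', Rch (off2 S Q Q') b₁ R a ∧
    Rch (off2 S Q Q') b₂ r c₂ ∧ Rch (off2 S Q Q') c₃ R y ∧
    (∀ q ∈ Q', ¬ Con (off2 S Q Q') b₁ q) ∧ ∀ q ∈ Q, ¬ Con (off2 S Q Q') c₃ q}

/-- what the open boxes give -/
def Post3 (v v' a y : V d) (k R r : ℕ) : Set (Set (Ed d)) :=
  {S | (∀ z ∈ Lam v k, ∀ z' ∈ Lam v' k, Rch S z (r + 4 * k * d) z') ∧
      Rch S a (2 * R + r + 4 * k * d) y ∧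
      (∀ w : (openGraph S).Walk a y, ∃ z ∈ w.support, z ∈ (Lam v k : Set (V d))) ∧
      ∀ w : (openGraph S).Walk a y, ∃ z ∈ w.support, z ∈ (Lam v' k : Set (V d))}

/-- a path in a cluster which misses a box uses no edge of the box -/
lemma rch_off_of_miss {S : Set (Ed d)} {Q : Finset (V d)} {b a : V d} {r : ℕ} (h : Rch S b r a)
    (hm : ∀ q ∈ Q, ¬ Con S b q) : Rch (offQ S Q) b r a := by
  classical
  obtain ⟨w, hw⟩ := h
  refine (rch_edges w).mono (S' := offQ S Q) ?_ hw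
  intro e he
  refine ⟨edges_mem w he, ?_⟩
  intro hE
  have he' : e ∈ w.edges := he
  rw [Finset.mem_coe] at hE
  induction e using Sym2.ind with
  | _ x y =>
    rw [mem_Ein] at hE
    have hx : x ∈ w.support := w.fst_mem_support_of_mem_edges he'
    exact hm x hE.1 ⟨w.takeUntil x hx⟩

lemma av3_of_pre {S : Set (Ed d)} {Q Q' : Finset (V d)} {v₁ v₂ v₂' v₃ a y : V d} {R r : ℕ}
    (h1 : v₁ ∈ Q) (h2 : v₂ ∈ Q) (h2' : v₂' ∈ Q') (h3 : v₃ ∈ Q')
    (hS : S ∈ Pre3 Q Q' v₁ v₂ v₂' v₃ a y R r) : S ∈ Av3 Q Q' a y R r := by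
  obtain ⟨ha, hm, hy, hQ', hQ⟩ := hS
  obtain ⟨b₁, hb₁, hc₁, hr₁⟩ := last_exit h1 ha
  obtain ⟨b₂, hb₂, _, hr₂⟩ := last_exit h2 hm
  obtain ⟨c₂, hc₂, _, hr₂'⟩ := last_exit (S := offQ S Q) h2' hr₂.symm
  obtain ⟨c₃, hc₃, hc₃', hr₃⟩ := last_exit h3 hy
  refine ⟨b₁, hb₁, b₂, hb₂, c₂, hc₂, c₃, hc₃, ?_, hr₂'.symm, ?_, ?_, ?_⟩
  · apply rch_off_of_miss hr₁
    intro q hq hcon
    exact hQ' q hq (hc₁.trans (hcon.mono (offQ_subset _ _)))
  · rw [off2_comm]
    apply rch_off_of_miss hr₃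
    intro q hq hcon
    exact hQ q hq (hc₃'.trans (hcon.mono (offQ_subset _ _)))
  · intro q hq hcon
    exact hQ' q hq (hc₁.trans (hcon.mono (off2_subset _ _ _)))
  · intro q hq hcon
    exact hQ q hq (hc₃'.trans (hcon.mono (off2_subset _ _ _)))

lemma av3_dp (Q Q' : Finset (V d)) (a y : V d) (R r : ℕ) :
    Dp ((Ein Q ∪ Ein Q' : Set (Ed d))ᶜ) (Av3 Q Q' a y R r) := by
  intro S S' h
  have h1 : off2 S Q Q' = off2 S' Q Q' := by
    ext e
    simp only [off2, offQ, Set.mem_sdiff]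
    by_cases h2 : e ∈ (Ein Q : Set (Ed d))
    · tauto
    by_cases h3 : e ∈ (Ein Q' : Set (Ed d))
    · tauto
    have h4 := h e (by
      intro h5
      rcases h5 with h5 | h5
      · exact h2 h5
      · exact h3 h5)
    tauto
  simp only [Av3, Set.mem_ofPred_eq, h1]

/-- a property which is kept along the edges of a walk -/
lemma walk_stay {S : Set (Ed d)} {a y : V d} (w : (openGraph S).Walk a y) (P : V d → Prop)
    (ha : P a) (h : ∀ x z, x ∈ w.support → z ∈ w.support → (openGraph S).Adj x z → P x → P z) :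
    P y := by
  induction w with
  | nil => exact ha
  | @cons u v t hadj q ih =>
    apply ih
    · apply h u v _ _ hadj ha
      · rw [Walk.support_cons]
        exact List.mem_cons_self
      · rw [Walk.support_cons]
        exact List.mem_cons_of_mem _ q.start_mem_support
    · intro x z hx hz hadj2 hP
      apply h x z _ _ hadj2 hP
      · rw [Walk.support_cons]
        exact List.mem_cons_of_mem _ hx
      · rw [Walk.support_cons]
        exact List.mem_cons_of_mem _ hz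

/-- a walk to another off-cluster visits the box -/
lemma off2_visit {S : Set (Ed d)} {Q Q' : Finset (V d)} {b a c y : V d}
    (hb : Con (off2 S Q Q') b a) (hc : Con (off2 S Q Q') c y) (hcQ : c ∈ Q')
    (hm : ∀ q ∈ Q', ¬ Con (off2 S Q Q') b q) (w : (openGraph S).Walk a y) :
    ∃ z ∈ w.support, z ∈ (Q : Set (V d)) := by
  by_contra hcon
  push Not at hcon
  have h1 : Con (off2 S Q Q') b y := by
    apply walk_stay w (fun z => Con (off2 S Q Q') b z) hb
    intro x z hx _ hadj hP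
    have h2 : (lattice d).Adj x z ∧ s(x, z) ∈ S := by
      simpa [openGraph] using hadj
    refine hP.trans (Con.step h2.1 (mem_off2 h2.2 ?_ ?_))
    · intro h3
      rw [mem_Ein] at h3
      exact hcon x hx (Finset.mem_coe.mpr h3.1)
    · intro h3
      rw [mem_Ein] at h3
      exact hm x h3.1 hP
  exact hm c hcQ (h1.trans hc.symm)

lemma av3_post {S : Set (Ed d)} {v v' a y : V d} {k R r : ℕ}
    (hS : S ∈ Av3 (Lam v k) (Lam v' k) a y R r)
    (hQ : (Ein (Lam v k) : Set (Ed d)) ⊆ S) (hQ' : (Ein (Lam v' k) : Set (Ed d)) ⊆ S) :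
    S ∈ Post3 v v' a y k R r := by
  obtain ⟨b₁, hb₁, b₂, hb₂, c₂, hc₂, c₃, hc₃, hr₁, hr₂, hr₃, hm, hm'⟩ := hS
  have h1 : Rch S b₁ R a := hr₁.mono (off2_subset _ _ _) le_rfl
  have h2 : Rch S b₂ r c₂ := hr₂.mono (off2_subset _ _ _) le_rfl
  have h3 : Rch S c₃ R y := hr₃.mono (off2_subset _ _ _) le_rfl
  refine ⟨?_, ?_, ?_, ?_⟩
  · intro z hz z' hz'
    exact (((box_diam hQ hz hb₂).trans h2).trans (box_diam hQ' hc₂ hz')).mono subset_rfl
      (by ring_nf; omega)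
  · exact ((((h1.symm.trans (box_diam hQ hb₁ hb₂)).trans h2).trans
      (box_diam hQ' hc₂ hc₃)).trans h3).mono subset_rfl (by ring_nf; omega)
  · exact fun w => off2_visit hr₁.con hr₃.con hc₃ hm w
  · intro w
    have h4 := off2_visit (S := S) (Q := Lam v' k) (Q' := Lam v k) (b := c₃) (a := y) (c := b₁)
      (y := a) (by rw [off2_comm]; exact hr₃.con) (by rw [off2_comm]; exact hr₁.con) hb₁
      (by rw [off2_comm]; exact hm') w.reverse
    obtain ⟨z, hz, hz2⟩ := h4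
    rw [Walk.support_reverse, List.mem_reverse] at hz
    exact ⟨z, hz, hz2⟩

end Pool.Agent.Lib.MP_06caae_pr
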