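import Pool.Agent.Lib.MP_06caae_pr.Tau

/-!
# Averaging sets for the two-point function
-/

open Finset Filter Topology
open Pool.Agent.Lib.MP_566bac_pr.Zd

namespace Pool.Agent.Lib.MP_06caae_pr

variable {d : ℕ}

/-- averaging sets: finite sets of vertices whose total connection probability to any vertex is at most twice
the one to the origin, and along which averages of convergent functions converge -/
def AvSets (p : ℝ) (X : ℕ → Finset (V d)) : Prop :=
  (∀ n w, ∑ x ∈ X n, tau p (x - w) ≤ 2 * ∑ x ∈ X n, tau p x) ∧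
  ∀ (f : V d → ℝ) (B L : ℝ), (∀ x, |f x| ≤ B) → Tendsto f cofinite (𝓝 L) →
    Tendsto (fun n => (∑ x ∈ X n, tau p x * f x) / (∑ x ∈ X n, tau p x)) atTop (𝓝 L)

end Pool.Agent.Lib.MP_06caae_pr
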