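import Pool.Agent.Lib.MP_06caae_pr.OpenTri
import Pool.Agent.Lib.MP_06caae_pr.Lev1
import Pool.Agent.Lib.MP_06caae_pr.A.AvDef

/-!
# Averages over big cubes with nearly maximal mass

`avg_tendsto`: weighted averages of a convergent function over finite sets of diverging weight converge.
`cubes`: finite sets `Q n` with `∑ x ∈ Q n, tau x → ∞` and `∑ x ∈ Q n, tau (x - w) ≤ 2 ∑ x ∈ Q n, tau x` for all `w`:
translates of the cube of radius `n` whose mass is at least half of the supremum over all translates.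
-/

open Finset SimpleGraph Filter
open Pool.Agent.Lib.MP_566bac_pr.Zd
open scoped Topology

namespace Pool.Agent.Lib.MP_06caae_pr

variable {d : ℕ}

/-- the balls are disjoint unions of spheres, and the expected size of every sphere is at least 1 -/
private theorem avg_G_low {p : ℝ} (hS : Std d p) (r : ℕ) : (r : ℝ) + 1 ≤ GG d p r := by
  classical
  have hp0 := hS.hp0.le
  have hp1 := hS.hp1.le
  rw [← EE_ball_eq]
  have h1 : ∀ S : Set (Ed d), ((ball S (0 : V d) r).card : ℝ) = ∑ j ∈ range (r + 1), ((sph S (0 : V d) j).card : ℝ) := by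
    intro S
    rw [← Nat.cast_sum]
    congr 1
    have h2 : ball S (0 : V d) r = (range (r + 1)).biUnion fun j => sph S (0 : V d) j := by
      ext y
      rw [mem_ball, ball_eq_sph, mem_biUnion]
      constructor
      · rintro ⟨k, hk, h⟩
        exact ⟨k, mem_range.2 (by omega), h⟩
      · rintro ⟨k, hk, h⟩
        exact ⟨k, Nat.le_of_lt_succ (mem_range.1 hk), h⟩
    rw [h2, card_biUnion]
    intro i _ j _ hij
    show Disjoint (sph S 0 i) (sph S 0 j)
    rw [Finset.disjoint_left]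
    intro y hyi hyj
    exact hij (sph_unique hyi hyj)
  unfold EE
  simp only [h1]
  rw [Ex_sum]
  have h2 : ∑ _j ∈ range (r + 1), (1 : ℝ) = (r : ℝ) + 1 := by
    rw [sum_const, card_range, nsmul_eq_mul, mul_one]
    push_cast
    ring
  rw [← h2]
  refine sum_le_sum fun j hj => ?_
  have h3 := hS.lev j
  have h4 := EE_sph_box (d := d) (p := p) (Nat.le_of_lt_succ (mem_range.1 hj))
  unfold EE at h3 h4
  rw [h4]
  exact h3

lemma avg_tendsto {ι : Type*} {t f : ι → ℝ} (ht : ∀ x, 0 ≤ t x) {L : ℝ}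
    (hf : Tendsto f cofinite (𝓝 L)) {Q : ℕ → Finset ι}
    (hQ : Tendsto (fun n => ∑ x ∈ Q n, t x) atTop atTop) :
    Tendsto (fun n => (∑ x ∈ Q n, t x * f x) / ∑ x ∈ Q n, t x) atTop (𝓝 L) := by
  classical
  rw [Metric.tendsto_atTop]
  intro ε hε
  have h1 : ∀ᶠ x in cofinite, |f x - L| < ε / 2 := by
    have := hf.eventually (Metric.ball_mem_nhds L (half_pos hε))
    filter_upwards [this] with x hx
    rw [← Real.dist_eq]
    exact hx
  rw [eventually_cofinite] at h1
  set F : Finset ι := h1.toFinset with hF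
  set B : ℝ := ∑ x ∈ F, t x * |f x - L| with hB
  have hB0 : 0 ≤ B := sum_nonneg fun x _ => mul_nonneg (ht x) (abs_nonneg _)
  obtain ⟨n₀, hn₀⟩ := (tendsto_atTop.1 hQ (2 * B / ε + 1)).exists_forall_of_atTop
  refine ⟨n₀, fun n hn => ?_⟩
  have hW := hn₀ n hn
  set W : ℝ := ∑ x ∈ Q n, t x with hWdef
  have hW0 : 0 < W := by
    have : 0 ≤ 2 * B / ε := by positivity
    linarith
  rw [Real.dist_eq]
  have e1 : (∑ x ∈ Q n, t x * f x) / W - L = (∑ x ∈ Q n, t x * (f x - L)) / W := by
    have : ∑ x ∈ Q n, t x * (f x - L) = ∑ x ∈ Q n, t x * f x - W * L := by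
      rw [hWdef, sum_mul, ← sum_sub_distrib]
      exact sum_congr rfl fun x _ => by ring
    rw [this]
    field_simp
  rw [e1, abs_div, abs_of_pos hW0, div_lt_iff₀ hW0]
  have h2 : |∑ x ∈ Q n, t x * (f x - L)| ≤ ∑ x ∈ Q n, t x * |f x - L| := by
    refine (abs_sum_le_sum_abs _ _).trans (sum_le_sum fun x _ => ?_)
    rw [abs_mul, abs_of_nonneg (ht x)]
  have h3 : ∑ x ∈ Q n, t x * |f x - L| ≤ B + ε / 2 * W := by
    rw [← sum_filter_add_sum_filter_not (Q n) (fun x => x ∈ F)]
    apply add_le_add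
    · refine sum_le_sum_of_subset_of_nonneg ?_ fun x _ _ => mul_nonneg (ht x) (abs_nonneg _)
      intro x hx
      exact (mem_filter.1 hx).2
    · have h4 : ∑ x ∈ (Q n).filter (fun x => x ∉ F), t x * |f x - L| ≤
          ∑ x ∈ (Q n).filter (fun x => x ∉ F), ε / 2 * t x := by
        refine sum_le_sum fun x hx => ?_
        have h5 := (mem_filter.1 hx).2
        rw [hF, Set.Finite.mem_toFinset, Set.mem_ofPred_eq, not_not] at h5
        rw [mul_comm]
        exact mul_le_mul_of_nonneg_right h5.le (ht x)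
      refine h4.trans ?_
      rw [← mul_sum]
      refine mul_le_mul_of_nonneg_left ?_ (by positivity)
      exact sum_le_sum_of_subset_of_nonneg (filter_subset _ _) fun x _ _ => ht x
  have h5 : B < ε / 2 * W := by
    have h6 : 2 * B / ε < W := by linarith
    rw [div_lt_iff₀ hε] at h6
    linarith
  linarith

/-- the cube around `z` -/
lemma sum_Lam_shift (g : V d → ℝ) (z w : V d) (n : ℕ) :
    ∑ x ∈ (Lam z n : Finset (V d)), g (x - w) = ∑ x ∈ (Lam (z - w) n : Finset (V d)), g x := by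
  classical
  refine sum_nbij' (fun x => x - w) (fun x => x + w) ?_ ?_ ?_ ?_ ?_
  · intro x hx
    rw [mem_Lam'] at hx ⊢
    intro i
    have := hx i
    rw [Pi.sub_apply, Pi.sub_apply]
    omega
  · intro x hx
    rw [mem_Lam'] at hx ⊢
    intro i
    have := hx i
    rw [Pi.sub_apply] at this
    rw [Pi.add_apply]
    omega
  · intro x _
    exact sub_add_cancel x w
  · intro x _
    exact add_sub_cancel_right x w
  · intro x _
    rfl

/-- big cubes with nearly maximal mass -/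
theorem cubes {p : ℝ} (hS : Std d p) : ∃ Q : ℕ → Finset (V d),
    Tendsto (fun n => ∑ x ∈ Q n, tau p x) atTop atTop ∧
    ∀ n w, ∑ x ∈ Q n, tau p (x - w) ≤ 2 * ∑ x ∈ Q n, tau p x := by
  classical
  have h0 := hS.hp0.le
  have h1 := hS.hp1.le
  have hpos : ∀ (z : V d) (n : ℕ), 0 < ∑ x ∈ (Lam z n : Finset (V d)), tau p x := by
    intro z n
    refine sum_pos (fun x _ => tau_pos hS.hp0 h1 x) ⟨z, ?_⟩
    rw [mem_Lam']
    intro i
    omega
  have hbdd : ∀ n : ℕ, BddAbove (Set.range fun z : V d => ∑ x ∈ (Lam z n : Finset (V d)), tau p x) := by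
    intro n
    refine ⟨((Lam (0 : V d) n).card : ℝ), ?_⟩
    rintro _ ⟨z, rfl⟩
    have e1 := sum_Lam_shift (fun x => tau p (x + z)) z z n
    rw [sub_self] at e1
    simp only [sub_add_cancel] at e1
    show ∑ x ∈ (Lam z n : Finset (V d)), tau p x ≤ _
    rw [e1]
    refine (sum_le_sum fun x _ => tau_le_one h0 h1 _).trans ?_
    rw [sum_const, nsmul_eq_mul, mul_one]
  have hex : ∀ n : ℕ, ∃ z : V d, (⨆ z : V d, ∑ x ∈ (Lam z n : Finset (V d)), tau p x) <
      2 * ∑ x ∈ (Lam z n : Finset (V d)), tau p x := by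
    intro n
    have h2 : (⨆ z : V d, ∑ x ∈ (Lam z n : Finset (V d)), tau p x) / 2 <
        ⨆ z : V d, ∑ x ∈ (Lam z n : Finset (V d)), tau p x := by
      have h3 : 0 < ⨆ z : V d, ∑ x ∈ (Lam z n : Finset (V d)), tau p x :=
        (hpos 0 n).trans_le (le_ciSup (hbdd n) 0)
      linarith
    obtain ⟨z, hz⟩ := exists_lt_of_lt_ciSup h2
    exact ⟨z, by linarith⟩
  choose z hz using hex
  refine ⟨fun n => Lam (z n) n, ?_, ?_⟩
  · have h2 : ∀ n : ℕ, (n : ℝ) / 2 ≤ ∑ x ∈ (Lam (z n) n : Finset (V d)), tau p x := by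
      intro n
      have h3 := avg_G_low hS n
      have h4 : GG d p n ≤ ∑ x ∈ (Lam 0 n : Finset (V d)), tau p x :=
        sum_le_sum fun x _ => ppi_le_tau h0 h1 n x
      have h5 := le_ciSup (hbdd n) 0
      have h6 := hz n
      linarith
    refine tendsto_atTop_mono h2 ?_
    exact tendsto_natCast_atTop_atTop.atTop_div_const (by norm_num)
  · intro n w
    rw [sum_Lam_shift]
    exact (le_ciSup (hbdd n) (z n - w)).trans (hz n).le

/-- averaging sets: the format of the reach lemma -/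
theorem avSets_exists {p : ℝ} (hS : Std d p) : ∃ X : ℕ → Finset (V d), AvSets p X := by
  obtain ⟨X, h1, h2⟩ := cubes hS
  exact ⟨X, h2, fun f _ L _ hf => avg_tendsto (fun x => tau_nonneg hS.hp0.le hS.hp1.le x) hf h1⟩

/-- averaging sets, with diverging mass -/
theorem avg_sets {p : ℝ} (hS : Std d p) : ∃ X : ℕ → Finset (V d),
    (∀ n w, ∑ x ∈ X n, tau p (x - w) ≤ 2 * ∑ x ∈ X n, tau p x) ∧
    Tendsto (fun n => ∑ x ∈ X n, tau p x) atTop atTop ∧
    ∀ (f : V d → ℝ) (L : ℝ), Tendsto f cofinite (𝓝 L) →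
      Tendsto (fun n => (∑ x ∈ X n, tau p x * f x) / ∑ x ∈ X n, tau p x) atTop (𝓝 L) := by
  obtain ⟨X, h1, h2⟩ := cubes hS
  exact ⟨X, h2, h1, fun f L hf => avg_tendsto (fun x => tau_nonneg hS.hp0.le hS.hp1.le x) hf h1⟩

end Pool.Agent.Lib.MP_06caae_pr
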