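import Pool.Agent.Lib.MP_06caae_pr.Tau

/-!
# Connections which avoid an explored set of clusters
-/

open Finset SimpleGraph
open Pool.Agent.Lib.MP_566bac_pr.Zd

namespace Pool.Agent.Lib.MP_06caae_pr

variable {d : ℕ}

/-- the union of the clusters of the points of `X` -/
def cls (S : Set (Ed d)) (X : Finset (V d)) : Set (V d) := {y | ∃ x ∈ X, Con S x y}

lemma clu_sub_cls {S : Set (Ed d)} {X : Finset (V d)} {x : V d} (hx : x ∈ X) :
    clu S x ⊆ cls S X := fun _ hy => ⟨x, hx, hy⟩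

lemma cls_agree {X : Finset (V d)} {S S' : Set (Ed d)} (h : Agree (tch (cls S X)) S S') :
    cls S' X = cls S X := by
  have h1 : ∀ x ∈ X, clu S' x = clu S x := by
    intro x hx
    apply clu_agree
    intro e he
    exact h e (tch_mono (clu_sub_cls hx) he)
  ext y
  constructor
  · rintro ⟨x, hx, hy⟩
    have hy' : y ∈ clu S' x := hy
    rw [h1 x hx] at hy'
    exact ⟨x, hx, hy'⟩
  · rintro ⟨x, hx, hy⟩
    have hy' : y ∈ clu S x := hy
    rw [← h1 x hx] at hy'
    exact ⟨x, hx, hy'⟩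

lemma stop_cls (X : Finset (V d)) : Stop (fun S : Set (Ed d) => tch (cls S X)) := by
  intro S S' h
  change tch (cls S' X) = tch (cls S X)
  rw [cls_agree h]

lemma rev_cls (X : Finset (V d)) :
    Rev (fun S : Set (Ed d) => tch (cls S X)) (fun S => cls S X) := by
  intro S S' h
  exact cls_agree h

lemma rch_clu_agree {S S' : Set (Ed d)} {x : V d} (h : Agree (tch (clu S x)) S S') {r : ℕ}
    {y : V d} (hy : Rch S x r y) : Rch S' x r y := by
  induction r generalizing y with
  | zero =>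
    rw [rch_zero] at hy ⊢
    exact hy
  | succ r ih =>
    rw [rch_succ] at hy ⊢
    rcases hy with hy | ⟨z, h1, h2, h3⟩
    · exact Or.inl hy
    · refine Or.inr ⟨z, ih h1, h2, ?_⟩
      exact (h _ (mem_tch.mpr (Or.inl h1.con))).mp h3

/-- connections between points of the explored clusters are revealed -/
lemma rev_cls_rch {X : Finset (V d)} {x y : V d} {r : ℕ} (hx : x ∈ X) :
    Rev (fun S : Set (Ed d) => tch (cls S X)) (fun S => Rch S x r y) := by
  intro S S' h
  have h1 : Agree (tch (clu S x)) S S' := fun e he => h e (tch_mono (clu_sub_cls hx) he)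
  have h2 : Agree (tch (clu S' x)) S' S := by
    rw [clu_agree h1]
    exact h1.symm
  exact propext ⟨fun h3 => rch_clu_agree h2 h3, fun h3 => rch_clu_agree h1 h3⟩

lemma rev_cls_con {X : Finset (V d)} {x y : V d} (hx : x ∈ X) :
    Rev (fun S : Set (Ed d) => tch (cls S X)) (fun S => Con S x y) := by
  intro S S' h
  have h1 : Agree (tch (clu S x)) S S' := fun e he => h e (tch_mono (clu_sub_cls hx) he)
  have h2 := clu_agree h1
  have h3 : (y ∈ clu S' x) = (y ∈ clu S x) := by rw [h2]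
  exact h3

lemma rev_ind {ι : Type*} {K : Set ι → Set ι} {P : Set ι → Prop} (h : Rev K P) :
    Rev K (fun S => ind (P S)) := fun S S' hS => by
  have := h S S' hS
  simp only [this]

lemma rev_mul {ι : Type*} {K : Set ι → Set ι} {f g : Set ι → ℝ} (hf : Rev K f) (hg : Rev K g) :
    Rev K (fun S => f S * g S) := fun S S' hS => by
  have h1 := hf S S' hS
  have h2 := hg S S' hS
  simp only [h1, h2]

/-- the path from `x` to `y` either avoids `A` or is cut at a vertex of `A` -/
lemma rch_avoid_or {S : Set (Ed d)} {A : Set (V d)} {x y : V d} {r : ℕ} (h : Rch S x r y) :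
    Rch (S \ tch A) x r y ∨
      ∃ w ∈ A, Con S x w ∧ S ∈ Box {S : Set (Ed d) | Rch S x r w} {S | Rch S w r y} := by
  classical
  obtain ⟨p, hp, hl⟩ := exists_path h
  by_cases hA : ∃ w ∈ p.support, w ∈ A
  · right
    obtain ⟨w, hw, hwA⟩ := hA
    refine ⟨w, hwA, ⟨p.takeUntil w hw⟩, ?_⟩
    have h1 := path_split_disj hp (Walk.take_spec p hw)
    have h2 : (p.takeUntil w hw).length + (p.dropUntil w hw).length = p.length := by
      rw [← Walk.length_append, Walk.take_spec]
    exact box_walks _ _ (by omega) (by omega) h1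
  · left
    push Not at hA
    refine (rch_edges p).mono ?_ hl
    intro e he
    refine ⟨edges_mem p he, ?_⟩
    intro ht
    have he' : e ∈ p.edges := he
    induction e using Sym2.ind with
    | _ a b =>
      rw [mem_tch] at ht
      rcases ht with ht | ht
      · exact hA a (p.fst_mem_support_of_mem_edges he') ht
      · exact hA b (p.snd_mem_support_of_mem_edges he') ht

lemma con_mem_W {W : Finset (V d)} {S : Set (Ed d)} (hS : S ⊆ (Ein W : Set (Ed d))) {x y : V d}
    (hx : x ∈ W) (h : Con S x y) : y ∈ W := by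
  refine con_induct h (fun b => b ∈ W) hx ?_
  intro a b _ _ hs
  exact (mem_Ein.mp (Finset.mem_coe.mp (hS hs))).2.1

open Classical in
/-- for a fixed explored set -/
lemma avoid_fixed {p : ℝ} (hp0 : 0 ≤ p) (hp1 : p ≤ 1) {W : Finset (V d)} (A : Set (V d))
    {x y : V d} (hx : x ∈ W) (r : ℕ) :
    PE p (Ein W) {S | Rch S x r y} -
        ∑ w ∈ W, ind (w ∈ A) * (ppi p r (w - x) * ppi p r (y - w)) ≤
      PE p ((Ein W).filter fun e => e ∉ tch A) {S | Rch S x r y} := by
  have h1 : PE p ((Ein W).filter fun e => e ∉ tch A) {S | Rch S x r y} =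
      PE p (Ein W) {S | Rch (S \ tch A) x r y} := by
    unfold PE
    rw [← Ex_ind, ← Ex_ind]
    rw [← Ex_sdiff]
    rfl
  rw [h1]
  have h2 : PE p (Ein W) {S | Rch S x r y} ≤ PE p (Ein W) ({S | Rch (S \ tch A) x r y} ∪
      ⋃ w ∈ W.filter (fun w => w ∈ A),
        Box {S : Set (Ed d) | Rch S x r w} {S | Rch S w r y}) := by
    apply Pr_mono' (wt_p hp0 hp1)
    intro ω hω h3
    rcases rch_avoid_or (A := A) h3 with h4 | ⟨w, hw, hc, hB⟩
    · exact Or.inl h4
    · right
      rw [Set.mem_iUnion₂]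
      refine ⟨w, ?_, hB⟩
      rw [Finset.mem_filter]
      exact ⟨con_mem_W (by exact_mod_cast hω) hx hc, hw⟩
  have h3 : PE p (Ein W) (⋃ w ∈ W.filter (fun w => w ∈ A),
      Box {S : Set (Ed d) | Rch S x r w} {S | Rch S w r y}) ≤
      ∑ w ∈ W.filter (fun w => w ∈ A), ppi p r (w - x) * ppi p r (y - w) := by
    refine (Pr_biUnion_le (wt_p hp0 hp1) _ _ _).trans ?_
    apply sum_le_sum
    intro w _
    exact PE_box_le hp0 hp1 _ x w w y r r
  have h4 : ∑ w ∈ W, ind (w ∈ A) * (ppi p r (w - x) * ppi p r (y - w)) =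
      ∑ w ∈ W.filter (fun w => w ∈ A), ppi p r (w - x) * ppi p r (y - w) := by
    rw [Finset.sum_filter]
    apply sum_congr rfl
    intro w _
    unfold ind
    split_ifs <;> simp
  have h5 := Pr_union_le (wt_p hp0 hp1) (Ein W) {S : Set (Ed d) | Rch (S \ tch A) x r y}
    (⋃ w ∈ W.filter (fun w => w ∈ A), Box {S : Set (Ed d) | Rch S x r w} {S | Rch S w r y})
  rw [h4]
  unfold PE at *
  linarith

open Classical in
theorem avoid {p : ℝ} (hp0 : 0 ≤ p) (hp1 : p ≤ 1) {W X : Finset (V d)} {g : Set (Ed d) → ℝ}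
    (hg : ∀ S, 0 ≤ g S) (hrev : Rev (fun S : Set (Ed d) => tch (cls S X)) g) {x y : V d}
    (hx : x ∈ W) (r : ℕ) :
    EE p (Ein W) g * PE p (Ein W) {S | Rch S x r y} -
        ∑ w ∈ W, EE p (Ein W) (fun S => g S * ind (w ∈ cls S X)) *
          (ppi p r (w - x) * ppi p r (y - w)) ≤
      EE p (Ein W) (fun S => g S * ind (x ∉ cls S X ∧ Rch S x r y)) := by
  have hw := wt_p (d := d) hp0 hp1
  set φ : Set (Ed d) → Set (Ed d) → ℝ := fun S T => (g S * ind (x ∉ cls S X)) * ind (Rch T x r y)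
    with hφ
  have hφr : Rev (fun S : Set (Ed d) => tch (cls S X)) φ := by
    intro S S' h
    have h1 := hrev S S' h
    have h2 := cls_agree h
    simp only [hφ, h1, h2]
  have h1 : Ex (fun _ => p) (Ein W) (fun S => φ S (S \ tch (cls S X))) ≤
      EE p (Ein W) (fun S => g S * ind (x ∉ cls S X ∧ Rch S x r y)) := by
    apply Ex_mono hw
    intro S
    simp only [hφ]
    rw [mul_assoc]
    apply mul_le_mul_of_nonneg_left _ (hg S)
    by_cases h2 : x ∉ cls S X
    · by_cases h3 : Rch (S \ tch (cls S X)) x r y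
      · have h4 : Rch S x r y := h3.mono Set.sdiff_subset le_rfl
        rw [ind_true h2, ind_true h3, ind_true ⟨h2, h4⟩, mul_one]
      · rw [ind_false h3, mul_zero]
        exact ind_nonneg _
    · rw [ind_false h2, zero_mul]
      exact ind_nonneg _
  refine le_trans ?_ h1
  rw [Ex_fresh (fun _ => p) (Ein W) (stop_cls X) hφr]
  have h2 : EE p (Ein W) g * PE p (Ein W) {S | Rch S x r y} -
        ∑ w ∈ W, EE p (Ein W) (fun S => g S * ind (w ∈ cls S X)) *
          (ppi p r (w - x) * ppi p r (y - w)) =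
      Ex (fun _ => p) (Ein W) (fun S => g S * (PE p (Ein W) {S | Rch S x r y} -
        ∑ w ∈ W, ind (w ∈ cls S X) * (ppi p r (w - x) * ppi p r (y - w)))) := by
    have e1 : (fun S => g S * (PE p (Ein W) {S | Rch S x r y} -
        ∑ w ∈ W, ind (w ∈ cls S X) * (ppi p r (w - x) * ppi p r (y - w)))) =
        (fun S => PE p (Ein W) {S | Rch S x r y} * g S +
          ∑ w ∈ W, (-(ppi p r (w - x) * ppi p r (y - w))) * (g S * ind (w ∈ cls S X))) := by
      ext S
      rw [mul_sub, mul_sum, sub_eq_add_neg, ← Finset.sum_neg_distrib, mul_comm]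
      congr 1
      apply sum_congr rfl
      intro w _
      ring
    rw [e1, Ex_add, Ex_mul, Ex_sum, mul_comm, sub_eq_add_neg, ← Finset.sum_neg_distrib]
    congr 1
    apply sum_congr rfl
    intro w _
    rw [Ex_mul]
    unfold EE
    ring
  rw [h2]
  apply Ex_mono hw
  intro S
  simp only [hφ]
  rw [Ex_mul, mul_assoc]
  apply mul_le_mul_of_nonneg_left _ (hg S)
  have h3 : Ex (fun _ => p) ((Ein W).filter fun e => e ∉ tch (cls S X))
      (fun T => ind (Rch T x r y)) =
      PE p ((Ein W).filter fun e => e ∉ tch (cls S X)) {S | Rch S x r y} := by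
    unfold PE
    rw [← Ex_ind]
    rfl
  rw [h3]
  by_cases h4 : x ∈ cls S X
  · rw [ind_false (not_not.mpr h4), zero_mul]
    have h5 : ind (x ∈ cls S X) * (ppi p r (x - x) * ppi p r (y - x)) ≤
        ∑ w ∈ W, ind (w ∈ cls S X) * (ppi p r (w - x) * ppi p r (y - w)) := by
      apply Finset.single_le_sum
        (f := fun w => ind (w ∈ cls S X) * (ppi p r (w - x) * ppi p r (y - w))) _ hx
      intro w _
      exact mul_nonneg (ind_nonneg _)
        (mul_nonneg (ppi_nonneg hp0 hp1 _ _) (ppi_nonneg hp0 hp1 _ _))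
    rw [ind_true h4, sub_self, ppi_self, one_mul, one_mul] at h5
    have h6 := PE_le_ppi hp0 hp1 (Ein W) x y r
    linarith
  · rw [ind_true h4, one_mul]
    exact avoid_fixed hp0 hp1 (cls S X) hx r

/-- the tree bound with one unrestricted arm -/
lemma tree_le {p : ℝ} (hp0 : 0 ≤ p) (hp1 : p ≤ 1) (E : Finset (Ed d)) (x a w : V d) (r : ℕ) :
    PE p E {S | Rch S x r a ∧ Con S x w} ≤
      ∑ u ∈ Lam x r, ppi p r (u - x) * ppi p r (a - u) * tau p (w - u) := by
  have h1 : PE p E {S | Rch S x r a ∧ Con S x w} ≤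
      PE p E {S | Rch S x r a ∧ Rch S x E.card w} := by
    apply Pr_mono' (wt_p hp0 hp1)
    rintro ω hω ⟨h2, h3⟩
    exact ⟨h2, (con_fin h3).mono subset_rfl (Finset.card_le_card hω)⟩
  refine h1.trans ((PE_tree_le hp0 hp1 E x a w r E.card).trans ?_)
  apply sum_le_sum
  intro u _
  exact mul_le_mul_of_nonneg_left (ppi_le_tau hp0 hp1 _ _)
    (mul_nonneg (ppi_nonneg hp0 hp1 _ _) (ppi_nonneg hp0 hp1 _ _))

lemma mem_cls_single {S : Set (Ed d)} {v w : V d} : w ∈ cls S {v} ↔ Con S v w := by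
  simp [cls]

/-- the lower bound for two disjoint arms -/
theorem lower2 {p : ℝ} (hp0 : 0 ≤ p) (hp1 : p ≤ 1) {W : Finset (V d)} {v₁ v₂ a a' : V d}
    (h2 : v₂ ∈ W) (r r' : ℕ) :
    PE p (Ein W) {S | Rch S v₁ r a} * PE p (Ein W) {S | Rch S v₂ r' a'} -
        ∑ w ∈ W, (∑ u ∈ Lam v₁ r, ppi p r (u - v₁) * ppi p r (a - u) * tau p (w - u)) *
          (ppi p r' (w - v₂) * ppi p r' (a' - w)) ≤
      PE p (Ein W) {S | Rch S v₁ r a ∧ Rch S v₂ r' a' ∧ ¬ Con S v₁ v₂} := by
  classical
  have h := avoid hp0 hp1 (W := W) (X := {v₁}) (g := fun S => ind (Rch S v₁ r a))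
    (fun S => ind_nonneg _) (rev_ind (rev_cls_rch (Finset.mem_singleton_self v₁))) (x := v₂)
    (y := a') h2 r'
  have e1 : EE p (Ein W) (fun S => ind (Rch S v₁ r a)) = PE p (Ein W) {S | Rch S v₁ r a} :=
    Ex_ind _ _ _
  have e2 : EE p (Ein W) (fun S => ind (Rch S v₁ r a) *
      ind (v₂ ∉ cls S {v₁} ∧ Rch S v₂ r' a')) =
      PE p (Ein W) {S | Rch S v₁ r a ∧ Rch S v₂ r' a' ∧ ¬ Con S v₁ v₂} := by
    unfold PE EE
    rw [← Ex_ind]
    congr 1
    ext S
    by_cases a1 : Rch S v₁ r a <;> by_cases a2 : Rch S v₂ r' a' <;> by_cases a3 : Con S v₁ v₂ <;>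
      simp [ind, a1, a2, a3, mem_cls_single]
  have e3 : ∀ w, EE p (Ein W) (fun S => ind (Rch S v₁ r a) * ind (w ∈ cls S {v₁})) ≤
      ∑ u ∈ Lam v₁ r, ppi p r (u - v₁) * ppi p r (a - u) * tau p (w - u) := by
    intro w
    refine le_trans (le_of_eq ?_) (tree_le hp0 hp1 (Ein W) v₁ a w r)
    unfold PE EE
    rw [← Ex_ind]
    congr 1
    ext S
    by_cases a1 : Rch S v₁ r a <;> by_cases a3 : Con S v₁ w <;>
      simp [ind, a1, a3, mem_cls_single]
  rw [e1, e2] at h
  refine le_trans ?_ h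
  apply sub_le_sub_left
  apply sum_le_sum
  intro w _
  exact mul_le_mul_of_nonneg_right (e3 w)
    (mul_nonneg (ppi_nonneg hp0 hp1 _ _) (ppi_nonneg hp0 hp1 _ _))

end Pool.Agent.Lib.MP_06caae_pr
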