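import Pool.Agent.Lib.MP_06caae_pr.Path

/-!
# Geodesics

`IsGeo S x y l g`: `g 0 = x, g 1, ..., g l = y` is a shortest open path.
-/

open Finset SimpleGraph
open Pool.Agent.Lib.MP_566bac_pr.Zd

namespace Pool.Agent.Lib.MP_06caae_pr

variable {d : ℕ}

/-- `g 0, ..., g l` is a shortest open path from `x` to `y` -/
def IsGeo (S : Set (Ed d)) (x y : V d) (l : ℕ) (g : ℕ → V d) : Prop :=
  g 0 = x ∧ g l = y ∧ (∀ i < l, (openGraph S).Adj (g i) (g (i + 1))) ∧ ∀ k, Rch S x k y → l ≤ k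

lemma geo_exists {S : Set (Ed d)} {x y : V d} {r : ℕ} (h : Rch S x r y) :
    ∃ l ≤ r, ∃ g, IsGeo S x y l g := by
  classical
  have hex : ∃ k, Rch S x k y := ⟨r, h⟩
  obtain ⟨w, hw⟩ := Nat.find_spec hex
  have hl : w.length = Nat.find hex := le_antisymm hw (Nat.find_min' hex ⟨w, le_rfl⟩)
  refine ⟨w.length, ?_, fun i => w.getVert i, ?_, ?_, ?_, ?_⟩
  · rw [hl]
    exact Nat.find_min' hex h
  · exact w.getVert_zero
  · exact w.getVert_length
  · intro i hi
    exact w.adj_getVert_succ hi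
  · intro k hk
    rw [hl]
    exact Nat.find_min' hex hk

lemma IsGeo.walk {S : Set (Ed d)} {x y : V d} {l : ℕ} {g : ℕ → V d} (h : IsGeo S x y l g)
    (i n : ℕ) (hn : i + n ≤ l) : ∃ w : (openGraph S).Walk (g i) (g (i + n)), w.length = n ∧
      ∀ z ∈ w.support, ∃ k, i ≤ k ∧ k ≤ i + n ∧ z = g k := by
  induction n with
  | zero =>
    refine ⟨Walk.nil, rfl, ?_⟩
    intro z hz
    rw [Walk.support_nil, List.mem_singleton] at hz
    exact ⟨i, le_rfl, by omega, hz⟩
  | succ n ih =>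
    obtain ⟨w, hw, hw2⟩ := ih (by omega)
    have hadj := h.2.2.1 (i + n) (by omega)
    refine ⟨w.append (Walk.cons hadj Walk.nil), ?_, ?_⟩
    · rw [Walk.length_append, hw]
      rfl
    · intro z hz
      rw [Walk.mem_support_append_iff] at hz
      rcases hz with hz | hz
      · obtain ⟨k, h1, h2, h3⟩ := hw2 z hz
        exact ⟨k, h1, by omega, h3⟩
      · rw [Walk.support_cons, Walk.support_nil, List.mem_cons, List.mem_singleton] at hz
        rcases hz with hz | hz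
        · exact ⟨i + n, by omega, by omega, hz⟩
        · exact ⟨i + n + 1, by omega, by omega, hz⟩

lemma IsGeo.rch {S : Set (Ed d)} {x y : V d} {l : ℕ} {g : ℕ → V d} (h : IsGeo S x y l g)
    {i j : ℕ} (hij : i ≤ j) (hj : j ≤ l) : Rch S (g i) (j - i) (g j) := by
  obtain ⟨w, hw, _⟩ := h.walk i (j - i) (by omega)
  have e : i + (j - i) = j := by omega
  have h1 : Rch S (g i) (j - i) (g (i + (j - i))) := ⟨w, le_of_eq hw⟩
  rwa [e] at h1

/-- the pieces of a geodesic are geodesics -/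
lemma IsGeo.le {S : Set (Ed d)} {x y : V d} {l : ℕ} {g : ℕ → V d} (h : IsGeo S x y l g)
    {i j k : ℕ} (hij : i ≤ j) (hj : j ≤ l) (hk : Rch S (g i) k (g j)) : j - i ≤ k := by
  have h1 := h.rch (Nat.zero_le i) (hij.trans hj)
  have h2 := h.rch hj le_rfl
  rw [h.1] at h1
  rw [h.2.1] at h2
  have h3 := h.2.2.2 _ ((h1.trans hk).trans h2)
  omega

lemma IsGeo.mem_sph {S : Set (Ed d)} {x y : V d} {l : ℕ} {g : ℕ → V d} (h : IsGeo S x y l g)
    {i : ℕ} (hi : i ≤ l) : g i ∈ sph S x i := by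
  rw [Pool.Agent.Lib.MP_06caae_pr.mem_sph]
  have h1 := h.rch (Nat.zero_le i) hi
  rw [h.1, Nat.sub_zero] at h1
  refine ⟨h1, fun k hk => ?_⟩
  have := h.le (Nat.zero_le i) hi (k := k) (by rw [h.1]; exact hk)
  omega

/-- a geodesic visits every set which all open paths visit -/
lemma IsGeo.meets {S : Set (Ed d)} {x y : V d} {l : ℕ} {g : ℕ → V d} (h : IsGeo S x y l g)
    {P : Set (V d)} (hP : ∀ w : (openGraph S).Walk x y, ∃ z ∈ w.support, z ∈ P) :
    ∃ i ≤ l, g i ∈ P := by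
  obtain ⟨w, hw, hw2⟩ := h.walk 0 l (by omega)
  have e0 : g 0 = x := h.1
  have el : g (0 + l) = y := by rw [zero_add]; exact h.2.1
  obtain ⟨z, hz, hzP⟩ := hP (w.copy e0 el)
  rw [Walk.support_copy] at hz
  obtain ⟨k, _, h2, h3⟩ := hw2 z hz
  exact ⟨k, by omega, by rw [← h3]; exact hzP⟩

end Pool.Agent.Lib.MP_06caae_pr
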