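import Pool.Agent.Lib.MP_06caae_pr.OpenTri
import Pool.Agent.Lib.MP_06caae_pr.Lev1

/-!
# The masses `MM p r A`, `GG`, `TT`: elementary facts
-/

open Finset SimpleGraph
open Pool.Agent.Lib.MP_566bac_pr.Zd

namespace Pool.Agent.Lib.MP_06caae_pr

variable {d : ℕ}

open Classical in
/-- the mass of a set of vertices under `ppi` -/
noncomputable def MM (p : ℝ) (r : ℕ) (A : Set (V d)) : ℝ :=
  ∑ y ∈ (Lam 0 r : Finset (V d)).filter (fun y => y ∈ A), ppi p r y

lemma MM_nonneg {p : ℝ} (hp0 : 0 ≤ p) (hp1 : p ≤ 1) (r : ℕ) (A : Set (V d)) :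
    0 ≤ MM p r A := sum_nonneg fun y _ => ppi_nonneg hp0 hp1 r y

open Classical in
/-- the mass can be computed in every finite set which contains the box -/
lemma MM_eq {p : ℝ} (r : ℕ) (A : Set (V d)) {W : Finset (V d)} (hW : Lam 0 r ⊆ W) :
    MM p r A = ∑ y ∈ W.filter (fun y => y ∈ A), ppi p r y := by
  unfold MM
  apply sum_subset (filter_subset_filter _ hW)
  intro y hy hy2
  rw [mem_filter] at hy hy2
  exact ppi_supp r fun h => hy2 ⟨h, hy.2⟩

/-- every finite sum of `ppi` over points of `A` is at most the mass of `A` -/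
lemma sum_le_MM {p : ℝ} (hp0 : 0 ≤ p) (hp1 : p ≤ 1) (r : ℕ) {A : Set (V d)} (W : Finset (V d))
    (hW : ∀ y ∈ W, y ∈ A) : ∑ y ∈ W, ppi p r y ≤ MM p r A := by
  classical
  rw [MM_eq r A (W := W ∪ Lam 0 r) subset_union_right]
  apply sum_le_sum_of_subset_of_nonneg
  · intro y hy
    exact mem_filter.2 ⟨mem_union_left _ hy, hW y hy⟩
  · intro y _ _
    exact ppi_nonneg hp0 hp1 r y

lemma MM_mono {p : ℝ} (hp0 : 0 ≤ p) (hp1 : p ≤ 1) {r r' : ℕ} (h : r ≤ r') {A A' : Set (V d)}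
    (hA : A ⊆ A') : MM p r A ≤ MM p r' A' := by
  classical
  have h1 : MM p r A ≤ ∑ y ∈ (Lam 0 r : Finset (V d)).filter (fun y => y ∈ A), ppi p r' y :=
    sum_le_sum fun y _ => ppi_mono hp0 hp1 h y
  refine h1.trans (sum_le_MM hp0 hp1 r' _ fun y hy => ?_)
  exact hA (mem_filter.1 hy).2

private lemma MM_all (p : ℝ) (r : ℕ) {A : Set (V d)} (hA : ∀ y, y ∈ A) : MM p r A = GG d p r := by
  classical
  rw [MM_eq r A subset_rfl, filter_true_of_mem fun y _ => hA y]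
  rfl

lemma MM_univ (p : ℝ) (r : ℕ) : MM p r (Set.univ : Set (V d)) = GG d p r := MM_all p r Set.mem_univ

lemma MM_far (p : ℝ) (r : ℕ) (s : ℝ) : MM p r {y : V d | s ≤ (dst 0 y : ℝ)} = TT d p r s := by
  unfold MM TT
  rfl

lemma MM_union_le {p : ℝ} (hp0 : 0 ≤ p) (hp1 : p ≤ 1) (r : ℕ) (A B : Set (V d)) :
    MM p r (A ∪ B) ≤ MM p r A + MM p r B := by
  classical
  rw [MM_eq r (A ∪ B) subset_rfl, MM_eq r A subset_rfl, MM_eq r B subset_rfl]
  simp only [Set.mem_union, filter_or]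
  have h2 := sum_union_inter (s₁ := (Lam 0 r : Finset (V d)).filter (fun y => y ∈ A))
    (s₂ := (Lam 0 r : Finset (V d)).filter (fun y => y ∈ B)) (f := ppi p r)
  have h3 : 0 ≤ ∑ y ∈ (Lam 0 r : Finset (V d)).filter (fun y => y ∈ A) ∩
      (Lam 0 r : Finset (V d)).filter (fun y => y ∈ B), ppi p r y :=
    sum_nonneg fun _ _ => ppi_nonneg hp0 hp1 _ _
  linarith

/-- the mass of a finite union -/
lemma MM_iUnion_le {p : ℝ} (hp0 : 0 ≤ p) (hp1 : p ≤ 1) (r : ℕ) {ι : Type*} (J : Finset ι) (A : ι → Set (V d)) :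
    MM p r (⋃ i ∈ J, A i) ≤ ∑ i ∈ J, MM p r (A i) := by
  classical
  induction J using Finset.induction_on with
  | empty =>
    rw [sum_empty]
    unfold MM
    apply le_of_eq
    apply sum_eq_zero
    intro y hy
    have := (mem_filter.1 hy).2
    simp at this
  | insert i J hi ih =>
    rw [Finset.set_biUnion_insert, sum_insert hi]
    exact (MM_union_le hp0 hp1 r _ _).trans (by linarith)

lemma TT_mono {p : ℝ} (hp0 : 0 ≤ p) (hp1 : p ≤ 1) {r r' : ℕ} {s s' : ℝ} (h : r ≤ r')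
    (hs : s' ≤ s) : TT d p r s ≤ TT d p r' s' := by
  rw [← MM_far, ← MM_far]
  exact MM_mono hp0 hp1 h fun y (hy : s ≤ (dst 0 y : ℝ)) => hs.trans hy

lemma TT_nonneg {p : ℝ} (hp0 : 0 ≤ p) (hp1 : p ≤ 1) (r : ℕ) (s : ℝ) : 0 ≤ TT d p r s := by
  rw [← MM_far]
  exact MM_nonneg hp0 hp1 _ _

lemma TT_le_GG {p : ℝ} (hp0 : 0 ≤ p) (hp1 : p ≤ 1) (r : ℕ) (s : ℝ) :
    TT d p r s ≤ GG d p r := by
  rw [← MM_far, ← MM_univ]
  exact MM_mono hp0 hp1 le_rfl (Set.subset_univ _)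

lemma MM_le_GG {p : ℝ} (hp0 : 0 ≤ p) (hp1 : p ≤ 1) (r : ℕ) (A : Set (V d)) :
    MM p r A ≤ GG d p r := by
  rw [← MM_univ]
  exact MM_mono hp0 hp1 le_rfl (Set.subset_univ _)

lemma Lam_card_zero (x : V d) (r : ℕ) : ((Lam x r).card : ℝ) ≤ ((2 * r + 1 : ℕ) : ℝ) ^ d := by
  rw [card_Lam]
  push_cast
  exact le_rfl

/-- `E |B(r)| <= |box|` -/
lemma GG_le {p : ℝ} (hp0 : 0 ≤ p) (hp1 : p ≤ 1) (r : ℕ) :
    GG d p r ≤ ((2 * r + 1 : ℕ) : ℝ) ^ d := by
  unfold GG
  refine (sum_le_sum (g := fun _ => (1 : ℝ)) fun y _ => PE_le_one hp0 hp1 _ _).trans ?_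
  rw [sum_const, nsmul_eq_mul, mul_one]
  exact Lam_card_zero 0 r

/-- the expected volume of the ball is `GG`, at most `GG` for every finite set of edges -/
lemma EE_vol_le {p : ℝ} (hp0 : 0 ≤ p) (hp1 : p ≤ 1) (E : Finset (Ed d)) (x : V d) (r : ℕ) :
    EE p E (fun S => (vol S x r : ℝ)) ≤ GG d p r := EE_ball_le hp0 hp1 E x r

/-- the balls are disjoint unions of spheres, and the expected size of every sphere is at least 1 -/
theorem G_low {p : ℝ} (hS : Std d p) (r : ℕ) : (r : ℝ) + 1 ≤ GG d p r := by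
  classical
  have hp0 := hS.hp0.le
  have hp1 := hS.hp1.le
  rw [← EE_ball_eq]
  have h1 : ∀ S : Set (Ed d), ((ball S (0 : V d) r).card : ℝ) = ∑ j ∈ range (r + 1), ((sph S (0 : V d) j).card : ℝ) := by
    intro S
    rw [← Nat.cast_sum]
    congr 1
    have h2 : ball S (0 : V d) r = (range (r + 1)).biUnion fun j => sph S (0 : V d) j := by
      ext y
      rw [mem_ball, ball_eq_sph, mem_biUnion]
      constructor
      · rintro ⟨k, hk, h⟩
        exact ⟨k, mem_range.2 (by omega), h⟩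
      · rintro ⟨k, hk, h⟩
        exact ⟨k, Nat.le_of_lt_succ (mem_range.1 hk), h⟩
    rw [h2, card_biUnion]
    intro i _ j _ hij
    show Disjoint (sph S 0 i) (sph S 0 j)
    rw [Finset.disjoint_left]
    intro y hyi hyj
    exact hij (sph_unique hyi hyj)
  unfold EE
  simp only [h1]
  rw [Ex_sum]
  have h2 : ∑ _j ∈ range (r + 1), (1 : ℝ) = (r : ℝ) + 1 := by
    rw [sum_const, card_range, nsmul_eq_mul, mul_one]
    push_cast
    ring
  rw [← h2]
  refine sum_le_sum fun j hj => ?_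
  have h3 := hS.lev j
  have h4 := EE_sph_box (d := d) (p := p) (Nat.le_of_lt_succ (mem_range.1 hj))
  unfold EE at h3 h4
  rw [h4]
  exact h3

/-- the number of points in the box of radius `s` is at most `(2s+1)^d` -/
lemma TT_low {p : ℝ} (hS : Std d p) (r s : ℕ) :
    (r : ℝ) + 1 - ((2 * s + 1 : ℕ) : ℝ) ^ d ≤ TT d p r s := by
  classical
  have hp0 := hS.hp0.le
  have hp1 := hS.hp1.le
  have h1 := G_low hS r
  have h2 : GG d p r ≤ TT d p r s + ((2 * s + 1 : ℕ) : ℝ) ^ d := by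
    unfold GG TT
    rw [← sum_filter_add_sum_filter_not (Lam (0 : V d) r) (fun y => (s : ℝ) ≤ (dst 0 y : ℝ))]
    refine add_le_add le_rfl ?_
    refine (sum_le_sum (g := fun _ => (1 : ℝ)) fun y _ => PE_le_one hp0 hp1 _ _).trans ?_
    rw [sum_const, nsmul_eq_mul, mul_one]
    refine le_trans ?_ (Lam_card_zero (0 : V d) s)
    refine Nat.cast_le.2 (card_le_card ?_)
    intro y hy
    rw [mem_filter] at hy
    rw [mem_Lam, dst_comm]
    have h3 := not_le.1 hy.2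
    exact_mod_cast h3.le
  linarith

end Pool.Agent.Lib.MP_06caae_pr
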