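import Pool.Agent.Lib.MP_06caae_pr.Inv

/-!
# Opening the edges of a box costs a constant factor
-/

open Finset SimpleGraph
open Pool.Agent.Lib.MP_566bac_pr.Zd

namespace Pool.Agent.Lib.MP_06caae_pr

variable {d : ℕ}

lemma dp_sub (J : Finset (Ed d)) :
    Dp (J : Set (Ed d)) {S : Set (Ed d) | (J : Set (Ed d)) ⊆ S} := by
  intro S S' h
  constructor
  · intro h1 e he
    exact (h e he).mp (h1 he)
  · intro h1 e he
    exact (h e he).mpr (h1 he)

lemma PE_sub {p : ℝ} {J E : Finset (Ed d)} (hJ : J ⊆ E) :
    PE p E {S : Set (Ed d) | (J : Set (Ed d)) ⊆ S} = p ^ J.card := by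
  have h := Pr_all (fun _ : Ed d => p) hJ
  rw [prod_const] at h
  rw [← h]
  rfl

/-- opening a finite set of edges -/
theorem open_set {p : ℝ} {E J : Finset (Ed d)} (hJ : J ⊆ E) {K : Set (Set (Ed d))}
    (hK : Dp ((J : Set (Ed d))ᶜ) K) :
    PE p E (K ∩ {S | (J : Set (Ed d)) ⊆ S}) = p ^ J.card * PE p E K := by
  have h := Pr_indepS (fun _ : Ed d => p) E (disjoint_compl_left (a := (J : Set (Ed d)))) hK
    (dp_sub J)
  have h2 := PE_sub (p := p) hJ
  unfold PE at h2 ⊢
  rw [h, h2, mul_comm]

theorem open_box {p : ℝ} {W Q : Finset (V d)} (hQ : Q ⊆ W)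
    {K : Set (Set (Ed d))} (hK : Dp ((Ein Q : Set (Ed d))ᶜ) K) :
    PE p (Ein W) (K ∩ {S | (Ein Q : Set (Ed d)) ⊆ S}) = p ^ (Ein Q).card * PE p (Ein W) K :=
  open_set (Ein_mono hQ) hK

open Classical in
/-- two boxes at once -/
theorem open_box2 {p : ℝ} (hp0 : 0 ≤ p) (hp1 : p ≤ 1) {W Q Q' : Finset (V d)} (hQ : Q ⊆ W)
    (hQ' : Q' ⊆ W) {K : Set (Set (Ed d))}
    (hK : Dp ((Ein Q ∪ Ein Q' : Set (Ed d))ᶜ) K) :
    p ^ ((Ein Q).card + (Ein Q').card) * PE p (Ein W) K ≤
      PE p (Ein W) (K ∩ {S | (Ein Q : Set (Ed d)) ⊆ S ∧ (Ein Q' : Set (Ed d)) ⊆ S}) := by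
  have h1 : (Ein Q ∪ Ein Q' : Finset (Ed d)) ⊆ Ein W :=
    Finset.union_subset (Ein_mono hQ) (Ein_mono hQ')
  have h2 := open_set (p := p) h1 (K := K) (by rw [Finset.coe_union]; exact hK)
  have h3 : {S : Set (Ed d) | ((Ein Q ∪ Ein Q' : Finset (Ed d)) : Set (Ed d)) ⊆ S} =
      {S | (Ein Q : Set (Ed d)) ⊆ S ∧ (Ein Q' : Set (Ed d)) ⊆ S} := by
    ext S
    simp only [Finset.coe_union, Set.union_subset_iff, Set.mem_ofPred_eq]
  rw [h3] at h2
  rw [h2]
  apply mul_le_mul_of_nonneg_right _ (PE_nonneg hp0 hp1 _ _)
  exact pow_le_pow_of_le_one hp0 hp1 (Finset.card_union_le _ _)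

/-- boxes of the same size have the same number of edges -/
lemma card_Ein_trans (v : V d) (k : ℕ) :
    (Ein (Lam v k)).card = (Ein (Lam (0 : V d) k)).card := by
  have h1 : Ein (Lam v k) = (Ein (Lam (0 : V d) k)).map (edgeEquiv (transE v)).toEmbedding := by
    ext e
    rw [Finset.mem_map]
    constructor
    · intro he
      refine ⟨(edgeEquiv (transE v)).symm e, ?_, by simp⟩
      induction e using Sym2.ind with
      | _ x y =>
        rw [mem_Ein] at he
        have e1 : (edgeEquiv (transE v)).symm s(x, y) = s(x - v, y - v) := rfl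
        rw [e1, mem_Ein]
        refine ⟨?_, ?_, ?_⟩
        · have := he.1
          rw [mem_Lam'] at this ⊢
          intro i
          have := this i
          simp only [Pi.sub_apply, Pi.zero_apply]
          omega
        · have := he.2.1
          rw [mem_Lam'] at this ⊢
          intro i
          have := this i
          simp only [Pi.sub_apply, Pi.zero_apply]
          omega
        · have := he.2.2
          rw [lattice_adj] at this ⊢
          rw [← this]
          apply sum_congr rfl
          intro i _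
          simp only [Pi.sub_apply]
          congr 1
          ring
    · rintro ⟨e', he', rfl⟩
      induction e' using Sym2.ind with
      | _ x y =>
        rw [mem_Ein] at he'
        have e1 : (edgeEquiv (transE v)).toEmbedding s(x, y) = s(x + v, y + v) := rfl
        rw [e1, mem_Ein]
        refine ⟨?_, ?_, ?_⟩
        · have := he'.1
          rw [mem_Lam'] at this ⊢
          intro i
          have := this i
          simp only [Pi.add_apply, Pi.zero_apply] at *
          omega
        · have := he'.2.1
          rw [mem_Lam'] at this ⊢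
          intro i
          have := this i
          simp only [Pi.add_apply, Pi.zero_apply] at *
          omega
        · have := he'.2.2
          rw [lattice_adj] at this ⊢
          rw [← this]
          apply sum_congr rfl
          intro i _
          simp only [Pi.add_apply]
          congr 1
          ring
  rw [h1, Finset.card_map]

end Pool.Agent.Lib.MP_06caae_pr
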