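import Pool.Agent.Lib.MP_06caae_pr.OpenTri
import Pool.Agent.Lib.MP_06caae_pr.A.Geo
import Pool.Agent.Lib.MP_06caae_pr.A.Av
import Pool.Agent.Lib.MP_06caae_pr.A.OpenQ
import Pool.Agent.Lib.MP_06caae_pr.A.Avoid
import Pool.Agent.Lib.MP_06caae_pr.A.Mass

/-!
# The two-piece lemma
-/

open Finset SimpleGraph
open Pool.Agent.Lib.MP_566bac_pr.Zd

namespace Pool.Agent.Lib.MP_06caae_pr

variable {d : ℕ}

lemma PE_eq_ppi {p : ℝ} (hp0 : 0 ≤ p) (hp1 : p ≤ 1) {W : Finset (V d)} {x y : V d} {r : ℕ}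
    (hW : Lam x r ⊆ W) : PE p (Ein W) {S | Rch S x r y} = ppi p r (y - x) := by
  apply le_antisymm (PE_le_ppi hp0 hp1 _ x y r)
  rw [← qpi_eq hp0 hp1 r x y]
  exact Pr_mono_E (wt_p hp0 hp1) (Ein_mono hW) (inc_Rch x r y)

/-- the loop `x, u, w, x + e` -/
lemma sum_loop {p : ℝ} (hp0 : 0 ≤ p) (hp1 : p ≤ 1) (hT : Tri d p) (e u : V d)
    (X W : Finset (V d)) :
    ∑ x ∈ X, ∑ w ∈ W, tau p (u - x) * tau p (w - u) * tau p (w - x - e) ≤ nab p e := by
  classical
  rw [← Finset.sum_product']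
  have hinj : Set.InjOn (fun q : V d × V d => (u - q.1, q.2 - q.1)) ↑(X ×ˢ W) := by
    rintro ⟨a, b⟩ _ ⟨a', b'⟩ _ h
    simp only [Prod.mk.injEq] at h
    have h1 : a = a' := sub_right_injective h.1
    subst h1
    have h2 : b = b' := sub_left_injective h.2
    rw [h2]
  have h1 : ∑ q ∈ X ×ˢ W, tau p (u - q.1) * tau p (q.2 - u) * tau p (q.2 - q.1 - e) =
      ∑ q ∈ (X ×ˢ W).image (fun q : V d × V d => (u - q.1, q.2 - q.1)),
        tau p q.1 * tau p (q.2 - q.1) * tau p (e - q.2) := by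
    rw [Finset.sum_image hinj]
    apply sum_congr rfl
    rintro ⟨a, b⟩ _
    have e1 : b - a - (u - a) = b - u := by abel
    have e2 : tau p (b - a - e) = tau p (e - (b - a)) := tau_sub_comm hp0 hp1 _ _
    simp only [e1, e2]
  rw [h1]
  exact (nab_summable hp0 hp1 hT e).sum_le_tsum _ (fun q _ => mul_nonneg (mul_nonneg
    (tau_nonneg hp0 hp1 _) (tau_nonneg hp0 hp1 _)) (tau_nonneg hp0 hp1 _))

/-- boxes which meet a geodesic -/
lemma card_boxes {g : ℕ → V d} {l k : ℕ} {c : V d} {X : Finset (V d)}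
    (h : ∀ x ∈ X, ∃ i ≤ l, g i ∈ Lam (x - c) k) : X.card ≤ (l + 1) * (2 * k + 1) ^ d := by
  classical
  have h1 : X ⊆ (Finset.range (l + 1)).biUnion (fun i => Lam (g i + c) k) := by
    intro x hx
    obtain ⟨i, hi, hg⟩ := h x hx
    rw [Finset.mem_biUnion]
    refine ⟨i, Finset.mem_range.mpr (by omega), ?_⟩
    rw [mem_Lam'] at hg ⊢
    intro j
    have := hg j
    simp only [Pi.sub_apply, Pi.add_apply] at this ⊢
    omega
  refine (Finset.card_le_card h1).trans ((Finset.card_biUnion_le).trans ?_)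
  rw [Finset.sum_congr rfl (fun i _ => card_Lam (g i + c) k), sum_const, card_range,
    smul_eq_mul]

/-- what the open box gives -/
def Post (v a a' : V d) (k r r' : ℕ) : Set (Set (Ed d)) :=
  {S | (∀ z ∈ Lam v k, Rch S z (r + 2 * k * d) a) ∧ Rch S a (r + r' + 2 * k * d) a' ∧
      ∀ w : (openGraph S).Walk a a', ∃ z ∈ w.support, z ∈ (Lam v k : Set (V d))}

lemma pre_post {p : ℝ} (hp0 : 0 ≤ p) (hp1 : p ≤ 1) {W : Finset (V d)} {v v₁ v₂ a a' : V d}
    {k r r' : ℕ} (hW : Lam v k ⊆ W) (h1 : v₁ ∈ Lam v k) (h2 : v₂ ∈ Lam v k) :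
    p ^ (Ein (Lam (0 : V d) k)).card *
      PE p (Ein W) {S | Rch S v₁ r a ∧ Rch S v₂ r' a' ∧ ¬ Con S v₁ v₂} ≤
      PE p (Ein W) (Post v a a' k r r') := by
  have h3 : PE p (Ein W) {S | Rch S v₁ r a ∧ Rch S v₂ r' a' ∧ ¬ Con S v₁ v₂} ≤
      PE p (Ein W) (Av (Lam v k) a a' r r') :=
    PE_mono hp0 hp1 _ (fun S hS => av_of_pre h1 h2 hS.1 hS.2.1 hS.2.2)
  have h4 := open_box (p := p) hW (av_dp (Lam v k) a a' r r')
  rw [card_Ein_trans] at h4
  calc p ^ (Ein (Lam (0 : V d) k)).card *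
      PE p (Ein W) {S | Rch S v₁ r a ∧ Rch S v₂ r' a' ∧ ¬ Con S v₁ v₂}
      ≤ p ^ (Ein (Lam (0 : V d) k)).card * PE p (Ein W) (Av (Lam v k) a a' r r') :=
        mul_le_mul_of_nonneg_left h3 (pow_nonneg hp0 _)
    _ = PE p (Ein W) (Av (Lam v k) a a' r r' ∩ {S | (Ein (Lam v k) : Set (Ed d)) ⊆ S}) := h4.symm
    _ ≤ PE p (Ein W) (Post v a a' k r r') :=
        PE_mono hp0 hp1 _ (fun S hS => av_post hS.1 hS.2)

lemma two_upper {p : ℝ} (hp0 : 0 ≤ p) (hp1 : p ≤ 1) {k : ℕ} {e : V d}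
    (he : e ∈ Lam (0 : V d) k) {r N : ℕ} (hN : 2 * r + 2 * k ≤ N)
    (X : Finset (V d)) (hX : X ⊆ Lam 0 r) (a' : V d) :
    p ^ (Ein (Lam (0 : V d) k)).card *
      ∑ x ∈ X, PE p (Ein (Lam 0 N))
        {S | Rch S x r 0 ∧ Rch S (x + e) r a' ∧ ¬ Con S x (x + e)} ≤
      (((2 * r + 2 * k * d + 1) * (2 * k + 1) ^ d : ℕ) : ℝ) * ppi p (2 * r + 2 * k * d) a' := by
  classical
  have hw := wt_p (d := d) hp0 hp1
  have h1 : ∀ x ∈ X, p ^ (Ein (Lam (0 : V d) k)).card * PE p (Ein (Lam 0 N))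
        {S | Rch S x r 0 ∧ Rch S (x + e) r a' ∧ ¬ Con S x (x + e)} ≤
      PE p (Ein (Lam 0 N)) (Post x 0 a' k r r) := by
    intro x hx
    apply pre_post hp0 hp1
    · intro z hz
      have h2 := mem_Lam.mp (hX hx)
      have h3 := mem_Lam.mp hz
      rw [mem_Lam]
      have := dst_tri z x 0
      omega
    · exact self_mem_Lam x k
    · rw [mem_Lam'] at he ⊢
      intro i
      have := he i
      simp only [Pi.add_apply, Pi.zero_apply] at this ⊢
      omega
  rw [mul_sum]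
  refine (sum_le_sum h1).trans ?_
  have h2 : ∑ x ∈ X, PE p (Ein (Lam 0 N)) (Post x 0 a' k r r) =
      Ex (fun _ => p) (Ein (Lam 0 N)) (fun S => ∑ x ∈ X, ind (S ∈ Post x 0 a' k r r)) := by
    rw [Ex_sum]
    apply sum_congr rfl
    intro x _
    rw [Ex_ind]
    rfl
  rw [h2]
  have h3 : Ex (fun _ => p) (Ein (Lam (0 : V d) N))
      (fun S => ∑ x ∈ X, ind (S ∈ Post x 0 a' k r r)) ≤
      Ex (fun _ => p) (Ein (Lam (0 : V d) N)) (fun S =>
        (((2 * r + 2 * k * d + 1) * (2 * k + 1) ^ d : ℕ) : ℝ) *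
          ind (S ∈ {S : Set (Ed d) | Rch S 0 (2 * r + 2 * k * d) a'})) := by
    apply Ex_mono hw
    intro S
    have h4 : ∑ x ∈ X, ind (S ∈ Post x 0 a' k r r) =
        ((X.filter (fun x => S ∈ Post x 0 a' k r r)).card : ℝ) := by
      unfold ind
      rw [Finset.card_filter]
      push_cast
      rfl
    rw [h4]
    by_cases h5 : Rch S 0 (2 * r + 2 * k * d) a'
    · have h5' : S ∈ {S : Set (Ed d) | Rch S 0 (2 * r + 2 * k * d) a'} := h5
      rw [ind_true h5', mul_one]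
      obtain ⟨l, hl, g, hg⟩ := geo_exists h5
      have h6 : (X.filter (fun x => S ∈ Post x 0 a' k r r)).card ≤
          (l + 1) * (2 * k + 1) ^ d := by
        apply card_boxes (g := g) (c := 0)
        intro x hx
        rw [Finset.mem_filter] at hx
        obtain ⟨i, hi, hgi⟩ := hg.meets hx.2.2.2
        refine ⟨i, hi, ?_⟩
        rw [sub_zero]
        exact Finset.mem_coe.mp hgi
      have h7 : (l + 1) * (2 * k + 1) ^ d ≤ (2 * r + 2 * k * d + 1) * (2 * k + 1) ^ d :=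
        Nat.mul_le_mul_right _ (by omega)
      exact_mod_cast h6.trans h7
    · have h6 : X.filter (fun x => S ∈ Post x 0 a' k r r) = ∅ := by
        rw [Finset.filter_eq_empty_iff]
        intro x _ hS
        apply h5
        have := hS.2.1
        exact this.mono subset_rfl (by omega)
      rw [h6, Finset.card_empty, Nat.cast_zero]
      exact mul_nonneg (Nat.cast_nonneg _) (ind_nonneg _)
  refine h3.trans ?_
  rw [Ex_mul, Ex_ind]
  apply mul_le_mul_of_nonneg_left _ (Nat.cast_nonneg _)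
  have h8 := PE_le_ppi hp0 hp1 (Ein (Lam (0 : V d) N)) 0 a' (2 * r + 2 * k * d)
  rw [sub_zero] at h8
  exact h8

open Classical in
lemma two_lower {p : ℝ} (hp0 : 0 ≤ p) (hp1 : p ≤ 1) (hT : Tri d p) {e : V d} {r N : ℕ}
    (hN : 2 * r + dst 0 e ≤ N) (A A' : Set (V d)) :
    MM p r A * MM p r A' - nab p e * GG d p r ^ 2 ≤
      ∑ x ∈ (Lam 0 r : Finset (V d)).filter (fun y => y ∈ A),
        ∑ z ∈ (Lam 0 r : Finset (V d)).filter (fun y => y ∈ A'), PE p (Ein (Lam 0 N))
          {S | Rch S x r 0 ∧ Rch S (x + e) r (x + e + z) ∧ ¬ Con S x (x + e)} := by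
  set XA := (Lam 0 r : Finset (V d)).filter (fun y => y ∈ A) with hXA
  set XB := (Lam 0 r : Finset (V d)).filter (fun y => y ∈ A') with hXB
  set W := (Lam 0 N : Finset (V d)) with hW
  have hxr : ∀ x ∈ XA, dst x 0 ≤ r := fun x hx => mem_Lam.mp (Finset.mem_filter.mp hx).1
  have hxe : ∀ x ∈ XA, dst (x + e) 0 ≤ r + dst 0 e := by
    intro x hx
    have h1 := dst_tri (x + e) x 0
    have h2 : dst (x + e) x = dst 0 e := by
      rw [dst_comm 0 e]
      unfold dst
      congr 1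
      ext i
      simp
    have := hxr x hx
    omega
  have h1 : ∀ x ∈ XA, ∀ z ∈ XB, ppi p r x * ppi p r z -
      ∑ w ∈ W, (∑ u ∈ Lam x r, ppi p r (u - x) * ppi p r (0 - u) * tau p (w - u)) *
          (ppi p r (w - (x + e)) * ppi p r (x + e + z - w)) ≤
      PE p (Ein W) {S | Rch S x r 0 ∧ Rch S (x + e) r (x + e + z) ∧ ¬ Con S x (x + e)} := by
    intro x hx z hz
    have hv : x + e ∈ W := by
      rw [hW, mem_Lam]
      have := hxe x hx
      omega
    have h2 := lower2 hp0 hp1 (W := W) (v₁ := x) (v₂ := x + e) (a := 0) (a' := x + e + z) hv r r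
    have h3 : PE p (Ein W) {S | Rch S x r 0} = ppi p r x := by
      rw [PE_eq_ppi hp0 hp1, zero_sub, ppi_neg hp0 hp1]
      intro y hy
      rw [hW, mem_Lam]
      have a1 := mem_Lam.mp hy
      have a2 := dst_tri y x 0
      have a3 := hxr x hx
      omega
    have h4 : PE p (Ein W) {S | Rch S (x + e) r (x + e + z)} = ppi p r z := by
      rw [PE_eq_ppi hp0 hp1, add_sub_cancel_left]
      intro y hy
      rw [hW, mem_Lam]
      have a1 := mem_Lam.mp hy
      have a2 := dst_tri y (x + e) 0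
      have a3 := hxe x hx
      omega
    rw [h3, h4] at h2
    exact h2
  refine le_trans ?_ (sum_le_sum fun x hx => sum_le_sum fun z hz => h1 x hx z hz)
  simp only [Finset.sum_sub_distrib]
  have h5 : ∑ x ∈ XA, ∑ z ∈ XB, ppi p r x * ppi p r z = MM p r A * MM p r A' := by
    unfold MM
    rw [Finset.sum_mul_sum]
  rw [h5]
  apply sub_le_sub_left
  -- the error term
  have h6 : ∀ x ∈ XA, ∑ z ∈ XB, ∑ w ∈ W,
      (∑ u ∈ Lam x r, ppi p r (u - x) * ppi p r (0 - u) * tau p (w - u)) *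
          (ppi p r (w - (x + e)) * ppi p r (x + e + z - w)) ≤
      GG d p r * ∑ u ∈ Lam 0 (2 * r), ppi p r u *
        ∑ w ∈ W, tau p (u - x) * tau p (w - u) * tau p (w - x - e) := by
    intro x hx
    rw [sum_comm]
    have h7 : ∀ w ∈ W, ∑ z ∈ XB,
        (∑ u ∈ Lam x r, ppi p r (u - x) * ppi p r (0 - u) * tau p (w - u)) *
          (ppi p r (w - (x + e)) * ppi p r (x + e + z - w)) ≤
        GG d p r * ∑ u ∈ Lam 0 (2 * r), ppi p r u *
          (tau p (u - x) * tau p (w - u) * tau p (w - x - e)) := by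
      intro w _
      have h8 : ∑ z ∈ XB,
          (∑ u ∈ Lam x r, ppi p r (u - x) * ppi p r (0 - u) * tau p (w - u)) *
            (ppi p r (w - (x + e)) * ppi p r (x + e + z - w)) =
          ((∑ u ∈ Lam x r, ppi p r (u - x) * ppi p r (0 - u) * tau p (w - u)) *
            ppi p r (w - (x + e))) * ∑ z ∈ XB, ppi p r (z - (w - x - e)) := by
        rw [mul_sum]
        apply sum_congr rfl
        intro z _
        have : x + e + z - w = z - (w - x - e) := by abel
        rw [this]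
        ring
      rw [h8, mul_comm (GG d p r)]
      have h9 := sum_ppi_sub_le hp0 hp1 r XB (w - x - e)
      have h10 : (∑ u ∈ Lam x r, ppi p r (u - x) * ppi p r (0 - u) * tau p (w - u)) *
            ppi p r (w - (x + e)) ≤ ∑ u ∈ Lam 0 (2 * r), ppi p r u *
          (tau p (u - x) * tau p (w - u) * tau p (w - x - e)) := by
        rw [sum_mul]
        have h11 : Lam x r ⊆ (Lam 0 (2 * r) : Finset (V d)) := by
          intro y hy
          rw [mem_Lam] at hy ⊢
          have a2 := dst_tri y x 0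
          have a3 := hxr x hx
          omega
        refine le_trans ?_ (Finset.sum_le_sum_of_subset_of_nonneg h11 ?_)
        · apply sum_le_sum
          intro u _
          rw [zero_sub, ppi_neg hp0 hp1]
          have a1 := ppi_le_tau hp0 hp1 r (u - x)
          have a2 : ppi p r (w - (x + e)) ≤ tau p (w - x - e) := by
            rw [sub_sub]
            exact ppi_le_tau hp0 hp1 r _
          have b1 := ppi_nonneg hp0 hp1 r (u - x)
          have b2 := ppi_nonneg hp0 hp1 r (w - (x + e))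
          have b3 := ppi_nonneg hp0 hp1 r u
          have b4 := tau_nonneg hp0 hp1 (w - u)
          have b5 := tau_nonneg hp0 hp1 (u - x)
          calc ppi p r (u - x) * ppi p r u * tau p (w - u) * ppi p r (w - (x + e))
              = ppi p r u * (ppi p r (u - x) * tau p (w - u) * ppi p r (w - (x + e))) := by ring
            _ ≤ ppi p r u * (tau p (u - x) * tau p (w - u) * tau p (w - x - e)) := by
                apply mul_le_mul_of_nonneg_left _ b3
                exact mul_le_mul (mul_le_mul_of_nonneg_right a1 b4) a2 b2 (mul_nonneg b5 b4)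
        · intro u _ _
          exact mul_nonneg (ppi_nonneg hp0 hp1 _ _) (mul_nonneg (mul_nonneg
            (tau_nonneg hp0 hp1 _) (tau_nonneg hp0 hp1 _)) (tau_nonneg hp0 hp1 _))
      exact mul_le_mul h10 h9 (sum_nonneg fun z _ => ppi_nonneg hp0 hp1 _ _)
        (sum_nonneg fun u _ => mul_nonneg (ppi_nonneg hp0 hp1 _ _) (mul_nonneg (mul_nonneg
            (tau_nonneg hp0 hp1 _) (tau_nonneg hp0 hp1 _)) (tau_nonneg hp0 hp1 _)))
    refine (sum_le_sum h7).trans (le_of_eq ?_)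
    rw [← mul_sum, sum_comm]
    congr 1
    apply sum_congr rfl
    intro u _
    rw [mul_sum]
  refine (sum_le_sum h6).trans ?_
  rw [← mul_sum, sum_comm]
  have h12 : ∀ u ∈ (Lam 0 (2 * r) : Finset (V d)), ∑ x ∈ XA, ppi p r u *
      ∑ w ∈ W, tau p (u - x) * tau p (w - u) * tau p (w - x - e) ≤ ppi p r u * nab p e := by
    intro u _
    rw [← mul_sum]
    exact mul_le_mul_of_nonneg_left (sum_loop hp0 hp1 hT e u XA W) (ppi_nonneg hp0 hp1 _ _)
  have h13 : ∑ u ∈ (Lam 0 (2 * r) : Finset (V d)), ∑ x ∈ XA, ppi p r u *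
      ∑ w ∈ W, tau p (u - x) * tau p (w - u) * tau p (w - x - e) ≤ GG d p r * nab p e := by
    refine (sum_le_sum h12).trans ?_
    rw [← sum_mul]
    exact mul_le_mul_of_nonneg_right (sum_ppi_le hp0 hp1 r _) (nab_nonneg hp0 hp1 e)
  calc GG d p r * ∑ u ∈ (Lam 0 (2 * r) : Finset (V d)), ∑ x ∈ XA, ppi p r u *
      ∑ w ∈ W, tau p (u - x) * tau p (w - u) * tau p (w - x - e)
      ≤ GG d p r * (GG d p r * nab p e) :=
        mul_le_mul_of_nonneg_left h13 (GG_nonneg hp0 hp1 r)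
    _ = nab p e * GG d p r ^ 2 := by ring

/-- **The two-piece lemma.** -/
theorem two_piece {p : ℝ} (hp0 : 0 < p) (hp1 : p ≤ 1) (hT : Tri d p) (e : V d) :
    ∃ C : ℝ, 0 < C ∧ ∃ m : ℕ, ∀ r : ℕ, 1 ≤ r → ∀ A A' A'' : Set (V d),
      (∀ a ∈ A, ∀ a' ∈ A', a + e + a' ∈ A'') →
      MM p r A * MM p r A' - nab p e * GG d p r ^ 2 ≤ C * r * MM p (2 * r + m) A'' := by
  classical
  set k := dst 0 e with hk
  have he : e ∈ Lam (0 : V d) k := by
    rw [mem_Lam, dst_comm]
  set c0 : ℝ := p ^ (Ein (Lam (0 : V d) k)).card with hc0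
  have hc0pos : 0 < c0 := pow_pos hp0 _
  refine ⟨c0⁻¹ * ((2 * k * d + 3) * (2 * k + 1) ^ d : ℕ), by positivity,
    2 * k * d + k, ?_⟩
  intro r hr A A' A'' hA
  set N := 2 * r + 2 * k with hN
  have h1 := two_lower hp0.le hp1 hT (e := e) (r := r) (N := N) (by omega) A A'
  refine h1.trans ?_
  set XA := (Lam 0 r : Finset (V d)).filter (fun y => y ∈ A) with hXA
  set XB := (Lam 0 r : Finset (V d)).filter (fun y => y ∈ A') with hXB
  set Y := (Lam 0 (2 * r + (2 * k * d + k)) : Finset (V d)).filter (fun y => y ∈ A'') with hY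
  set F : V d → V d → ℝ := fun x a' => PE p (Ein (Lam 0 N))
    {S | Rch S x r 0 ∧ Rch S (x + e) r a' ∧ ¬ Con S x (x + e)} with hF
  have hFn : ∀ x a', 0 ≤ F x a' := fun x a' => PE_nonneg hp0.le hp1 _ _
  have h2 : ∑ x ∈ XA, ∑ z ∈ XB, F x (x + e + z) ≤ ∑ x ∈ XA, ∑ a' ∈ Y, F x a' := by
    apply sum_le_sum
    intro x hx
    have h3 : ∑ z ∈ XB, F x (x + e + z) = ∑ a' ∈ XB.image (fun z => x + e + z), F x a' := by
      rw [Finset.sum_image]
      intro z _ z' _ h
      exact add_left_cancel h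
    rw [h3]
    apply Finset.sum_le_sum_of_subset_of_nonneg
    · intro a' ha'
      rw [Finset.mem_image] at ha'
      obtain ⟨z, hz, rfl⟩ := ha'
      rw [hXA, Finset.mem_filter] at hx
      rw [hXB, Finset.mem_filter] at hz
      rw [hY, Finset.mem_filter]
      refine ⟨?_, hA x hx.2 z hz.2⟩
      have a1 := hx.1
      have a2 := hz.1
      rw [mem_Lam'] at a1 a2 he ⊢
      intro i
      have b1 := a1 i
      have b2 := a2 i
      have b3 := he i
      simp only [Pi.add_apply, Pi.zero_apply] at b1 b2 b3 ⊢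
      push_cast
      constructor <;> nlinarith [Nat.cast_nonneg (α := ℤ) k, Nat.cast_nonneg (α := ℤ) d,
        mul_nonneg (Nat.cast_nonneg (α := ℤ) k) (Nat.cast_nonneg (α := ℤ) d)]
    · intro a' _ _
      exact hFn x a'
  refine h2.trans ?_
  rw [sum_comm]
  have h4 : ∀ a' ∈ Y, ∑ x ∈ XA, F x a' ≤
      c0⁻¹ * (((2 * r + 2 * k * d + 1) * (2 * k + 1) ^ d : ℕ) : ℝ) *
        ppi p (2 * r + (2 * k * d + k)) a' := by
    intro a' _
    have h5 := two_upper hp0.le hp1 he (r := r) (N := N) (by omega) XA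
      (Finset.filter_subset _ _) a'
    have h6 : ppi p (2 * r + 2 * k * d) a' ≤ ppi p (2 * r + (2 * k * d + k)) a' :=
      ppi_mono hp0.le hp1 (by omega) a'
    have h7 : c0 * ∑ x ∈ XA, F x a' ≤
        (((2 * r + 2 * k * d + 1) * (2 * k + 1) ^ d : ℕ) : ℝ) *
          ppi p (2 * r + (2 * k * d + k)) a' :=
      h5.trans (mul_le_mul_of_nonneg_left h6 (Nat.cast_nonneg _))
    rw [mul_assoc, ← mul_le_mul_iff_of_pos_left hc0pos, ← mul_assoc, mul_inv_cancel₀ hc0pos.ne',
      one_mul]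
    exact h7
  refine (sum_le_sum h4).trans ?_
  rw [← mul_sum]
  have h8 : ∑ a' ∈ Y, ppi p (2 * r + (2 * k * d + k)) a' = MM p (2 * r + (2 * k * d + k)) A'' := rfl
  rw [h8]
  apply mul_le_mul_of_nonneg_right _ (MM_nonneg hp0.le hp1 _ _)
  rw [mul_assoc c0⁻¹]
  apply mul_le_mul_of_nonneg_left _ (inv_nonneg.mpr hc0pos.le)
  have h9 : (2 * r + 2 * k * d + 1) * (2 * k + 1) ^ d ≤
      ((2 * k * d + 3) * (2 * k + 1) ^ d) * r := by
    calc (2 * r + 2 * k * d + 1) * (2 * k + 1) ^ d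
        ≤ ((2 * k * d + 3) * r) * (2 * k + 1) ^ d := by
          apply Nat.mul_le_mul_right
          have h10 : 2 * k * d ≤ 2 * k * d * r := Nat.le_mul_of_pos_right _ hr
          rw [add_mul]
          omega
      _ = ((2 * k * d + 3) * (2 * k + 1) ^ d) * r := by ring
  exact_mod_cast h9

end Pool.Agent.Lib.MP_06caae_pr
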