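import Pool.Agent.Lib.MP_06caae_pr.A.Mass
import Pool.Agent.Lib.MP_06caae_pr.A.Two
import Pool.Agent.Lib.MP_06caae_pr.B.Split
import Pool.Agent.Lib.MP_06caae_pr.OpenTri

/-!
# Doubling the displacement: four directional two-piece steps

`ppi` is invariant under permutations and reflections of the coordinates, so
`TT r s <= 2 d * MM r {y | s <= y i}` for every coordinate `i` (`dir_of_TT`).
-/

open Finset SimpleGraph
open Pool.Agent.Lib.MP_566bac_pr.Zd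

namespace Pool.Agent.Lib.MP_06caae_pr

variable {d : ℕ} {p : ℝ}

lemma ppi_flip (hp0 : 0 ≤ p) (hp1 : p ≤ 1) (r : ℕ) (i : Fin d) (y : V d) :
    ppi p r (Function.update y i (-(y i))) = ppi p r y := by
  classical
  have h := ppi_symE (p := p) hp0 hp1 (Equiv.refl _) (fun j => if j = i then -1 else 1) r y
  rw [← h]
  congr 1
  funext j
  rw [symE_apply]
  by_cases hj : j = i
  · subst hj
    simp
  · simp [Function.update_of_ne hj, hj]

lemma ppi_perm (hp0 : 0 ≤ p) (hp1 : p ≤ 1) (r : ℕ) (σ : Equiv.Perm (Fin d)) (y : V d) :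
    ppi p r (fun i => y (σ i)) = ppi p r y := by
  have h := ppi_symE (p := p) hp0 hp1 σ (fun _ => 1) r y
  rw [← h]
  congr 1
  funext j
  rw [symE_apply]
  simp

open Classical in
lemma MM_ite (r : ℕ) (A : Set (V d)) : MM p r A = ∑ y ∈ Lam 0 r, if y ∈ A then ppi p r y else 0 := by
  unfold MM
  rw [sum_filter]

lemma MM_flip (hp0 : 0 ≤ p) (hp1 : p ≤ 1) (r : ℕ) (i : Fin d) (s : ℝ) :
    MM p r {y : V d | s ≤ -(y i : ℝ)} = MM p r {y : V d | s ≤ (y i : ℝ)} := by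
  classical
  rw [MM_ite, MM_ite, ← sum_flip i r fun y => if y ∈ {y : V d | s ≤ (y i : ℝ)} then ppi p r y else 0]
  refine sum_congr rfl fun y _ => ?_
  rw [ppi_flip hp0 hp1]
  by_cases h : s ≤ -(y i : ℝ)
  · rw [if_pos (show y ∈ {y : V d | s ≤ -(y i : ℝ)} from h), if_pos]
    show s ≤ ((Function.update y i (-(y i)) i : ℤ) : ℝ)
    rw [Function.update_self]
    push_cast
    exact h
  · rw [if_neg (show y ∉ {y : V d | s ≤ -(y i : ℝ)} from h), if_neg]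
    intro h2
    apply h
    have h3 : s ≤ ((Function.update y i (-(y i)) i : ℤ) : ℝ) := h2
    rw [Function.update_self] at h3
    push_cast at h3
    exact h3

lemma MM_perm (hp0 : 0 ≤ p) (hp1 : p ≤ 1) (r : ℕ) (i j : Fin d) (s : ℝ) :
    MM p r {y : V d | s ≤ (y j : ℝ)} = MM p r {y : V d | s ≤ (y i : ℝ)} := by
  classical
  rw [MM_ite, MM_ite, ← sum_perm (Equiv.swap i j) r fun y => if y ∈ {y : V d | s ≤ (y i : ℝ)} then ppi p r y else 0]
  refine sum_congr rfl fun y _ => ?_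
  rw [ppi_perm hp0 hp1]
  have h1 : (fun k => y (Equiv.swap i j k)) i = y j := by
    show y (Equiv.swap i j i) = y j
    rw [Equiv.swap_apply_left]
  by_cases h : s ≤ (y j : ℝ)
  · rw [if_pos (show y ∈ {y : V d | s ≤ (y j : ℝ)} from h), if_pos]
    show s ≤ (((fun k => y (Equiv.swap i j k)) i : ℤ) : ℝ)
    rw [h1]
    exact h
  · rw [if_neg (show y ∉ {y : V d | s ≤ (y j : ℝ)} from h), if_neg]
    intro h2
    apply h
    have h3 : s ≤ (((fun k => y (Equiv.swap i j k)) i : ℤ) : ℝ) := h2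
    rw [h1] at h3
    exact h3

lemma dir_of_TT (hd : 0 < d) (hp0 : 0 ≤ p) (hp1 : p ≤ 1) (i : Fin d) (r : ℕ) (s : ℝ) :
    TT d p r s ≤ 2 * d * MM p r {y : V d | s ≤ (y i : ℝ)} := by
  classical
  have h1 : {y : V d | s ≤ (dst 0 y : ℝ)} ⊆
      ⋃ j ∈ (univ : Finset (Fin d)), ({y : V d | s ≤ (y j : ℝ)} ∪ {y : V d | s ≤ -(y j : ℝ)}) := by
    intro y hy
    rw [Set.mem_iUnion₂]
    obtain ⟨j, hj⟩ := exists_dst hd 0 y
    refine ⟨j, mem_univ _, ?_⟩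
    have h4 : s ≤ |(y j : ℝ)| := by
      refine (show s ≤ (dst 0 y : ℝ) from hy).trans ?_
      rw [Pi.zero_apply, zero_sub, abs_neg] at hj
      have h5 : ((dst 0 y : ℤ) : ℝ) = ((|y j| : ℤ) : ℝ) := by rw [hj]
      push_cast at h5
      exact le_of_eq h5
    rcases abs_cases (y j : ℝ) with ⟨h8, _⟩ | ⟨h8, _⟩
    · left
      rw [h8] at h4
      exact h4
    · right
      rw [h8] at h4
      exact h4
  rw [← MM_far]
  refine (MM_mono hp0 hp1 le_rfl h1).trans ((MM_iUnion_le hp0 hp1 r _ _).trans ?_)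
  have h2 : ∀ j ∈ (univ : Finset (Fin d)), MM p r ({y : V d | s ≤ (y j : ℝ)} ∪ {y : V d | s ≤ -(y j : ℝ)}) ≤
      2 * MM p r {y : V d | s ≤ (y i : ℝ)} := by
    intro j _
    refine (MM_union_le hp0 hp1 r _ _).trans ?_
    rw [MM_flip hp0 hp1, MM_perm hp0 hp1 r i j]
    linarith
  refine (sum_le_sum h2).trans (le_of_eq ?_)
  rw [sum_const, card_univ, Fintype.card_fin, nsmul_eq_mul]
  ring

lemma TT_ge_dir (hp0 : 0 ≤ p) (hp1 : p ≤ 1) (i : Fin d) (r : ℕ) (s : ℝ) :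
    MM p r {y : V d | s ≤ (y i : ℝ)} ≤ TT d p r s := by
  rw [← MM_far]
  refine MM_mono hp0 hp1 le_rfl fun y hy => ?_
  have hy' : s ≤ (y i : ℝ) := hy
  refine hy'.trans ?_
  have h1 := le_dst 0 y i
  rw [Pi.zero_apply, zero_sub, abs_neg] at h1
  have h2 : y i ≤ (dst 0 y : ℤ) := (le_abs_self _).trans h1
  exact_mod_cast h2

lemma dir_step (hp : 0 < p) (hp1 : p ≤ 1) (hT : Tri d p)
    {C₁ : ℝ} (hC : 1 ≤ C₁) (hC₁ : ∀ r : ℕ, 1 ≤ r → GG d p r ≤ C₁ * r) (i : Fin d) {c : ℝ} (hc : 0 < c) :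
    ∃ c' : ℝ, 0 < c' ∧ ∃ m : ℕ, ∀ r : ℕ, 1 ≤ r → ∀ s : ℝ,
      c * r ≤ MM p r {y : V d | s ≤ (y i : ℝ)} →
      c' * (2 * r + m : ℕ) ≤ MM p (2 * r + m) {y : V d | 2 * s - m ≤ (y i : ℝ)} := by
  have hp0 : 0 ≤ p := hp.le
  obtain ⟨R, hR⟩ := nab_small (d := d) hp0 hp1 hT (ε := c ^ 2 / (2 * C₁ ^ 2)) (by positivity)
  set e : V d := fun _ => (R : ℤ) with he
  have hdst : R ≤ dst 0 e := by
    have h1 := le_dst 0 e i
    rw [Pi.zero_apply, zero_sub, abs_neg] at h1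
    have h2 : (e i : ℤ) ≤ (dst 0 e : ℤ) := (le_abs_self _).trans h1
    have h3 : e i = R := rfl
    rw [h3] at h2
    exact_mod_cast h2
  have hnab := hR e hdst
  obtain ⟨C, hC0, m, hm⟩ := two_piece hp hp1 hT e
  have hC10 : (0 : ℝ) < C₁ := by linarith
  refine ⟨c ^ 2 / (2 * C * (2 + m)), by positivity, m, fun r hr s hs => ?_⟩
  have hr0 : (0 : ℝ) < r := by exact_mod_cast hr
  have hr1 : (1 : ℝ) ≤ r := by exact_mod_cast hr
  have h1 := hm r hr {y : V d | s ≤ (y i : ℝ)} {y : V d | s ≤ (y i : ℝ)} {y : V d | 2 * s - m ≤ (y i : ℝ)} (by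
    intro a ha a' ha'
    have h2 : s ≤ (a i : ℝ) := ha
    have h3 : s ≤ (a' i : ℝ) := ha'
    show 2 * s - m ≤ (((a + e + a') i : ℤ) : ℝ)
    have h4 : (a + e + a') i = a i + R + a' i := rfl
    rw [h4]
    push_cast
    have h5 : (0 : ℝ) ≤ m := Nat.cast_nonneg m
    have h6 : (0 : ℝ) ≤ R := Nat.cast_nonneg R
    linarith)
  have hG := hC₁ r hr
  have hG0 := GG_nonneg (d := d) hp0 hp1 r
  have hnn : 0 ≤ nab p e := by
    unfold nab
    exact tsum_nonneg fun q => mul_nonneg (mul_nonneg (tau_nonneg hp0 hp1 _) (tau_nonneg hp0 hp1 _)) (tau_nonneg hp0 hp1 _)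
  have h2 : nab p e * GG d p r ^ 2 ≤ c ^ 2 * r ^ 2 / 2 := by
    calc nab p e * GG d p r ^ 2 ≤ c ^ 2 / (2 * C₁ ^ 2) * (C₁ * r) ^ 2 :=
          mul_le_mul hnab (pow_le_pow_left₀ hG0 hG 2) (by positivity) (by positivity)
      _ = _ := by
        field_simp
  have h3 : c ^ 2 * (r : ℝ) ^ 2 ≤ MM p r {y : V d | s ≤ (y i : ℝ)} * MM p r {y : V d | s ≤ (y i : ℝ)} := by
    calc c ^ 2 * (r : ℝ) ^ 2 = (c * r) * (c * r) := by ring
      _ ≤ _ := mul_le_mul hs hs (by positivity) (MM_nonneg hp0 hp1 _ _)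
  have h4 : c ^ 2 * (r : ℝ) ^ 2 / 2 ≤ C * r * MM p (2 * r + m) {y : V d | 2 * s - m ≤ (y i : ℝ)} := by linarith
  have h5 : c ^ 2 * r / (2 * C) ≤ MM p (2 * r + m) {y : V d | 2 * s - m ≤ (y i : ℝ)} := by
    rw [div_le_iff₀ (by positivity)]
    have h6 : (c ^ 2 * r) * r ≤ (MM p (2 * r + m) {y : V d | 2 * s - m ≤ (y i : ℝ)} * (2 * C)) * r := by nlinarith
    exact le_of_mul_le_mul_right h6 hr0
  refine le_trans ?_ h5
  push_cast
  rw [div_mul_eq_mul_div, div_le_div_iff₀ (by positivity) (by positivity)]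
  have h6 : (2 * (r : ℝ) + m) ≤ (2 + m) * r := by
    have h7 : (0 : ℝ) ≤ m := Nat.cast_nonneg m
    nlinarith
  have h8 : c ^ 2 * (2 * (r : ℝ) + m) * (2 * C) ≤ c ^ 2 * ((2 + m) * r) * (2 * C) := by
    apply mul_le_mul_of_nonneg_right _ (by positivity)
    exact mul_le_mul_of_nonneg_left h6 (by positivity)
  calc c ^ 2 * (2 * (r : ℝ) + m) * (2 * C) ≤ c ^ 2 * ((2 + m) * r) * (2 * C) := h8
    _ = c ^ 2 * r * (2 * C * (2 + m)) := by ring

/-- four steps: at radius at most `32 r` the displacement is at least `15 s` -/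
theorem dir4 (hd : 0 < d) (hp : 0 < p) (hp1 : p ≤ 1) (hT : Tri d p)
    {C₁ : ℝ} (hC : 1 ≤ C₁) (hC₁ : ∀ r : ℕ, 1 ≤ r → GG d p r ≤ C₁ * r) {c : ℝ} (hc : 0 < c) :
    ∃ c' : ℝ, 0 < c' ∧ ∃ s₀ : ℝ, ∀ (r : ℕ) (s : ℝ), s₀ ≤ r → s₀ ≤ s →
      c * r ≤ TT d p r s → c' * (32 * r : ℕ) ≤ TT d p (32 * r) (15 * s) := by
  have hp0 : 0 ≤ p := hp.le
  set i : Fin d := ⟨0, hd⟩ with hi
  have hd0 : (0 : ℝ) < d := by exact_mod_cast hd
  obtain ⟨c1, hc1, m1, h1⟩ := dir_step hp hp1 hT hC hC₁ i (c := c / (2 * d)) (by positivity)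
  obtain ⟨c2, hc2, m2, h2⟩ := dir_step hp hp1 hT hC hC₁ i hc1
  obtain ⟨c3, hc3, m3, h3⟩ := dir_step hp hp1 hT hC hC₁ i hc2
  obtain ⟨c4, hc4, m4, h4⟩ := dir_step hp hp1 hT hC hC₁ i hc3
  refine ⟨c4 / 2, by positivity, ((8 * m1 + 4 * m2 + 2 * m3 + m4 + 1 : ℕ) : ℝ), fun r s hr hs h => ?_⟩
  have hr' : 8 * m1 + 4 * m2 + 2 * m3 + m4 + 1 ≤ r := by exact_mod_cast hr
  have hr1 : 1 ≤ r := by omega
  have k0 : c / (2 * d) * r ≤ MM p r {y : V d | s ≤ (y i : ℝ)} := by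
    have h5 := h.trans (dir_of_TT hd hp0 hp1 i r s)
    rw [div_mul_eq_mul_div, div_le_iff₀ (by positivity)]
    linarith
  have k1 := h1 r hr1 s k0
  have k2 := h2 _ (by omega) _ k1
  have k3 := h3 _ (by omega) _ k2
  have k4 := h4 _ (by omega) _ k3
  set N := 2 * (2 * (2 * (2 * r + m1) + m2) + m3) + m4 with hN
  have hN1 : N = 16 * r + (8 * m1 + 4 * m2 + 2 * m3 + m4) := by rw [hN]; ring
  have hN2 : N ≤ 32 * r := by omega
  have hN3 : 16 * r ≤ N := by omega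
  have hs' : (8 * m1 + 4 * m2 + 2 * m3 + m4 + 1 : ℝ) ≤ s := by
    push_cast at hs
    exact hs
  have k5 : MM p N {y : V d | 2 * (2 * (2 * (2 * s - m1) - m2) - m3) - m4 ≤ (y i : ℝ)} ≤
      MM p (32 * r) {y : V d | 15 * s ≤ (y i : ℝ)} := by
    refine MM_mono hp0 hp1 hN2 fun y hy => ?_
    have hy' : 2 * (2 * (2 * (2 * s - m1) - m2) - m3) - m4 ≤ (y i : ℝ) := hy
    show 15 * s ≤ (y i : ℝ)
    linarith
  have k6 : c4 / 2 * ((32 * r : ℕ) : ℝ) ≤ c4 * (N : ℝ) := by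
    have h5 : ((16 * r : ℕ) : ℝ) ≤ (N : ℝ) := by exact_mod_cast hN3
    push_cast at h5 ⊢
    nlinarith
  exact (k6.trans k4).trans (k5.trans (TT_ge_dir hp0 hp1 i _ _))

end Pool.Agent.Lib.MP_06caae_pr
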