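import Pool.Agent.Lib.MP_06caae_pr.A.Pairs
import Pool.Agent.Lib.MP_06caae_pr.A.Mass

/-!
# First and second moment of the number of pairs
-/

open Finset SimpleGraph
open Pool.Agent.Lib.MP_566bac_pr.Zd

namespace Pool.Agent.Lib.MP_06caae_pr

variable {d : ℕ}

lemma sum_W2 (R : ℕ) (s : ℝ) (f : V d → V d → ℝ) :
    ∑ u ∈ W2 R s, f u.1 u.2 =
      ∑ a ∈ (Lam 0 R : Finset (V d)), ∑ b ∈ (Lam 0 R : Finset (V d)),
        (if s ≤ (dst a b : ℝ) then f a b else 0) := by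
  classical
  unfold W2
  rw [Finset.sum_filter, Finset.sum_product]

open Classical in
/-- the mass of the far points, seen from `a` -/
lemma sum_far_le {p : ℝ} (hp0 : 0 ≤ p) (hp1 : p ≤ 1) (r : ℕ) (s : ℝ) (A : Finset (V d)) (a : V d) :
    ∑ b ∈ A, (if s ≤ (dst a b : ℝ) then ppi p r (b - a) else 0) ≤ TT d p r s := by
  rw [← MM_far, ← Finset.sum_filter]
  have h1 : ∑ b ∈ A.filter (fun b => s ≤ (dst a b : ℝ)), ppi p r (b - a) =
      ∑ z ∈ (A.filter (fun b => s ≤ (dst a b : ℝ))).image (fun b => b - a), ppi p r z := by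
    rw [Finset.sum_image]
    intro b _ b' _ h
    exact sub_left_injective h
  rw [h1]
  apply sum_le_MM hp0 hp1
  intro z hz
  rw [Finset.mem_image] at hz
  obtain ⟨b, hb, rfl⟩ := hz
  have h2 := (Finset.mem_filter.mp hb).2
  have h3 : dst a b = dst (0 : V d) (b - a) := by
    unfold dst
    congr 1
    ext i
    simp only [Pi.zero_apply, Pi.sub_apply]
    congr 1
    ring
  rw [h3] at h2
  exact h2

lemma W2_le {p : ℝ} (hp0 : 0 ≤ p) (hp1 : p ≤ 1) (R r : ℕ) (s : ℝ) (c : V d) :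
    ∑ u ∈ W2 R s, ppi p R (u.1 - c) * ppi p r (u.2 - u.1) ≤ GG d p R * TT d p r s := by
  classical
  rw [sum_W2 R s (fun a b => ppi p R (a - c) * ppi p r (b - a))]
  have h1 : ∀ a ∈ (Lam 0 R : Finset (V d)), ∑ b ∈ (Lam 0 R : Finset (V d)),
      (if s ≤ (dst a b : ℝ) then ppi p R (a - c) * ppi p r (b - a) else 0) ≤
      ppi p R (a - c) * TT d p r s := by
    intro a _
    have h2 : ∑ b ∈ (Lam 0 R : Finset (V d)),
        (if s ≤ (dst a b : ℝ) then ppi p R (a - c) * ppi p r (b - a) else 0) =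
        ppi p R (a - c) * ∑ b ∈ (Lam 0 R : Finset (V d)),
          (if s ≤ (dst a b : ℝ) then ppi p r (b - a) else 0) := by
      rw [mul_sum]
      apply sum_congr rfl
      intro b _
      split_ifs <;> simp
    rw [h2]
    exact mul_le_mul_of_nonneg_left (sum_far_le hp0 hp1 r s _ a) (ppi_nonneg hp0 hp1 _ _)
  refine (sum_le_sum h1).trans ?_
  rw [← sum_mul]
  exact mul_le_mul_of_nonneg_right (sum_ppi_sub_le hp0 hp1 R _ c) (TT_nonneg hp0 hp1 r s)

lemma mom_first {p : ℝ} (hp0 : 0 ≤ p) (hp1 : p ≤ 1) (E : Finset (Ed d)) (R r : ℕ) (s : ℝ)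
    (Y : Finset (V d)) :
    ∑ y ∈ Y, EE p E (fun S => ((prs S y R r s).card : ℝ)) ≤ GG d p R ^ 2 * TT d p r s := by
  classical
  have hw := wt_p (d := d) hp0 hp1
  have h1 : ∀ y ∈ Y, EE p E (fun S => ((prs S y R r s).card : ℝ)) ≤
      ∑ u ∈ W2 R s, ppi p R (u.1 - 0) * ppi p r (u.2 - u.1) * ppi p R (y - u.2) := by
    intro y _
    refine (Ex_mono hw (fun S => card_prs_le S y R r s)).trans ?_
    rw [Ex_sum]
    apply sum_le_sum
    intro u _
    rw [Ex_ind, sub_zero]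
    exact PE_ch3 hp0 hp1 E R r u.1 u.2 y
  refine (sum_le_sum h1).trans ?_
  rw [sum_comm]
  have h2 : ∀ u ∈ (W2 R s : Finset (V d × V d)),
      ∑ y ∈ Y, ppi p R (u.1 - 0) * ppi p r (u.2 - u.1) * ppi p R (y - u.2) ≤
      ppi p R (u.1 - 0) * ppi p r (u.2 - u.1) * GG d p R := by
    intro u _
    rw [← mul_sum]
    exact mul_le_mul_of_nonneg_left (sum_ppi_sub_le hp0 hp1 R _ _)
      (mul_nonneg (ppi_nonneg hp0 hp1 _ _) (ppi_nonneg hp0 hp1 _ _))
  refine (sum_le_sum h2).trans ?_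
  rw [← sum_mul]
  calc (∑ u ∈ (W2 R s : Finset (V d × V d)), ppi p R (u.1 - 0) * ppi p r (u.2 - u.1)) * GG d p R
      ≤ (GG d p R * TT d p r s) * GG d p R :=
        mul_le_mul_of_nonneg_right (W2_le hp0 hp1 R r s 0) (GG_nonneg hp0 hp1 R)
    _ = GG d p R ^ 2 * TT d p r s := by ring

lemma mom_pairs {p : ℝ} (hp0 : 0 ≤ p) (hp1 : p ≤ 1) (E : Finset (Ed d)) (R r : ℕ) (s : ℝ)
    (Y : Finset (V d)) :
    ∑ y ∈ Y, EE p E (fun S => ((((prs S y R r s) ×ˢ (prs S y R r s)).filter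
      (fun q => q.1.2 ≤ q.2.1)).card : ℝ)) ≤ GG d p R ^ 3 * TT d p r s ^ 2 := by
  classical
  have hw := wt_p (d := d) hp0 hp1
  have hn := fun r y => ppi_nonneg (d := d) hp0 hp1 r y
  have h1 : ∀ y ∈ Y, EE p E (fun S => ((((prs S y R r s) ×ˢ (prs S y R r s)).filter
      (fun q => q.1.2 ≤ q.2.1)).card : ℝ)) ≤
      ∑ u ∈ (W2 R s : Finset (V d × V d)) ×ˢ W2 R s,
        (ppi p R (u.1.1 - 0) * ppi p r (u.1.2 - u.1.1)) *
          (ppi p R (u.2.1 - u.1.2) * ppi p r (u.2.2 - u.2.1)) * ppi p R (y - u.2.2) := by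
    intro y _
    refine (Ex_mono hw (fun S => card_prs2_le S y R r s)).trans ?_
    rw [Ex_sum]
    apply sum_le_sum
    intro u _
    rw [Ex_ind, sub_zero]
    refine (PE_ch5 hp0 hp1 E R r u.1.1 u.1.2 u.2.1 u.2.2 y).trans (le_of_eq ?_)
    ring
  refine (sum_le_sum h1).trans ?_
  rw [sum_comm]
  have h2 : ∀ u ∈ (W2 R s : Finset (V d × V d)) ×ˢ (W2 R s : Finset (V d × V d)),
      ∑ y ∈ Y, (ppi p R (u.1.1 - 0) * ppi p r (u.1.2 - u.1.1)) *
          (ppi p R (u.2.1 - u.1.2) * ppi p r (u.2.2 - u.2.1)) * ppi p R (y - u.2.2) ≤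
      (ppi p R (u.1.1 - 0) * ppi p r (u.1.2 - u.1.1)) *
          (ppi p R (u.2.1 - u.1.2) * ppi p r (u.2.2 - u.2.1)) * GG d p R := by
    intro u _
    rw [← mul_sum]
    exact mul_le_mul_of_nonneg_left (sum_ppi_sub_le hp0 hp1 R _ _)
      (mul_nonneg (mul_nonneg (hn _ _) (hn _ _)) (mul_nonneg (hn _ _) (hn _ _)))
  refine (sum_le_sum h2).trans ?_
  rw [← sum_mul, Finset.sum_product]
  have h3 : ∀ u ∈ (W2 R s : Finset (V d × V d)), ∑ u' ∈ (W2 R s : Finset (V d × V d)),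
      (ppi p R (u.1 - 0) * ppi p r (u.2 - u.1)) *
          (ppi p R (u'.1 - u.2) * ppi p r (u'.2 - u'.1)) ≤
      (ppi p R (u.1 - 0) * ppi p r (u.2 - u.1)) * (GG d p R * TT d p r s) := by
    intro u _
    rw [← mul_sum]
    exact mul_le_mul_of_nonneg_left (W2_le hp0 hp1 R r s _) (mul_nonneg (hn _ _) (hn _ _))
  have h4 : ∑ u ∈ (W2 R s : Finset (V d × V d)), ∑ u' ∈ (W2 R s : Finset (V d × V d)),
      (ppi p R (u.1 - 0) * ppi p r (u.2 - u.1)) *
          (ppi p R (u'.1 - u.2) * ppi p r (u'.2 - u'.1)) ≤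
      (GG d p R * TT d p r s) * (GG d p R * TT d p r s) := by
    refine (sum_le_sum h3).trans ?_
    rw [← sum_mul]
    exact mul_le_mul_of_nonneg_right (W2_le hp0 hp1 R r s 0)
      (mul_nonneg (GG_nonneg hp0 hp1 R) (TT_nonneg hp0 hp1 r s))
  refine (mul_le_mul_of_nonneg_right h4 (GG_nonneg hp0 hp1 R)).trans (le_of_eq ?_)
  ring

/-- the second moment -/
lemma mom_second {p : ℝ} (hp0 : 0 ≤ p) (hp1 : p ≤ 1) (E : Finset (Ed d)) (R r : ℕ) (s : ℝ)
    (Y : Finset (V d)) :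
    ∑ y ∈ Y, EE p E (fun S => ((prs S y R r s).card : ℝ) ^ 2) ≤
      2 * (GG d p R ^ 3 * TT d p r s ^ 2) +
        ((2 * r + 1) * (r + 1) : ℕ) * (GG d p R ^ 2 * TT d p r s) := by
  classical
  have hw := wt_p (d := d) hp0 hp1
  have h1 : ∀ y ∈ Y, EE p E (fun S => ((prs S y R r s).card : ℝ) ^ 2) ≤
      2 * EE p E (fun S => ((((prs S y R r s) ×ˢ (prs S y R r s)).filter
        (fun q => q.1.2 ≤ q.2.1)).card : ℝ)) +
      ((2 * r + 1) * (r + 1) : ℕ) * EE p E (fun S => ((prs S y R r s).card : ℝ)) := by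
    intro y _
    unfold EE
    rw [← Ex_mul, ← Ex_mul, ← Ex_add]
    exact Ex_mono hw (fun S => card_prs_sq S y R r s)
  refine (sum_le_sum h1).trans ?_
  rw [sum_add_distrib, ← mul_sum, ← mul_sum]
  exact add_le_add (mul_le_mul_of_nonneg_left (mom_pairs hp0 hp1 E R r s Y) (by norm_num))
    (mul_le_mul_of_nonneg_left (mom_first hp0 hp1 E R r s Y) (Nat.cast_nonneg _))

/-- **The second moment method.** -/
theorem second_moment {p : ℝ} (hp0 : 0 ≤ p) (hp1 : p ≤ 1) (E : Finset (Ed d)) (R r : ℕ)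
    (s s₀ : ℝ) (Y : Finset (V d)) (hY : ∀ y ∈ Y, s₀ ≤ (dst 0 y : ℝ)) :
    (∑ y ∈ Y, EE p E (fun S => ((prs S y R r s).card : ℝ))) ^ 2 ≤ TT d p R s₀ *
      (2 * (GG d p R ^ 3 * TT d p r s ^ 2) +
        ((2 * r + 1) * (r + 1) : ℕ) * (GG d p R ^ 2 * TT d p r s)) := by
  classical
  have hw := wt_p (d := d) hp0 hp1
  set A := ∑ y ∈ Y, EE p E (fun S => ((prs S y R r s).card : ℝ)) with hA
  set B := ∑ y ∈ Y, EE p E (fun S => ((prs S y R r s).card : ℝ) ^ 2) with hB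
  have hD : ∑ y ∈ Y, PE p E {S | Rch S 0 R y} ≤ TT d p R s₀ := by
    have h1 : ∑ y ∈ Y, PE p E {S | Rch S 0 R y} ≤ ∑ y ∈ Y, ppi p R y := by
      apply sum_le_sum
      intro y _
      have h2 := PE_le_ppi hp0 hp1 E 0 y R
      rwa [sub_zero] at h2
    refine h1.trans ?_
    rw [← MM_far]
    exact sum_le_MM hp0 hp1 R Y (fun y hy => hY y hy)
  have hT := TT_nonneg (d := d) hp0 hp1 R s₀
  have key : ∀ t : ℝ, 0 ≤ B * (t * t) + (-(2 * A)) * t + TT d p R s₀ := by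
    intro t
    have h1 : ∀ y ∈ Y, 2 * t * EE p E (fun S => ((prs S y R r s).card : ℝ)) ≤
        t ^ 2 * EE p E (fun S => ((prs S y R r s).card : ℝ) ^ 2) +
          PE p E {S | Rch S 0 R y} := by
      intro y _
      unfold EE PE
      rw [← Ex_ind, ← Ex_mul, ← Ex_mul, ← Ex_add]
      apply Ex_mono hw
      intro S
      by_cases h : Rch S 0 R y
      · have h2 : S ∈ {S : Set (Ed d) | Rch S 0 R y} := h
        rw [ind_true h2]
        nlinarith [sq_nonneg (t * ((prs S y R r s).card : ℝ) - 1)]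
      · rw [prs_empty r s h, Finset.card_empty, Nat.cast_zero]
        have := ind_nonneg (S ∈ {S : Set (Ed d) | Rch S 0 R y})
        nlinarith
    have h2 := sum_le_sum h1
    rw [← mul_sum, sum_add_distrib, ← mul_sum] at h2
    nlinarith
  have h3 := discrim_le_zero key
  unfold discrim at h3
  have h4 : A ^ 2 ≤ TT d p R s₀ * B := by nlinarith
  exact h4.trans (mul_le_mul_of_nonneg_left (mom_second hp0 hp1 E R r s Y) hT)

end Pool.Agent.Lib.MP_06caae_pr
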