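import Pool.Agent.Lib.MP_06caae_pr.A.Low3
import Pool.Agent.Lib.MP_06caae_pr.A.Mass
import Pool.Agent.Lib.MP_06caae_pr.A.Moms

/-!
# The error terms for three arms
-/

open Finset SimpleGraph
open Pool.Agent.Lib.MP_566bac_pr.Zd

namespace Pool.Agent.Lib.MP_06caae_pr

variable {d : ℕ}

open Classical in
/-- the far points of the box -/
noncomputable def Xf (r : ℕ) (s : ℝ) : Finset (V d) :=
  (Lam 0 r : Finset (V d)).filter fun y => s ≤ (dst 0 y : ℝ)

lemma TT_Xf (p : ℝ) (r : ℕ) (s : ℝ) :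
    TT d p r s = ∑ y ∈ (Xf r s : Finset (V d)), ppi p r y := rfl

lemma mem_Xf {r : ℕ} {s : ℝ} {x : V d} : x ∈ Xf r s ↔ x ∈ (Lam 0 r : Finset (V d)) ∧
    s ≤ (dst 0 x : ℝ) := by
  unfold Xf
  rw [Finset.mem_filter]

/-- the loop with a long last side -/
lemma sum_loop_t {p : ℝ} (hp0 : 0 ≤ p) (hp1 : p ≤ 1) (hT : Tri d p) (l : ℕ) (e u : V d)
    (X W : Finset (V d)) :
    ∑ x ∈ X, ∑ w ∈ W, (if l < dst 0 (w - x - e) then
      tau p (u - x) * tau p (w - u) * tau p (w - x - e) else 0) ≤ nabt p l e := by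
  classical
  have hn : ∀ q : V d × V d, 0 ≤ tau p q.1 * tau p (q.2 - q.1) * tau p (e - q.2) := fun q =>
    mul_nonneg (mul_nonneg (tau_nonneg hp0 hp1 _) (tau_nonneg hp0 hp1 _)) (tau_nonneg hp0 hp1 _)
  have hs : Summable fun q : V d × V d => if l < dst 0 (e - q.2) then
      tau p q.1 * tau p (q.2 - q.1) * tau p (e - q.2) else 0 := by
    refine Summable.of_nonneg_of_le (fun q => ?_) (fun q => ?_) (nab_summable hp0 hp1 hT e)
    · split_ifs
      · exact hn q
      · exact le_rfl
    · split_ifs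
      · exact le_rfl
      · exact hn q
  rw [← Finset.sum_product']
  have hinj : Set.InjOn (fun q : V d × V d => (u - q.1, q.2 - q.1)) ↑(X ×ˢ W) := by
    rintro ⟨a, b⟩ _ ⟨a', b'⟩ _ h
    simp only [Prod.mk.injEq] at h
    have h1 : a = a' := sub_right_injective h.1
    subst h1
    have h2 : b = b' := sub_left_injective h.2
    rw [h2]
  have h1 : ∑ q ∈ X ×ˢ W, (if l < dst 0 (q.2 - q.1 - e) then
        tau p (u - q.1) * tau p (q.2 - u) * tau p (q.2 - q.1 - e) else 0) =
      ∑ q ∈ (X ×ˢ W).image (fun q : V d × V d => (u - q.1, q.2 - q.1)),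
        (if l < dst 0 (e - q.2) then
          tau p q.1 * tau p (q.2 - q.1) * tau p (e - q.2) else 0) := by
    rw [Finset.sum_image hinj]
    apply sum_congr rfl
    rintro ⟨a, b⟩ _
    have e1 : b - a - (u - a) = b - u := by abel
    have e2 : tau p (b - a - e) = tau p (e - (b - a)) := tau_sub_comm hp0 hp1 _ _
    have e3 : dst 0 (b - a - e) = dst 0 (e - (b - a)) := by
      unfold dst
      apply congrArg
      ext i
      simp only [Pi.zero_apply, Pi.sub_apply]
      omega
    simp only [e1, e2, e3]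
  rw [h1]
  refine hs.sum_le_tsum _ (fun q _ => ?_)
  split_ifs
  · exact hn q
  · exact le_rfl

/-- the loop with a long first side -/
lemma sum_loop_b {p : ℝ} (hp0 : 0 ≤ p) (hp1 : p ≤ 1) (hT : Tri d p) (l : ℕ) (e u : V d)
    (X W : Finset (V d)) :
    ∑ x ∈ X, ∑ w ∈ W, (if l < dst 0 (u - x) then
      tau p (u - x) * tau p (w - u) * tau p (w - x - e) else 0) ≤ nabt p l e := by
  classical
  have hn : ∀ q : V d × V d, 0 ≤ tau p q.1 * tau p (q.2 - q.1) * tau p (e - q.2) := fun q =>
    mul_nonneg (mul_nonneg (tau_nonneg hp0 hp1 _) (tau_nonneg hp0 hp1 _)) (tau_nonneg hp0 hp1 _)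
  have hs : Summable fun q : V d × V d => if l < dst 0 (e - q.2) then
      tau p q.1 * tau p (q.2 - q.1) * tau p (e - q.2) else 0 := by
    refine Summable.of_nonneg_of_le (fun q => ?_) (fun q => ?_) (nab_summable hp0 hp1 hT e)
    · split_ifs
      · exact hn q
      · exact le_rfl
    · split_ifs
      · exact le_rfl
      · exact hn q
  rw [← Finset.sum_product']
  have hinj : Set.InjOn (fun q : V d × V d => (q.1 + e - q.2, q.1 + e - u)) ↑(X ×ˢ W) := by
    rintro ⟨a, b⟩ _ ⟨a', b'⟩ _ h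
    simp only [Prod.mk.injEq] at h
    have h1 : a = a' := by
      have := h.2
      have h3 : a + e = a' + e := sub_left_injective this
      exact add_right_cancel h3
    subst h1
    have h2 : b = b' := sub_right_injective h.1
    rw [h2]
  have h1 : ∑ q ∈ X ×ˢ W, (if l < dst 0 (u - q.1) then
        tau p (u - q.1) * tau p (q.2 - u) * tau p (q.2 - q.1 - e) else 0) =
      ∑ q ∈ (X ×ˢ W).image (fun q : V d × V d => (q.1 + e - q.2, q.1 + e - u)),
        (if l < dst 0 (e - q.2) then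
          tau p q.1 * tau p (q.2 - q.1) * tau p (e - q.2) else 0) := by
    rw [Finset.sum_image hinj]
    apply sum_congr rfl
    rintro ⟨a, b⟩ _
    have e1 : a + e - u - (a + e - b) = b - u := by abel
    have e2 : tau p (b - a - e) = tau p (a + e - b) := by
      rw [sub_sub]
      exact tau_sub_comm hp0 hp1 _ _
    have e3 : e - (a + e - u) = u - a := by abel
    simp only [e1, e2, e3]
    split_ifs
    · ring
    · rfl
  rw [h1]
  refine hs.sum_le_tsum _ (fun q _ => ?_)
  split_ifs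
  · exact hn q
  · exact le_rfl

lemma dst_add_ge {x a : V d} : dst 0 x ≤ dst 0 a + dst 0 (x - a) := by
  have h := dst_tri 0 a x
  have h2 : dst a x = dst 0 (x - a) := by
    unfold dst
    apply congrArg
    ext i
    simp only [Pi.zero_apply, Pi.sub_apply]
    omega
  omega

lemma nabt_nonneg {p : ℝ} (hp0 : 0 ≤ p) (hp1 : p ≤ 1) (l : ℕ) (e : V d) : 0 ≤ nabt p l e := by
  unfold nabt
  apply tsum_nonneg
  intro q
  split_ifs
  · exact mul_nonneg (mul_nonneg (tau_nonneg hp0 hp1 _) (tau_nonneg hp0 hp1 _))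
      (tau_nonneg hp0 hp1 _)
  · exact le_rfl

/-- the far mass seen from a near point, or everything -/
lemma Xf_shift {p : ℝ} (hp0 : 0 ≤ p) (hp1 : p ≤ 1) (r l : ℕ) (s : ℝ) (a : V d) :
    ∑ x ∈ Xf r s, ppi p r (x - a) ≤
      TT d p r (s - l) + (if l < dst 0 a then GG d p r else 0) := by
  classical
  split_ifs with h
  · have h1 := sum_ppi_sub_le hp0 hp1 r (Xf r s) a
    have h2 := TT_nonneg (d := d) hp0 hp1 r (s - l)
    linarith
  · rw [add_zero, ← MM_far]
    have h1 : ∑ x ∈ Xf r s, ppi p r (x - a) =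
        ∑ z ∈ (Xf r s).image (fun b => b - a), ppi p r z := by
      rw [Finset.sum_image]
      intro b _ b' _ h
      exact sub_left_injective h
    rw [h1]
    apply sum_le_MM hp0 hp1
    intro z hz
    rw [Finset.mem_image] at hz
    obtain ⟨x, hx, rfl⟩ := hz
    have h2 := (mem_Xf.mp hx).2
    have h3 := dst_add_ge (x := x) (a := a)
    show s - l ≤ (dst 0 (x - a) : ℝ)
    have h4 : (dst 0 x : ℝ) ≤ (dst 0 a : ℝ) + (dst 0 (x - a) : ℝ) := by exact_mod_cast h3
    have h5 : (dst 0 a : ℝ) ≤ l := by exact_mod_cast (not_lt.mp h)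
    linarith

/-- the tree at `v` with target `0` -/
lemma tree0_le {p : ℝ} (hp0 : 0 ≤ p) (hp1 : p ≤ 1) {v : V d} {R : ℕ}
    (hv : v ∈ (Lam 0 R : Finset (V d))) (z : V d) :
    tree p v 0 R z ≤ ∑ u ∈ (Lam 0 (2 * R) : Finset (V d)),
      ppi p R u * (tau p (u - v) * tau p (z - u)) := by
  have h11 : Lam v R ⊆ (Lam 0 (2 * R) : Finset (V d)) := by
    intro y hy
    rw [mem_Lam] at hy hv ⊢
    have a2 := dst_tri y v 0
    omega
  unfold tree
  refine le_trans ?_ (Finset.sum_le_sum_of_subset_of_nonneg h11 ?_)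
  · apply sum_le_sum
    intro u _
    rw [zero_sub, ppi_neg hp0 hp1]
    have a1 := ppi_le_tau hp0 hp1 R (u - v)
    have b3 := ppi_nonneg hp0 hp1 R u
    have b4 := tau_nonneg hp0 hp1 (z - u)
    calc ppi p R (u - v) * ppi p R u * tau p (z - u)
        = ppi p R u * (ppi p R (u - v) * tau p (z - u)) := by ring
      _ ≤ ppi p R u * (tau p (u - v) * tau p (z - u)) :=
          mul_le_mul_of_nonneg_left (mul_le_mul_of_nonneg_right a1 b4) b3
  · intro u _ _
    exact mul_nonneg (ppi_nonneg hp0 hp1 _ _) (mul_nonneg (tau_nonneg hp0 hp1 _)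
      (tau_nonneg hp0 hp1 _))

/-- the error of the pair (1, 2) -/
lemma err12 {p : ℝ} (hp0 : 0 ≤ p) (hp1 : p ≤ 1) (hT : Tri d p) (e : V d) (R r l : ℕ) (s : ℝ)
    (W : Finset (V d)) :
    ∑ v ∈ (Lam 0 R : Finset (V d)), ∑ x ∈ Xf r s, ∑ w ∈ (Lam 0 R : Finset (V d)),
      (∑ z ∈ W, tree p v 0 R z * (ppi p r (z - (v + e)) * ppi p r (v + e + x - z))) *
        ppi p R w ≤
      GG d p R ^ 2 * (nab p e * TT d p r (s - l) + nabt p l e * GG d p r) := by
  classical
  have hn := fun r y => ppi_nonneg (d := d) hp0 hp1 r y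
  have ht := fun y => tau_nonneg (d := d) hp0 hp1 y
  have hG := GG_nonneg (d := d) hp0 hp1
  set L := (Lam 0 R : Finset (V d)) with hL
  set T := TT d p r (s - l) with hTT
  have hT0 : 0 ≤ T := TT_nonneg hp0 hp1 _ _
  -- the sum over w
  have h1 : ∀ v ∈ L, ∀ x ∈ (Xf r s : Finset (V d)), ∑ w ∈ L,
      (∑ z ∈ W, tree p v 0 R z * (ppi p r (z - (v + e)) * ppi p r (v + e + x - z))) *
        ppi p R w ≤
      (∑ z ∈ W, tree p v 0 R z * (ppi p r (z - (v + e)) * ppi p r (v + e + x - z))) *
        GG d p R := by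
    intro v _ x _
    rw [← mul_sum]
    exact mul_le_mul_of_nonneg_left (sum_ppi_le hp0 hp1 R _) (sum_nonneg fun z _ =>
      mul_nonneg (tree_nonneg hp0 hp1 _ _ _ _) (mul_nonneg (hn _ _) (hn _ _)))
  -- the sum over x
  have h2 : ∀ v ∈ L, ∑ x ∈ (Xf r s : Finset (V d)),
      ∑ z ∈ W, tree p v 0 R z * (ppi p r (z - (v + e)) * ppi p r (v + e + x - z)) ≤
      ∑ z ∈ W, ∑ u ∈ (Lam 0 (2 * R) : Finset (V d)), ppi p R u *
        (tau p (u - v) * tau p (z - u) * tau p (z - v - e) *
          (T + if l < dst 0 (z - v - e) then GG d p r else 0)) := by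
    intro v hv
    rw [sum_comm]
    apply sum_le_sum
    intro z _
    have e1 : ∑ x ∈ (Xf r s : Finset (V d)),
        tree p v 0 R z * (ppi p r (z - (v + e)) * ppi p r (v + e + x - z)) =
        (tree p v 0 R z * ppi p r (z - (v + e))) *
          ∑ x ∈ (Xf r s : Finset (V d)), ppi p r (x - (z - v - e)) := by
      rw [mul_sum]
      apply sum_congr rfl
      intro x _
      have : v + e + x - z = x - (z - v - e) := by abel
      rw [this]
      ring
    rw [e1]
    have e2 := Xf_shift hp0 hp1 r l s (z - v - e)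
    have e3 : 0 ≤ T + if l < dst 0 (z - v - e) then GG d p r else 0 := by
      split_ifs
      · exact add_nonneg hT0 (hG r)
      · rw [add_zero]
        exact hT0
    have e4 : tree p v 0 R z * ppi p r (z - (v + e)) ≤
        (∑ u ∈ (Lam 0 (2 * R) : Finset (V d)), ppi p R u * (tau p (u - v) * tau p (z - u))) *
          tau p (z - v - e) := by
      have : z - (v + e) = z - v - e := by abel
      rw [this]
      exact mul_le_mul (tree0_le hp0 hp1 hv z) (ppi_le_tau hp0 hp1 _ _) (hn _ _)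
        (sum_nonneg fun u _ => mul_nonneg (hn _ _) (mul_nonneg (ht _) (ht _)))
    refine (mul_le_mul e4 e2 (sum_nonneg fun x _ => hn _ _)
      (mul_nonneg (sum_nonneg fun u _ => mul_nonneg (hn _ _) (mul_nonneg (ht _) (ht _)))
        (ht _))).trans (le_of_eq ?_)
    rw [sum_mul, sum_mul]
    apply sum_congr rfl
    intro u _
    ring
  have h3 : ∀ u ∈ (Lam 0 (2 * R) : Finset (V d)), ∑ v ∈ L, ∑ z ∈ W, ppi p R u *
        (tau p (u - v) * tau p (z - u) * tau p (z - v - e) *
          (T + if l < dst 0 (z - v - e) then GG d p r else 0)) ≤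
      ppi p R u * (nab p e * T + nabt p l e * GG d p r) := by
    intro u _
    have e1 : ∑ v ∈ L, ∑ z ∈ W, ppi p R u *
        (tau p (u - v) * tau p (z - u) * tau p (z - v - e) *
          (T + if l < dst 0 (z - v - e) then GG d p r else 0)) =
        ppi p R u * ((∑ v ∈ L, ∑ z ∈ W, tau p (u - v) * tau p (z - u) * tau p (z - v - e)) * T +
          (∑ v ∈ L, ∑ z ∈ W, (if l < dst 0 (z - v - e) then
            tau p (u - v) * tau p (z - u) * tau p (z - v - e) else 0)) * GG d p r) := by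
      rw [sum_mul, sum_mul, ← sum_add_distrib, mul_sum]
      apply sum_congr rfl
      intro v _
      rw [sum_mul, sum_mul, ← sum_add_distrib, mul_sum]
      apply sum_congr rfl
      intro z _
      split_ifs <;> ring
    rw [e1]
    apply mul_le_mul_of_nonneg_left _ (hn _ _)
    exact add_le_add (mul_le_mul_of_nonneg_right (sum_loop hp0 hp1 hT e u L W) hT0)
      (mul_le_mul_of_nonneg_right (sum_loop_t hp0 hp1 hT l e u L W) (hG r))
  calc ∑ v ∈ L, ∑ x ∈ (Xf r s : Finset (V d)), ∑ w ∈ L,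
      (∑ z ∈ W, tree p v 0 R z * (ppi p r (z - (v + e)) * ppi p r (v + e + x - z))) * ppi p R w
      ≤ ∑ v ∈ L, ∑ x ∈ (Xf r s : Finset (V d)),
      (∑ z ∈ W, tree p v 0 R z * (ppi p r (z - (v + e)) * ppi p r (v + e + x - z))) *
        GG d p R := sum_le_sum fun v hv => sum_le_sum fun x hx => h1 v hv x hx
    _ = (∑ v ∈ L, ∑ x ∈ (Xf r s : Finset (V d)),
      ∑ z ∈ W, tree p v 0 R z * (ppi p r (z - (v + e)) * ppi p r (v + e + x - z))) *
        GG d p R := by
        rw [sum_mul]
        apply sum_congr rfl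
        intro v _
        rw [sum_mul]
    _ ≤ (∑ v ∈ L, ∑ z ∈ W, ∑ u ∈ (Lam 0 (2 * R) : Finset (V d)), ppi p R u *
        (tau p (u - v) * tau p (z - u) * tau p (z - v - e) *
          (T + if l < dst 0 (z - v - e) then GG d p r else 0))) * GG d p R :=
        mul_le_mul_of_nonneg_right (sum_le_sum h2) (hG R)
    _ = (∑ u ∈ (Lam 0 (2 * R) : Finset (V d)), ∑ v ∈ L, ∑ z ∈ W, ppi p R u *
        (tau p (u - v) * tau p (z - u) * tau p (z - v - e) *
          (T + if l < dst 0 (z - v - e) then GG d p r else 0))) * GG d p R := by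
        congr 1
        rw [sum_comm]
        rw [sum_comm]
        have : ∀ v ∈ L, ∑ z ∈ W, ∑ u ∈ (Lam 0 (2 * R) : Finset (V d)), ppi p R u *
          (tau p (u - v) * tau p (z - u) * tau p (z - v - e) *
          (T + if l < dst 0 (z - v - e) then GG d p r else 0)) =
          ∑ u ∈ (Lam 0 (2 * R) : Finset (V d)), ∑ z ∈ W, ppi p R u *
          (tau p (u - v) * tau p (z - u) * tau p (z - v - e) *
          (T + if l < dst 0 (z - v - e) then GG d p r else 0)) := fun v _ => sum_comm
        rw [sum_congr rfl this, sum_comm]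
    _ ≤ (∑ u ∈ (Lam 0 (2 * R) : Finset (V d)),
        ppi p R u * (nab p e * T + nabt p l e * GG d p r)) * GG d p R :=
        mul_le_mul_of_nonneg_right (sum_le_sum h3) (hG R)
    _ ≤ (GG d p R * (nab p e * T + nabt p l e * GG d p r)) * GG d p R := by
        apply mul_le_mul_of_nonneg_right _ (hG R)
        rw [← sum_mul]
        exact mul_le_mul_of_nonneg_right (sum_ppi_le hp0 hp1 R _)
          (add_nonneg (mul_nonneg (nab_nonneg hp0 hp1 e) hT0)
            (mul_nonneg (nabt_nonneg hp0 hp1 l e) (hG r)))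
    _ = GG d p R ^ 2 * (nab p e * T + nabt p l e * GG d p r) := by ring

lemma nab_neg {p : ℝ} (hp0 : 0 ≤ p) (hp1 : p ≤ 1) (e : V d) : nab p (-e) = nab p e := by
  unfold nab
  rw [← (Equiv.neg (V d × V d)).tsum_eq]
  apply tsum_congr
  rintro ⟨a, b⟩
  have e1 : tau p (-b - -a) = tau p (b - a) := by
    rw [← neg_sub', tau_neg hp0 hp1]
  have e2 : tau p (-e - -b) = tau p (e - b) := by
    rw [← neg_sub', tau_neg hp0 hp1]
  show tau p (-a) * tau p (-b - -a) * tau p (-e - -b) = tau p a * tau p (b - a) * tau p (e - b)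
  rw [e1, e2, tau_neg hp0 hp1]

/-- the error of the pair (1, 3) -/
lemma err13 {p : ℝ} (hp0 : 0 ≤ p) (hp1 : p ≤ 1) (hT : Tri d p) (e : V d) (R r : ℕ) (s δ : ℝ)
    (W : Finset (V d)) (hδ : ∀ x ∈ (Xf r s : Finset (V d)), nab p (e + x + e) ≤ δ) :
    ∑ v ∈ (Lam 0 R : Finset (V d)), ∑ x ∈ Xf r s, ∑ w ∈ (Lam 0 R : Finset (V d)),
      ∑ z ∈ W, tree p v 0 R z * ppi p r x *
        (ppi p R (z - (v + e + x + e)) * ppi p R (v + e + x + e + w - z)) ≤
      GG d p R ^ 2 * (δ * TT d p r s) := by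
  classical
  have hn := fun r y => ppi_nonneg (d := d) hp0 hp1 r y
  have ht := fun y => tau_nonneg (d := d) hp0 hp1 y
  have hG := GG_nonneg (d := d) hp0 hp1
  set L := (Lam 0 R : Finset (V d)) with hL
  have h1 : ∀ v ∈ L, ∀ x ∈ (Xf r s : Finset (V d)), ∑ w ∈ L,
      ∑ z ∈ W, tree p v 0 R z * ppi p r x *
        (ppi p R (z - (v + e + x + e)) * ppi p R (v + e + x + e + w - z)) ≤
      ∑ z ∈ W, ∑ u ∈ (Lam 0 (2 * R) : Finset (V d)), (ppi p r x * ppi p R u *
        (tau p (u - v) * tau p (z - u) * tau p (z - v - (e + x + e)))) * GG d p R := by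
    intro v hv x _
    rw [sum_comm]
    apply sum_le_sum
    intro z _
    have e1 : ∑ w ∈ L, tree p v 0 R z * ppi p r x *
        (ppi p R (z - (v + e + x + e)) * ppi p R (v + e + x + e + w - z)) =
        (tree p v 0 R z * ppi p r x * ppi p R (z - (v + e + x + e))) *
          ∑ w ∈ L, ppi p R (w - (z - (v + e + x + e))) := by
      rw [mul_sum]
      apply sum_congr rfl
      intro w _
      have : v + e + x + e + w - z = w - (z - (v + e + x + e)) := by abel
      rw [this]
      ring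
    rw [e1, ← sum_mul]
    refine mul_le_mul ?_ (sum_ppi_sub_le hp0 hp1 R _ _) (sum_nonneg fun w _ => hn _ _) ?_
    · have e2 : z - (v + e + x + e) = z - v - (e + x + e) := by abel
      rw [e2]
      calc tree p v 0 R z * ppi p r x * ppi p R (z - v - (e + x + e))
          ≤ ((∑ u ∈ (Lam 0 (2 * R) : Finset (V d)),
            ppi p R u * (tau p (u - v) * tau p (z - u))) * ppi p r x) *
            tau p (z - v - (e + x + e)) :=
            mul_le_mul (mul_le_mul_of_nonneg_right (tree0_le hp0 hp1 hv z) (hn _ _))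
              (ppi_le_tau hp0 hp1 _ _) (hn _ _) (mul_nonneg (sum_nonneg fun u _ =>
                mul_nonneg (hn _ _) (mul_nonneg (ht _) (ht _))) (hn _ _))
        _ = ∑ u ∈ (Lam 0 (2 * R) : Finset (V d)), (ppi p r x * ppi p R u *
            (tau p (u - v) * tau p (z - u) * tau p (z - v - (e + x + e)))) := by
            rw [sum_mul, sum_mul]
            apply sum_congr rfl
            intro u _
            ring
    · exact sum_nonneg fun u _ => mul_nonneg (mul_nonneg (hn _ _) (hn _ _))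
        (mul_nonneg (mul_nonneg (ht _) (ht _)) (ht _))
  refine (sum_le_sum fun v hv => sum_le_sum fun x hx => h1 v hv x hx).trans ?_
  rw [sum_comm]
  have h2 : ∀ x ∈ (Xf r s : Finset (V d)), ∑ v ∈ L, ∑ z ∈ W,
      ∑ u ∈ (Lam 0 (2 * R) : Finset (V d)), (ppi p r x * ppi p R u *
        (tau p (u - v) * tau p (z - u) * tau p (z - v - (e + x + e)))) * GG d p R ≤
      ppi p r x * (GG d p R ^ 2 * δ) := by
    intro x hx
    have hδ0 : 0 ≤ δ := (nab_nonneg hp0 hp1 _).trans (hδ x hx)
    have e1 : ∑ v ∈ L, ∑ z ∈ W,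
      ∑ u ∈ (Lam 0 (2 * R) : Finset (V d)), (ppi p r x * ppi p R u *
        (tau p (u - v) * tau p (z - u) * tau p (z - v - (e + x + e)))) * GG d p R =
        ∑ u ∈ (Lam 0 (2 * R) : Finset (V d)), (ppi p r x * GG d p R) * (ppi p R u *
          ∑ v ∈ L, ∑ z ∈ W, tau p (u - v) * tau p (z - u) * tau p (z - v - (e + x + e))) := by
      have a1 : ∀ v ∈ L, ∑ z ∈ W,
        ∑ u ∈ (Lam 0 (2 * R) : Finset (V d)), (ppi p r x * ppi p R u *
        (tau p (u - v) * tau p (z - u) * tau p (z - v - (e + x + e)))) * GG d p R =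
        ∑ u ∈ (Lam 0 (2 * R) : Finset (V d)), ∑ z ∈ W, (ppi p r x * ppi p R u *
        (tau p (u - v) * tau p (z - u) * tau p (z - v - (e + x + e)))) * GG d p R :=
          fun v _ => sum_comm
      rw [sum_congr rfl a1, sum_comm]
      apply sum_congr rfl
      intro u _
      rw [mul_sum, mul_sum]
      apply sum_congr rfl
      intro v _
      rw [mul_sum, mul_sum]
      apply sum_congr rfl
      intro z _
      ring
    rw [e1, ← mul_sum]
    have e2 : ∑ u ∈ (Lam 0 (2 * R) : Finset (V d)), ppi p R u *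
          ∑ v ∈ L, ∑ z ∈ W, tau p (u - v) * tau p (z - u) * tau p (z - v - (e + x + e)) ≤
        GG d p R * δ := by
      refine (sum_le_sum fun u _ => mul_le_mul_of_nonneg_left
        ((sum_loop hp0 hp1 hT (e + x + e) u L W).trans (hδ x hx)) (hn R u)).trans ?_
      rw [← sum_mul]
      exact mul_le_mul_of_nonneg_right (sum_ppi_le hp0 hp1 R _) hδ0
    refine (mul_le_mul_of_nonneg_left e2 (mul_nonneg (hn _ _) (hG R))).trans (le_of_eq ?_)
    ring
  refine (sum_le_sum h2).trans (le_of_eq ?_)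
  rw [← sum_mul, TT_Xf]
  ring

/-- the middle loop -/
lemma mid_loop {p : ℝ} (hp0 : 0 ≤ p) (hp1 : p ≤ 1) (hT : Tri d p) (e c u : V d) (r l : ℕ)
    (s : ℝ) (W : Finset (V d)) :
    ∑ x ∈ Xf r s, ∑ z ∈ W, tau p (u - (c + x)) * tau p (z - u) * tau p (z - (c + x) - e) ≤
      (if s - l ≤ (dst 0 (u - c) : ℝ) then nab p e else 0) + nabt p l e := by
  classical
  have ht := fun y => tau_nonneg (d := d) hp0 hp1 y
  have hn3 : ∀ x z : V d, 0 ≤ tau p (u - (c + x)) * tau p (z - u) * tau p (z - (c + x) - e) :=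
    fun x z => mul_nonneg (mul_nonneg (ht _) (ht _)) (ht _)
  have himg : ∀ f : V d → ℝ, ∑ x ∈ (Xf r s : Finset (V d)), f (c + x) =
      ∑ x ∈ (Xf r s).image (fun x => c + x), f x := by
    intro f
    rw [Finset.sum_image]
    intro a _ b _ h
    exact add_left_cancel h
  have h1 : ∀ x ∈ (Xf r s : Finset (V d)), ∀ z ∈ W,
      tau p (u - (c + x)) * tau p (z - u) * tau p (z - (c + x) - e) ≤
      (if s - l ≤ (dst 0 (u - c) : ℝ) then
        tau p (u - (c + x)) * tau p (z - u) * tau p (z - (c + x) - e) else 0) +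
      (if l < dst 0 (u - (c + x)) then
        tau p (u - (c + x)) * tau p (z - u) * tau p (z - (c + x) - e) else 0) := by
    intro x hx z _
    by_cases h : l < dst 0 (u - (c + x))
    · rw [if_pos h]
      have : 0 ≤ (if s - l ≤ (dst 0 (u - c) : ℝ) then
        tau p (u - (c + x)) * tau p (z - u) * tau p (z - (c + x) - e) else 0) := by
        split_ifs
        · exact hn3 x z
        · exact le_rfl
      linarith
    · rw [if_neg h, add_zero, if_pos]
      have h2 := (mem_Xf.mp hx).2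
      have h3 := dst_add_ge (x := x) (a := u - c)
      have h4 : dst 0 (x - (u - c)) = dst 0 (u - (c + x)) := by
        unfold dst
        apply congrArg
        ext i
        simp only [Pi.zero_apply, Pi.sub_apply, Pi.add_apply]
        omega
      rw [h4] at h3
      have h5 : (dst 0 x : ℝ) ≤ (dst 0 (u - c) : ℝ) + (dst 0 (u - (c + x)) : ℝ) := by
        exact_mod_cast h3
      have h6 : (dst 0 (u - (c + x)) : ℝ) ≤ l := by exact_mod_cast (not_lt.mp h)
      linarith
  refine (sum_le_sum fun x hx => sum_le_sum fun z hz => h1 x hx z hz).trans ?_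
  simp only [sum_add_distrib]
  apply add_le_add
  · have h2 := sum_loop hp0 hp1 hT e u ((Xf r s).image (fun x => c + x)) W
    rw [← himg (fun x => ∑ z ∈ W, tau p (u - x) * tau p (z - u) * tau p (z - x - e))] at h2
    split_ifs
    · exact h2
    · simp
  · have h2 := sum_loop_b hp0 hp1 hT l e u ((Xf r s).image (fun x => c + x)) W
    rw [← himg (fun x => ∑ z ∈ W, if l < dst 0 (u - x) then
      tau p (u - x) * tau p (z - u) * tau p (z - x - e) else 0)] at h2
    exact h2

/-- the error of the pair (2, 3) -/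
lemma err23 {p : ℝ} (hp0 : 0 ≤ p) (hp1 : p ≤ 1) (hT : Tri d p) (e : V d) (R r l : ℕ) (s : ℝ)
    (W : Finset (V d)) :
    ∑ v ∈ (Lam 0 R : Finset (V d)), ∑ x ∈ Xf r s, ∑ w ∈ (Lam 0 R : Finset (V d)),
      ∑ z ∈ W, ppi p R v * tree p (v + e) (v + e + x) r z *
        (ppi p R (z - (v + e + x + e)) * ppi p R (v + e + x + e + w - z)) ≤
      GG d p R ^ 2 * (nab p e * TT d p r (s - l) + nabt p l e * GG d p r) := by
  classical
  have hn := fun r y => ppi_nonneg (d := d) hp0 hp1 r y
  have ht := fun y => tau_nonneg (d := d) hp0 hp1 y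
  have hG := GG_nonneg (d := d) hp0 hp1
  have hab := nab_nonneg (d := d) hp0 hp1 e
  have habt := nabt_nonneg (d := d) hp0 hp1 l e
  set L := (Lam 0 R : Finset (V d)) with hL
  set T := TT d p r (s - l) with hTT
  have h1 : ∀ v ∈ L, ∀ x ∈ (Xf r s : Finset (V d)), ∑ w ∈ L,
      ∑ z ∈ W, ppi p R v * tree p (v + e) (v + e + x) r z *
        (ppi p R (z - (v + e + x + e)) * ppi p R (v + e + x + e + w - z)) ≤
      ∑ z ∈ W, ∑ u ∈ (Lam (v + e) r : Finset (V d)), (ppi p R v * GG d p R) *
        (ppi p r (u - (v + e)) *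
        (tau p (u - (v + e + x)) * tau p (z - u) * tau p (z - (v + e + x) - e))) := by
    intro v hv x _
    rw [sum_comm]
    apply sum_le_sum
    intro z _
    have e1 : ∑ w ∈ L, ppi p R v * tree p (v + e) (v + e + x) r z *
        (ppi p R (z - (v + e + x + e)) * ppi p R (v + e + x + e + w - z)) =
        (ppi p R v * tree p (v + e) (v + e + x) r z * ppi p R (z - (v + e + x + e))) *
          ∑ w ∈ L, ppi p R (w - (z - (v + e + x + e))) := by
      rw [mul_sum]
      apply sum_congr rfl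
      intro w _
      have : v + e + x + e + w - z = w - (z - (v + e + x + e)) := by abel
      rw [this]
      ring
    rw [e1]
    have e2 : (ppi p R v * tree p (v + e) (v + e + x) r z * ppi p R (z - (v + e + x + e))) *
          ∑ w ∈ L, ppi p R (w - (z - (v + e + x + e))) ≤
        (ppi p R v * tree p (v + e) (v + e + x) r z * tau p (z - (v + e + x) - e)) *
          GG d p R := by
      have e3 : z - (v + e + x) - e = z - (v + e + x + e) := by abel
      rw [e3]
      exact mul_le_mul (mul_le_mul_of_nonneg_left (ppi_le_tau hp0 hp1 _ _)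
        (mul_nonneg (hn _ _) (tree_nonneg hp0 hp1 _ _ _ _))) (sum_ppi_sub_le hp0 hp1 R _ _)
        (sum_nonneg fun w _ => hn _ _) (mul_nonneg (mul_nonneg (hn _ _)
        (tree_nonneg hp0 hp1 _ _ _ _)) (ht _))
    refine e2.trans ?_
    have e4 : (ppi p R v * tree p (v + e) (v + e + x) r z * tau p (z - (v + e + x) - e)) *
          GG d p R = ∑ u ∈ (Lam (v + e) r : Finset (V d)), (ppi p R v * GG d p R) *
        (ppi p r (u - (v + e)) *
        (ppi p r (v + e + x - u) * tau p (z - u) * tau p (z - (v + e + x) - e))) := by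
      unfold tree
      rw [mul_sum, sum_mul, sum_mul]
      apply sum_congr rfl
      intro u _
      ring
    rw [e4]
    apply sum_le_sum
    intro u _
    apply mul_le_mul_of_nonneg_left _ (mul_nonneg (hn _ _) (hG R))
    apply mul_le_mul_of_nonneg_left _ (hn _ _)
    apply mul_le_mul_of_nonneg_right _ (ht _)
    apply mul_le_mul_of_nonneg_right _ (ht _)
    rw [tau_sub_comm hp0 hp1]
    exact ppi_le_tau hp0 hp1 _ _
  have h2 : ∀ v ∈ L, ∑ x ∈ (Xf r s : Finset (V d)), ∑ w ∈ L,
      ∑ z ∈ W, ppi p R v * tree p (v + e) (v + e + x) r z *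
        (ppi p R (z - (v + e + x + e)) * ppi p R (v + e + x + e + w - z)) ≤
      (ppi p R v * GG d p R) * (nab p e * T + nabt p l e * GG d p r) := by
    intro v hv
    refine (sum_le_sum fun x hx => h1 v hv x hx).trans ?_
    have a1 : ∑ x ∈ (Xf r s : Finset (V d)), ∑ z ∈ W, ∑ u ∈ (Lam (v + e) r : Finset (V d)),
        (ppi p R v * GG d p R) * (ppi p r (u - (v + e)) *
        (tau p (u - (v + e + x)) * tau p (z - u) * tau p (z - (v + e + x) - e))) =
        (ppi p R v * GG d p R) * ∑ u ∈ (Lam (v + e) r : Finset (V d)), ppi p r (u - (v + e)) *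
          ∑ x ∈ (Xf r s : Finset (V d)), ∑ z ∈ W,
            tau p (u - (v + e + x)) * tau p (z - u) * tau p (z - (v + e + x) - e) := by
      have a2 : ∀ x ∈ (Xf r s : Finset (V d)), ∑ z ∈ W, ∑ u ∈ (Lam (v + e) r : Finset (V d)),
        (ppi p R v * GG d p R) * (ppi p r (u - (v + e)) *
        (tau p (u - (v + e + x)) * tau p (z - u) * tau p (z - (v + e + x) - e))) =
        ∑ u ∈ (Lam (v + e) r : Finset (V d)), ∑ z ∈ W,
        (ppi p R v * GG d p R) * (ppi p r (u - (v + e)) *
        (tau p (u - (v + e + x)) * tau p (z - u) * tau p (z - (v + e + x) - e))) :=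
          fun x _ => sum_comm
      rw [sum_congr rfl a2, sum_comm, mul_sum]
      apply sum_congr rfl
      intro u _
      rw [mul_sum, mul_sum]
      apply sum_congr rfl
      intro x _
      rw [mul_sum, mul_sum]
    rw [a1]
    apply mul_le_mul_of_nonneg_left _ (mul_nonneg (hn _ _) (hG R))
    have a3 : ∀ u ∈ (Lam (v + e) r : Finset (V d)), ppi p r (u - (v + e)) *
          ∑ x ∈ (Xf r s : Finset (V d)), ∑ z ∈ W,
            tau p (u - (v + e + x)) * tau p (z - u) * tau p (z - (v + e + x) - e) ≤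
        (if s - l ≤ (dst (v + e) u : ℝ) then ppi p r (u - (v + e)) else 0) * nab p e +
          ppi p r (u - (v + e)) * nabt p l e := by
      intro u _
      have b1 := mid_loop hp0 hp1 hT e (v + e) u r l s W
      refine (mul_le_mul_of_nonneg_left b1 (hn _ _)).trans (le_of_eq ?_)
      have b2 : dst (v + e) u = dst 0 (u - (v + e)) := by
        unfold dst
        apply congrArg
        ext i
        simp only [Pi.zero_apply, Pi.sub_apply, Pi.add_apply]
        omega
      rw [b2]
      split_ifs <;> ring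
    refine (sum_le_sum a3).trans ?_
    rw [sum_add_distrib, ← sum_mul, ← sum_mul, mul_comm (nab p e), mul_comm (nabt p l e)]
    exact add_le_add (mul_le_mul_of_nonneg_right (sum_far_le hp0 hp1 r (s - l) _ _) hab)
      (mul_le_mul_of_nonneg_right (sum_ppi_sub_le hp0 hp1 r _ _) habt)
  refine (sum_le_sum h2).trans ?_
  rw [← sum_mul, ← sum_mul]
  have h3 := sum_ppi_le hp0 hp1 R L
  have h4 : 0 ≤ nab p e * T + nabt p l e * GG d p r :=
    add_nonneg (mul_nonneg hab (TT_nonneg hp0 hp1 _ _)) (mul_nonneg habt (hG r))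
  refine (mul_le_mul_of_nonneg_right (mul_le_mul_of_nonneg_right h3 (hG R)) h4).trans
    (le_of_eq ?_)
  ring

/-- the left cluster hits the right box -/
lemma errQ' {p : ℝ} (hp0 : 0 ≤ p) (hp1 : p ≤ 1) (hT : Tri d p) (e : V d) (R r k : ℕ) (s δ : ℝ)
    (hδ : ∀ x ∈ (Xf r s : Finset (V d)), ∀ q ∈ (Lam 0 k : Finset (V d)),
      nab p (e + x + q) ≤ δ) :
    ∑ v ∈ (Lam 0 R : Finset (V d)), ∑ x ∈ Xf r s, ∑ w ∈ (Lam 0 R : Finset (V d)),
      ∑ q ∈ (Lam 0 k : Finset (V d)), tree p v 0 R (v + e + x + q) * ppi p r x * ppi p R w ≤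
      GG d p R ^ 2 * (((2 * k + 1) ^ d : ℕ) * δ * TT d p r s) := by
  classical
  have hn := fun r y => ppi_nonneg (d := d) hp0 hp1 r y
  have ht := fun y => tau_nonneg (d := d) hp0 hp1 y
  have hG := GG_nonneg (d := d) hp0 hp1
  set L := (Lam 0 R : Finset (V d)) with hL
  set K := (Lam 0 k : Finset (V d)) with hK
  have h1 : ∀ v ∈ L, ∀ x ∈ (Xf r s : Finset (V d)), ∑ w ∈ L,
      ∑ q ∈ K, tree p v 0 R (v + e + x + q) * ppi p r x * ppi p R w ≤
      ∑ q ∈ K, ∑ u ∈ (Lam 0 (2 * R) : Finset (V d)), (ppi p r x * GG d p R * ppi p R u) *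
        (tau p (v - u) * tau p (u - (e + x + q) - v)) := by
    intro v hv x _
    rw [sum_comm]
    apply sum_le_sum
    intro q _
    rw [← mul_sum]
    have e0 : ∀ u : V d, tau p (u - (e + x + q) - v) = tau p (v + e + x + q - u) := by
      intro u
      have : u - (e + x + q) - v = u - (v + e + x + q) := by abel
      rw [this, tau_sub_comm hp0 hp1]
    calc tree p v 0 R (v + e + x + q) * ppi p r x * ∑ w ∈ L, ppi p R w
        ≤ ((∑ u ∈ (Lam 0 (2 * R) : Finset (V d)),
          ppi p R u * (tau p (u - v) * tau p (v + e + x + q - u))) * ppi p r x) * GG d p R :=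
          mul_le_mul (mul_le_mul_of_nonneg_right (tree0_le hp0 hp1 hv _) (hn _ _))
            (sum_ppi_le hp0 hp1 R _) (sum_nonneg fun w _ => hn _ _) (mul_nonneg (sum_nonneg
              fun u _ => mul_nonneg (hn _ _) (mul_nonneg (ht _) (ht _))) (hn _ _))
      _ = ∑ u ∈ (Lam 0 (2 * R) : Finset (V d)), (ppi p r x * GG d p R * ppi p R u) *
          (tau p (v - u) * tau p (u - (e + x + q) - v)) := by
          rw [sum_mul, sum_mul]
          apply sum_congr rfl
          intro u _
          rw [e0, tau_sub_comm hp0 hp1 v u]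
          ring
  refine (sum_le_sum fun v hv => sum_le_sum fun x hx => h1 v hv x hx).trans ?_
  rw [sum_comm]
  have h2 : ∀ x ∈ (Xf r s : Finset (V d)), ∑ v ∈ L, ∑ q ∈ K,
      ∑ u ∈ (Lam 0 (2 * R) : Finset (V d)), (ppi p r x * GG d p R * ppi p R u) *
        (tau p (v - u) * tau p (u - (e + x + q) - v)) ≤
      ppi p r x * (GG d p R ^ 2 * (((2 * k + 1) ^ d : ℕ) * δ)) := by
    intro x hx
    rw [sum_comm]
    have a1 : ∀ q ∈ K, ∑ v ∈ L,
        ∑ u ∈ (Lam 0 (2 * R) : Finset (V d)), (ppi p r x * GG d p R * ppi p R u) *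
        (tau p (v - u) * tau p (u - (e + x + q) - v)) ≤
        ppi p r x * (GG d p R ^ 2 * δ) := by
      intro q hq
      have hδ0 : 0 ≤ δ := (nab_nonneg hp0 hp1 _).trans (hδ x hx q hq)
      rw [sum_comm]
      have a2 : ∀ u ∈ (Lam 0 (2 * R) : Finset (V d)), ∑ v ∈ L,
          (ppi p r x * GG d p R * ppi p R u) *
          (tau p (v - u) * tau p (u - (e + x + q) - v)) ≤
          (ppi p r x * GG d p R) * (ppi p R u * δ) := by
        intro u _
        rw [← mul_sum]
        have a3 := sum_conv_le hp0 hp1 hT L u (u - (e + x + q))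
        have a4 : nab p (u - (e + x + q) - u) ≤ δ := by
          have a5 : u - (e + x + q) - u = -(e + x + q) := by abel
          rw [a5, nab_neg hp0 hp1]
          exact hδ x hx q hq
        refine (mul_le_mul_of_nonneg_left (a3.trans a4) (mul_nonneg (mul_nonneg (hn _ _) (hG R))
          (hn _ _))).trans (le_of_eq ?_)
        ring
      refine (sum_le_sum a2).trans ?_
      rw [← mul_sum, ← sum_mul]
      refine (mul_le_mul_of_nonneg_left (mul_le_mul_of_nonneg_right
        (sum_ppi_le hp0 hp1 R _) hδ0) (mul_nonneg (hn _ _) (hG R))).trans (le_of_eq ?_)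
      ring
    refine (sum_le_sum a1).trans (le_of_eq ?_)
    rw [sum_const, hK, card_Lam, nsmul_eq_mul]
    push_cast
    ring
  refine (sum_le_sum h2).trans (le_of_eq ?_)
  rw [← sum_mul, TT_Xf]
  ring

/-- the right cluster hits the left box -/
lemma errQ {p : ℝ} (hp0 : 0 ≤ p) (hp1 : p ≤ 1) (hT : Tri d p) (e : V d) (R r k : ℕ) (s δ : ℝ)
    (hδ : ∀ x ∈ (Xf r s : Finset (V d)), ∀ q ∈ (Lam 0 k : Finset (V d)),
      nab p (q - (e + x + e)) ≤ δ) :
    ∑ v ∈ (Lam 0 R : Finset (V d)), ∑ x ∈ Xf r s, ∑ w ∈ (Lam 0 R : Finset (V d)),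
      ∑ q ∈ (Lam 0 k : Finset (V d)), ppi p R v * ppi p r x *
        tree p (v + e + x + e) (v + e + x + e + w) R (v + q) ≤
      GG d p R ^ 2 * (((2 * k + 1) ^ d : ℕ) * δ * TT d p r s) := by
  classical
  have hn := fun r y => ppi_nonneg (d := d) hp0 hp1 r y
  have ht := fun y => tau_nonneg (d := d) hp0 hp1 y
  have hG := GG_nonneg (d := d) hp0 hp1
  set L := (Lam 0 R : Finset (V d)) with hL
  set K := (Lam 0 k : Finset (V d)) with hK
  have h1 : ∀ v ∈ L, ∀ x ∈ (Xf r s : Finset (V d)), ∑ w ∈ L,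
      ∑ q ∈ K, ppi p R v * ppi p r x *
        tree p (v + e + x + e) (v + e + x + e + w) R (v + q) ≤
      ppi p R v * (ppi p r x * (GG d p R * (((2 * k + 1) ^ d : ℕ) * δ))) := by
    intro v hv x hx
    rw [sum_comm]
    have a1 : ∀ q ∈ K, ∑ w ∈ L, ppi p R v * ppi p r x *
        tree p (v + e + x + e) (v + e + x + e + w) R (v + q) ≤
        ppi p R v * (ppi p r x * (GG d p R * δ)) := by
      intro q hq
      rw [← mul_sum, mul_assoc]
      apply mul_le_mul_of_nonneg_left _ (hn _ _)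
      apply mul_le_mul_of_nonneg_left _ (hn _ _)
      unfold tree
      rw [sum_comm]
      have a2 : ∀ u ∈ (Lam (v + e + x + e) R : Finset (V d)), ∑ w ∈ L,
          ppi p R (u - (v + e + x + e)) * ppi p R (v + e + x + e + w - u) * tau p (v + q - u) ≤
          GG d p R * (tau p (u - (v + e + x + e)) * tau p (v + q - u)) := by
        intro u _
        have a3 : ∑ w ∈ L,
          ppi p R (u - (v + e + x + e)) * ppi p R (v + e + x + e + w - u) *
            tau p (v + q - u) = (ppi p R (u - (v + e + x + e)) * tau p (v + q - u)) *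
              ∑ w ∈ L, ppi p R (w - (u - (v + e + x + e))) := by
          rw [mul_sum]
          apply sum_congr rfl
          intro w _
          have : v + e + x + e + w - u = w - (u - (v + e + x + e)) := by abel
          rw [this]
          ring
        rw [a3, mul_comm (GG d p R)]
        exact mul_le_mul (mul_le_mul_of_nonneg_right (ppi_le_tau hp0 hp1 _ _) (ht _))
          (sum_ppi_sub_le hp0 hp1 R _ _) (sum_nonneg fun w _ => hn _ _)
          (mul_nonneg (ht _) (ht _))
      refine (sum_le_sum a2).trans ?_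
      rw [← mul_sum]
      apply mul_le_mul_of_nonneg_left _ (hG R)
      have a4 := sum_conv_le hp0 hp1 hT (Lam (v + e + x + e) R) (v + e + x + e) (v + q)
      have a5 : v + q - (v + e + x + e) = q - (e + x + e) := by abel
      rw [a5] at a4
      exact a4.trans (hδ x hx q hq)
    refine (sum_le_sum a1).trans (le_of_eq ?_)
    rw [sum_const, hK, card_Lam, nsmul_eq_mul]
    push_cast
    ring
  refine (sum_le_sum fun v hv => sum_le_sum fun x hx => h1 v hv x hx).trans ?_
  have h2 : ∑ v ∈ L, ∑ x ∈ (Xf r s : Finset (V d)),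
      ppi p R v * (ppi p r x * (GG d p R * (((2 * k + 1) ^ d : ℕ) * δ))) =
      (∑ v ∈ L, ppi p R v) * (TT d p r s * (GG d p R * (((2 * k + 1) ^ d : ℕ) * δ))) := by
    rw [TT_Xf, sum_mul (s := (Xf r s : Finset (V d))), Finset.sum_mul_sum]
  rw [h2]
  rcases (Xf r s : Finset (V d)).eq_empty_or_nonempty with h3 | ⟨x, hx⟩
  · rw [TT_Xf, h3, sum_empty]
    simp
  have hδ0 : 0 ≤ δ := (nab_nonneg hp0 hp1 _).trans (hδ x hx 0 (self_mem_Lam 0 k))
  have h4 : 0 ≤ TT d p r s * (GG d p R * (((2 * k + 1) ^ d : ℕ) * δ)) :=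
    mul_nonneg (TT_nonneg hp0 hp1 _ _) (mul_nonneg (hG R) (mul_nonneg (Nat.cast_nonneg _) hδ0))
  refine (mul_le_mul_of_nonneg_right (sum_ppi_le hp0 hp1 R L) h4).trans (le_of_eq ?_)
  ring

end Pool.Agent.Lib.MP_06caae_pr
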