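import Pool.Agent.Lib.MP_06caae_pr.A.Pairs
import Pool.Agent.Lib.MP_06caae_pr.A.Av3

/-!
# The number of pairs of boxes is bounded by the number of pairs of indices
-/

open Finset SimpleGraph
open Pool.Agent.Lib.MP_566bac_pr.Zd

namespace Pool.Agent.Lib.MP_06caae_pr

variable {d : ℕ}

lemma pre_post3 {p : ℝ} (hp0 : 0 ≤ p) (hp1 : p ≤ 1) {W : Finset (V d)}
    {v v' v₁ v₂ v₂' v₃ a y : V d} {k R r : ℕ} (hW : Lam v k ⊆ W) (hW' : Lam v' k ⊆ W)
    (h1 : v₁ ∈ Lam v k) (h2 : v₂ ∈ Lam v k) (h2' : v₂' ∈ Lam v' k) (h3 : v₃ ∈ Lam v' k) :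
    p ^ (2 * (Ein (Lam (0 : V d) k)).card) *
      PE p (Ein W) (Pre3 (Lam v k) (Lam v' k) v₁ v₂ v₂' v₃ a y R r) ≤
      PE p (Ein W) (Post3 v v' a y k R r) := by
  have h5 : PE p (Ein W) (Pre3 (Lam v k) (Lam v' k) v₁ v₂ v₂' v₃ a y R r) ≤
      PE p (Ein W) (Av3 (Lam v k) (Lam v' k) a y R r) :=
    PE_mono hp0 hp1 _ (fun S hS => av3_of_pre h1 h2 h2' h3 hS)
  have h4 := open_box2 hp0 hp1 hW hW' (av3_dp (Lam v k) (Lam v' k) a y R r)
  rw [card_Ein_trans v k, card_Ein_trans v' k, ← two_mul] at h4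
  refine (mul_le_mul_of_nonneg_left h5 (pow_nonneg hp0 _)).trans (h4.trans ?_)
  exact PE_mono hp0 hp1 _ (fun S hS => av3_post hS.1 hS.2.1 hS.2.2)

open Classical in
lemma post3_card {S : Set (Ed d)} {y : V d} {k R r : ℕ} {s : ℝ} (hs : 0 < s)
    {X : Finset (V d × V d)} (hX : ∀ q ∈ X, s + 2 * k ≤ (dst q.1 q.2 : ℝ)) :
    (X.filter (fun q => S ∈ Post3 q.1 q.2 0 y k R r)).card ≤
      (2 * ((2 * k + 1) ^ d) ^ 2) *
        (prs S y (2 * R + r + 4 * k * d) (r + 4 * k * d) s).card := by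
  by_cases h : Rch S 0 (2 * R + r + 4 * k * d) y
  swap
  · have h6 : X.filter (fun q => S ∈ Post3 q.1 q.2 0 y k R r) = ∅ := by
      rw [Finset.filter_eq_empty_iff]
      intro q _ hS
      exact h hS.2.1
    rw [h6, Finset.card_empty]
    exact Nat.zero_le _
  obtain ⟨l, hl, g, hg, hq⟩ := prs_geo (r + 4 * k * d) s h
  set P := prs S y (2 * R + r + 4 * k * d) (r + 4 * k * d) s with hP
  have h1 : X.filter (fun q => S ∈ Post3 q.1 q.2 0 y k R r) ⊆
      P.biUnion (fun q => (Lam (g q.1) k ×ˢ Lam (g q.2) k) ∪ (Lam (g q.2) k ×ˢ Lam (g q.1) k)) := by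
    intro q hq1
    rw [Finset.mem_filter] at hq1
    obtain ⟨hqX, hpost, _, hv, hv'⟩ := hq1
    obtain ⟨i, hi, hgi⟩ := hg.meets hv
    obtain ⟨j, hj, hgj⟩ := hg.meets hv'
    rw [Finset.mem_coe] at hgi hgj
    have hd1 := hX q hqX
    have a1 := mem_Lam.mp hgi
    have a2 := mem_Lam.mp hgj
    have a3 := dst_tri q.1 (g i) q.2
    have a4 := dst_tri (g i) (g j) q.2
    have a5 := dst_comm q.1 (g i)
    have hdist : s ≤ (dst (g i) (g j) : ℝ) := by
      have a6 : (dst q.1 q.2 : ℝ) ≤ (k : ℝ) + (dst (g i) (g j) : ℝ) + k := by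
        have : dst q.1 q.2 ≤ k + dst (g i) (g j) + k := by omega
        exact_mod_cast this
      linarith
    have b1 : q.1 ∈ Lam (g i) k := by
      rw [mem_Lam, dst_comm]
      exact a1
    have b2 : q.2 ∈ Lam (g j) k := by
      rw [mem_Lam, dst_comm]
      exact a2
    have hr := hpost (g i) hgi (g j) hgj
    rw [Finset.mem_biUnion]
    rcases lt_trichotomy i j with hij | hij | hij
    · refine ⟨(i, j), ?_, ?_⟩
      · rw [hq]
        have := hg.le hij.le hj hr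
        exact ⟨hij, hj, by show j ≤ i + (r + 4 * k * d); omega, hdist⟩
      · rw [Finset.mem_union, Finset.mem_product, Finset.mem_product]
        exact Or.inl ⟨b1, b2⟩
    · rw [hij] at hdist
      have : dst (g j) (g j) = 0 := dst_self _
      rw [this, Nat.cast_zero] at hdist
      linarith
    · refine ⟨(j, i), ?_, ?_⟩
      · rw [hq]
        have := hg.le hij.le hi hr.symm
        refine ⟨hij, hi, by show i ≤ j + (r + 4 * k * d); omega, ?_⟩
        show s ≤ (dst (g j) (g i) : ℝ)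
        rw [dst_comm]
        exact hdist
      · rw [Finset.mem_union, Finset.mem_product, Finset.mem_product]
        exact Or.inr ⟨b1, b2⟩
  refine (Finset.card_le_card h1).trans (Finset.card_biUnion_le.trans ?_)
  have h2 : ∀ q ∈ P, ((Lam (g q.1) k ×ˢ Lam (g q.2) k) ∪
      (Lam (g q.2) k ×ˢ Lam (g q.1) k) : Finset (V d × V d)).card ≤
      2 * ((2 * k + 1) ^ d) ^ 2 := by
    intro q _
    refine (Finset.card_union_le _ _).trans ?_
    rw [Finset.card_product, Finset.card_product, card_Lam, card_Lam]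
    apply le_of_eq
    ring
  refine (Finset.sum_le_sum h2).trans ?_
  rw [sum_const, smul_eq_mul, mul_comm]

/-- **The first moment from above.** -/
theorem first_upper {p : ℝ} (hp0 : 0 ≤ p) (hp1 : p ≤ 1) {k R r N : ℕ} {e : V d}
    (he : e ∈ Lam (0 : V d) k) {s : ℝ} (hs : 0 < s) {X : Finset (V d × V d)}
    (hX : ∀ q ∈ X, s + 2 * k ≤ (dst q.1 q.2 : ℝ))
    (hXN : ∀ q ∈ X, Lam q.1 k ⊆ Lam 0 N ∧ Lam q.2 k ⊆ Lam 0 N) (y : V d) :
    p ^ (2 * (Ein (Lam (0 : V d) k)).card) *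
      ∑ q ∈ X, PE p (Ein (Lam 0 N))
        (Pre3 (Lam q.1 k) (Lam q.2 k) q.1 (q.1 + e) q.2 (q.2 + e) 0 y R r) ≤
      (2 * ((2 * k + 1) ^ d) ^ 2 : ℕ) * EE p (Ein (Lam 0 N)) (fun S =>
        ((prs S y (2 * R + r + 4 * k * d) (r + 4 * k * d) s).card : ℝ)) := by
  classical
  have hw := wt_p (d := d) hp0 hp1
  have hin : ∀ x : V d, x + e ∈ Lam x k := by
    intro x
    rw [mem_Lam'] at he ⊢
    intro i
    have := he i
    simp only [Pi.add_apply, Pi.zero_apply] at this ⊢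
    omega
  have h1 : ∀ q ∈ X, p ^ (2 * (Ein (Lam (0 : V d) k)).card) * PE p (Ein (Lam 0 N))
      (Pre3 (Lam q.1 k) (Lam q.2 k) q.1 (q.1 + e) q.2 (q.2 + e) 0 y R r) ≤
      PE p (Ein (Lam 0 N)) (Post3 q.1 q.2 0 y k R r) := by
    intro q hq
    exact pre_post3 hp0 hp1 (hXN q hq).1 (hXN q hq).2 (self_mem_Lam _ _) (hin _)
      (self_mem_Lam _ _) (hin _)
  rw [mul_sum]
  refine (sum_le_sum h1).trans ?_
  have h2 : ∑ q ∈ X, PE p (Ein (Lam 0 N)) (Post3 q.1 q.2 0 y k R r) =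
      Ex (fun _ => p) (Ein (Lam 0 N)) (fun S => ∑ q ∈ X,
        ind (S ∈ Post3 q.1 q.2 0 y k R r)) := by
    rw [Ex_sum]
    apply sum_congr rfl
    intro q _
    rw [Ex_ind]
    rfl
  rw [h2]
  unfold EE
  rw [← Ex_mul]
  apply Ex_mono hw
  intro S
  have h4 : ∑ q ∈ X, ind (S ∈ Post3 q.1 q.2 0 y k R r) =
      ((X.filter (fun q : V d × V d => S ∈ Post3 q.1 q.2 0 y k R r)).card : ℝ) := by
    unfold ind
    rw [Finset.card_filter]
    push_cast
    rfl
  rw [h4]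
  have h5 := post3_card (S := S) (y := y) (k := k) (R := R) (r := r) hs hX
  exact_mod_cast h5

end Pool.Agent.Lib.MP_06caae_pr
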