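import Pool.Agent.Lib.MP_06caae_pr.A.Dir

/-!
# The growth lemmas from the three-piece inequality
-/

open Finset SimpleGraph
open Pool.Agent.Lib.MP_566bac_pr.Zd

namespace Pool.Agent.Lib.MP_06caae_pr

variable {d : ℕ} {p : ℝ}

/-- the three-piece inequality -/
def Three (d : ℕ) (p : ℝ) : Prop :=
  ∃ c : ℝ, 0 < c ∧ ∃ C : ℝ, 0 < C ∧ ∃ m : ℕ, ∀ η : ℝ, 0 < η → ∃ l s₀ : ℕ, ∀ (r R : ℕ) (s : ℝ),
    s₀ ≤ r → (s₀ : ℝ) ≤ s → r ≤ R → η * r ≤ TT d p r s → TT d p (r + m) (s - l) ≤ 2 * TT d p r s →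
    c * GG d p R ^ 4 * TT d p r s ^ 2 ≤ TT d p (2 * R + r + m) s *
      (GG d p (2 * R + r + m) ^ 3 * TT d p r s ^ 2 +
        C * (r : ℝ) ^ 2 * GG d p (2 * R + r + m) ^ 2 * TT d p r s)

private lemma pigeon (f : ℕ → ℝ) (N : ℕ) (h : f N < 2 ^ N * f 0) : ∃ i < N, f (i + 1) ≤ 2 * f i := by
  by_contra h1
  push Not at h1
  have key : ∀ k ≤ N, 2 ^ k * f 0 ≤ f k := by
    intro k
    induction k with
    | zero =>
      intro _
      rw [pow_zero, one_mul]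
    | succ k ih =>
      intro hk
      have h2 := ih (by omega)
      have h3 := h1 k (by omega)
      calc 2 ^ (k + 1) * f 0 = 2 * (2 ^ k * f 0) := by ring
        _ ≤ 2 * f k := by linarith
        _ ≤ f (k + 1) := h3.le
  exact absurd (key N le_rfl) (not_le.2 h)

private lemma final_arith {c C C₁ R' T U r r' G GR W : ℝ} (hc : 0 < c) (hC0 : 0 < C) (hC1 : 0 < C₁)
    (hR' : 0 < R') (hT : 0 < T) (hU : 0 ≤ U) (hG0 : 0 ≤ G) (hG : G ≤ C₁ * R') (hW : W ≤ U) (hr0 : 0 ≤ r')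
    (hr' : r' ≤ 2 * r) (h7 : R' / 4 ≤ GR) (h5 : c * GR ^ 4 * T ^ 2 ≤ W * (G ^ 3 * T ^ 2 + C * r' ^ 2 * G ^ 2 * T))
    (h9 : r ^ 2 ≤ R' * T) : c / 256 * R' ≤ U * (C₁ ^ 3 + 4 * C * C₁ ^ 2) := by
  have e1 : c * (R' / 4) ^ 4 * T ^ 2 ≤ c * GR ^ 4 * T ^ 2 := by
    apply mul_le_mul_of_nonneg_right _ (sq_nonneg _)
    exact mul_le_mul_of_nonneg_left (pow_le_pow_left₀ (by positivity) h7 4) hc.le
  have e2 : G ^ 3 ≤ (C₁ * R') ^ 3 := pow_le_pow_left₀ hG0 hG 3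
  have e3 : G ^ 2 ≤ (C₁ * R') ^ 2 := pow_le_pow_left₀ hG0 hG 2
  have e4 : r' ^ 2 ≤ (2 * r) ^ 2 := pow_le_pow_left₀ hr0 hr' 2
  have e5 : 0 ≤ G ^ 3 * T ^ 2 + C * r' ^ 2 * G ^ 2 * T := by positivity
  have e6 : G ^ 3 * T ^ 2 ≤ (C₁ * R') ^ 3 * T ^ 2 := mul_le_mul_of_nonneg_right e2 (sq_nonneg _)
  have e7 : C * r' ^ 2 * G ^ 2 * T ≤ C * (2 * r) ^ 2 * (C₁ * R') ^ 2 * T := by
    apply mul_le_mul_of_nonneg_right _ hT.le
    exact mul_le_mul (mul_le_mul_of_nonneg_left e4 hC0.le) e3 (sq_nonneg _) (by positivity)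
  have e8 : C * (2 * r) ^ 2 * (C₁ * R') ^ 2 * T ≤ 4 * C * C₁ ^ 2 * (R' ^ 3 * T ^ 2) := by
    calc C * (2 * r) ^ 2 * (C₁ * R') ^ 2 * T = 4 * C * C₁ ^ 2 * (r ^ 2 * (R' ^ 2 * T)) := by ring
      _ ≤ 4 * C * C₁ ^ 2 * ((R' * T) * (R' ^ 2 * T)) := by
        apply mul_le_mul_of_nonneg_left _ (by positivity)
        exact mul_le_mul_of_nonneg_right h9 (by positivity)
      _ = _ := by ring
  have e9 : W * (G ^ 3 * T ^ 2 + C * r' ^ 2 * G ^ 2 * T) ≤ U * (G ^ 3 * T ^ 2 + C * r' ^ 2 * G ^ 2 * T) :=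
    mul_le_mul_of_nonneg_right hW e5
  have e10 : U * (G ^ 3 * T ^ 2 + C * r' ^ 2 * G ^ 2 * T) ≤
      U * ((C₁ * R') ^ 3 * T ^ 2 + 4 * C * C₁ ^ 2 * (R' ^ 3 * T ^ 2)) :=
    mul_le_mul_of_nonneg_left (add_le_add e6 (e7.trans e8)) hU
  have e11 : c / 256 * R' * (R' ^ 3 * T ^ 2) ≤ U * (C₁ ^ 3 + 4 * C * C₁ ^ 2) * (R' ^ 3 * T ^ 2) := by
    calc c / 256 * R' * (R' ^ 3 * T ^ 2) = c * (R' / 4) ^ 4 * T ^ 2 := by ring
      _ ≤ U * ((C₁ * R') ^ 3 * T ^ 2 + 4 * C * C₁ ^ 2 * (R' ^ 3 * T ^ 2)) := ((e1.trans h5).trans e9).trans e10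
      _ = _ := by ring
  exact le_of_mul_le_mul_right e11 (by positivity)

theorem growth_of_three (hp0 : 0 ≤ p) (hp1 : p ≤ 1) {C₁ : ℝ} (hC : 1 ≤ C₁)
    (hC₁ : ∀ r : ℕ, 1 ≤ r → GG d p r ≤ C₁ * r) (hlow : ∀ r : ℕ, (r : ℝ) + 1 ≤ GG d p r) (h3 : Three d p) :
    ∃ c₀ : ℝ, 0 < c₀ ∧ ∀ η : ℝ, 0 < η → η ≤ 1 → ∃ s₀ : ℝ, ∀ (r : ℕ) (s : ℝ), s₀ ≤ r → s₀ ≤ s →
      η * r ≤ TT d p r s → ∀ R : ℕ, 16 / η * r ≤ R → c₀ * R ≤ TT d p R (s / 3) := by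
  obtain ⟨c, hc, C, hC0, m, h3⟩ := h3
  have hC10 : (0 : ℝ) < C₁ := by linarith
  set D : ℝ := C₁ ^ 3 + 4 * C * C₁ ^ 2 with hD
  have hD0 : 0 < D := by positivity
  refine ⟨c / (256 * D), by positivity, fun η hη hη1 => ?_⟩
  obtain ⟨l, s₁, h4⟩ := h3 (η / 2) (by positivity)
  obtain ⟨N, hN⟩ := pow_unbounded_of_one_lt (2 * C₁ / η) (by norm_num : (1 : ℝ) < 2)
  have hN' : 2 * C₁ < 2 ^ N * η := by
    rw [div_lt_iff₀ hη] at hN
    exact hN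
  refine ⟨((2 * s₁ + N * m + 3 * (N * l) + m + 1 : ℕ) : ℝ), fun r s hr hs hT R' hR' => ?_⟩
  have hr' : 2 * s₁ + N * m + 3 * (N * l) + m + 1 ≤ r := by exact_mod_cast hr
  have hr1 : 1 ≤ r := by omega
  have hr0 : (0 : ℝ) < r := by exact_mod_cast hr1
  push_cast at hs
  have hs1 : (0 : ℝ) ≤ (s₁ : ℝ) := Nat.cast_nonneg _
  have hNm0 : (0 : ℝ) ≤ (N : ℝ) * m := by positivity
  have hNl0 : (0 : ℝ) ≤ (N : ℝ) * l := by positivity
  have hm0 : (0 : ℝ) ≤ (m : ℝ) := Nat.cast_nonneg _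
  have hs0 : 0 < s := by linarith
  -- the pigeonhole principle
  obtain ⟨i, hiN, hi⟩ := pigeon (fun i => TT d p (r + i * m) (s - i * l)) N (by
    show TT d p (r + N * m) (s - N * l) < 2 ^ N * TT d p (r + 0 * m) (s - (0 : ℕ) * l)
    rw [zero_mul, add_zero, Nat.cast_zero, zero_mul, sub_zero]
    have h5 : TT d p (r + N * m) (s - N * l) ≤ C₁ * (2 * r) := by
      refine (TT_le_GG hp0 hp1 _ _).trans ((hC₁ _ (by omega)).trans ?_)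
      apply mul_le_mul_of_nonneg_left _ hC10.le
      have : ((r + N * m : ℕ) : ℝ) ≤ ((2 * r : ℕ) : ℝ) := by exact_mod_cast (by omega : r + N * m ≤ 2 * r)
      push_cast at this ⊢
      linarith
    have h6 : 2 ^ N * (η * r) ≤ 2 ^ N * TT d p r s := mul_le_mul_of_nonneg_left hT (by positivity)
    have h7 : 2 * C₁ * r < 2 ^ N * η * r := mul_lt_mul_of_pos_right hN' hr0
    calc TT d p (r + N * m) (s - N * l) ≤ C₁ * (2 * r) := h5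
      _ = 2 * C₁ * r := by ring
      _ < 2 ^ N * η * r := h7
      _ = 2 ^ N * (η * r) := by ring
      _ ≤ _ := h6)
  have him : i * m ≤ N * m := Nat.mul_le_mul_right m hiN.le
  have hil : i * l ≤ N * l := Nat.mul_le_mul_right l hiN.le
  have hil' : (i : ℝ) * l ≤ N * l := by exact_mod_cast hil
  have hil0 : (0 : ℝ) ≤ (i : ℝ) * l := by positivity
  set r' := r + i * m with hr'def
  set s' : ℝ := s - i * l with hs'def
  have hi' : TT d p (r' + m) (s' - l) ≤ 2 * TT d p r' s' := by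
    have h5 : r + (i + 1) * m = r' + m := by rw [hr'def]; ring
    have h6 : s - ((i + 1 : ℕ) : ℝ) * l = s' - l := by
      rw [hs'def]
      push_cast
      ring
    have h7 : TT d p (r + (i + 1) * m) (s - ((i + 1 : ℕ) : ℝ) * l) ≤ 2 * TT d p r' s' := hi
    rw [h5, h6] at h7
    exact h7
  set T := TT d p r' s' with hTdef
  have hT1 : η * r ≤ T := hT.trans (TT_mono hp0 hp1 (by omega) (by linarith))
  have hT0 : 0 < T := lt_of_lt_of_le (by positivity) hT1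
  have hr'2 : r' ≤ 2 * r := by omega
  have hr'2' : (r' : ℝ) ≤ 2 * r := by exact_mod_cast hr'2
  -- the radii
  have hR16 : 16 * (r : ℝ) ≤ R' := by
    refine le_trans ?_ hR'
    apply mul_le_mul_of_nonneg_right _ hr0.le
    rw [le_div_iff₀ hη]
    linarith
  have hR16' : 16 * r ≤ R' := by exact_mod_cast hR16
  obtain ⟨R, hR⟩ : ∃ R, R = (R' - r' - m) / 2 := ⟨_, rfl⟩
  have hR1 : 2 * R + r' + m ≤ R' := by omega
  have hR2 : R' ≤ 4 * R := by omega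
  have hR3 : r' ≤ R := by omega
  have hR'0 : (0 : ℝ) < R' := by linarith
  have h5 := h4 r' R s' (by omega) (by linarith) hR3 (by
    refine le_trans ?_ hT1
    calc η / 2 * (r' : ℝ) ≤ η / 2 * (2 * r) := mul_le_mul_of_nonneg_left hr'2' (by positivity)
      _ = η * r := by ring) hi'
  set G := GG d p (2 * R + r' + m) with hG
  set U := TT d p R' (s / 3) with hU
  have hU0 : 0 ≤ U := TT_nonneg hp0 hp1 _ _
  have hG0 : 0 ≤ G := GG_nonneg hp0 hp1 _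
  have hG1 : G ≤ C₁ * R' := (GG_mono hp0 hp1 hR1).trans (hC₁ R' (by omega))
  have h6 : TT d p (2 * R + r' + m) s' ≤ U := TT_mono hp0 hp1 hR1 (by linarith)
  have h7 : (R' : ℝ) / 4 ≤ GG d p R := by
    have h8 := hlow R
    have h9 : (R' : ℝ) ≤ 4 * R := by exact_mod_cast hR2
    linarith
  have h9 : (r : ℝ) ^ 2 ≤ R' * T := by
    have h10 : 16 / η * r * (η * r) ≤ R' * T := mul_le_mul hR' hT1 (by positivity) hR'0.le
    have h11 : 16 / η * r * (η * r) = 16 * (r : ℝ) ^ 2 := by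
      field_simp
    have h12 : 0 ≤ (r : ℝ) ^ 2 := sq_nonneg _
    linarith
  have h11 : c / 256 * R' ≤ U * D :=
    final_arith hc hC0 hC10 hR'0 hT0 hU0 hG0 hG1 h6 (Nat.cast_nonneg _) hr'2' h7 h5 h9
  calc c / (256 * D) * R' = c / 256 * R' / D := by field_simp
    _ ≤ U * D / D := div_le_div_of_nonneg_right h11 hD0.le
    _ = U := by field_simp

theorem growth_both (hd : 0 < d) (hp : 0 < p) (hp1 : p ≤ 1) (hT : Tri d p) {C₁ : ℝ} (hC : 1 ≤ C₁)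
    (hC₁ : ∀ r : ℕ, 1 ≤ r → GG d p r ≤ C₁ * r) (hlow : ∀ r : ℕ, (r : ℝ) + 1 ≤ GG d p r) (h3 : Three d p) :
    ∃ c₀ : ℝ, 0 < c₀ ∧
      (∀ η : ℝ, 0 < η → η ≤ 1 → ∃ s₀ : ℝ, ∀ (r : ℕ) (s : ℝ), s₀ ≤ r → s₀ ≤ s →
        η * r ≤ TT d p r s → ∀ R : ℕ, 16 / η * r ≤ R → c₀ * R ≤ TT d p R (s / 3)) ∧
      ∃ K₀ : ℝ, ∃ s₁ : ℝ, ∀ (r : ℕ) (s : ℝ), s₁ ≤ r → s₁ ≤ s → c₀ * r ≤ TT d p r s →
        ∀ R : ℕ, K₀ * r ≤ R → c₀ * R ≤ TT d p R (2 * s) := by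
  obtain ⟨c₀, hc₀, h1⟩ := growth_of_three hp.le hp1 hC hC₁ hlow h3
  refine ⟨c₀, hc₀, h1, ?_⟩
  obtain ⟨c', hc', s₂, h2⟩ := dir4 hd hp hp1 hT hC hC₁ hc₀
  set η := min c' 1 with hη
  have hη0 : 0 < η := lt_min hc' one_pos
  obtain ⟨s₃, h4⟩ := h1 η hη0 (min_le_right _ _)
  refine ⟨16 / η * 32, max (max s₂ s₃) 0, fun r s hr hs hcr R hR => ?_⟩
  have e1 : s₂ ≤ r := ((le_max_left _ _).trans (le_max_left _ _)).trans hr
  have e2 : s₃ ≤ r := ((le_max_right _ _).trans (le_max_left _ _)).trans hr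
  have e3 : s₂ ≤ s := ((le_max_left _ _).trans (le_max_left _ _)).trans hs
  have e4 : s₃ ≤ s := ((le_max_right _ _).trans (le_max_left _ _)).trans hs
  have e5 : 0 ≤ s := (le_max_right _ _).trans hs
  have h5 := h2 r s e1 e3 hcr
  have hr0 : (0 : ℝ) ≤ r := Nat.cast_nonneg r
  have h6 := h4 (32 * r) (15 * s) (by push_cast; linarith) (by linarith) (by
    refine le_trans ?_ h5
    exact mul_le_mul_of_nonneg_right (min_le_left _ _) (Nat.cast_nonneg _)) R (by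
    refine le_trans (le_of_eq ?_) hR
    push_cast
    ring)
  refine h6.trans (TT_mono hp.le hp1 le_rfl ?_)
  linarith

end Pool.Agent.Lib.MP_06caae_pr
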