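import Pool.Agent.Lib.MP_06caae_pr.A.Mass

/-!
# The second growth lemma: the extrinsic scale doubles when the radius is multiplied by a constant
-/

open Finset SimpleGraph
open Pool.Agent.Lib.MP_566bac_pr.Zd

namespace Pool.Agent.Lib.MP_06caae_pr

variable {d : ℕ}

theorem growth2_of {p : ℝ} (hp0 : 0 ≤ p) (hp1 : p ≤ 1) {c₀ K₁ : ℝ}
    (g1 : ∀ η : ℝ, 0 < η → η ≤ 1 → ∃ s₀ : ℝ, ∀ (r : ℕ) (s : ℝ), s₀ ≤ r → s₀ ≤ s →
      η * r ≤ TT d p r s → ∀ R : ℕ, K₁ / η * r ≤ R → c₀ * R ≤ TT d p R (s / 3))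
    (hdir : ∃ c' : ℝ, 0 < c' ∧ ∃ s₀ : ℝ, ∀ (r : ℕ) (s : ℝ), s₀ ≤ r → s₀ ≤ s →
      c₀ * r ≤ TT d p r s → c' * (32 * r : ℕ) ≤ TT d p (32 * r) (15 * s)) :
    ∃ K₀ s₁ : ℝ, ∀ (r : ℕ) (s : ℝ), s₁ ≤ r → s₁ ≤ s → c₀ * r ≤ TT d p r s →
      ∀ R : ℕ, K₀ * r ≤ R → c₀ * R ≤ TT d p R (2 * s) := by
  obtain ⟨c', hc', s₀', hdir⟩ := hdir
  have hη : 0 < min c' 1 := lt_min hc' one_pos
  obtain ⟨s₀, hs₀⟩ := g1 (min c' 1) hη (min_le_right _ _)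
  refine ⟨K₁ / min c' 1 * 32, max (max s₀' s₀) 0, ?_⟩
  intro r s hr hs h R hR
  have hr1 : s₀' ≤ r := (le_max_left _ _).trans ((le_max_left _ _).trans hr)
  have hr2 : s₀ ≤ r := (le_max_right _ _).trans ((le_max_left _ _).trans hr)
  have hs1 : s₀' ≤ s := (le_max_left _ _).trans ((le_max_left _ _).trans hs)
  have hs2 : s₀ ≤ s := (le_max_right _ _).trans ((le_max_left _ _).trans hs)
  have hs3 : 0 ≤ s := (le_max_right _ _).trans hs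
  have hr3 : (0 : ℝ) ≤ r := Nat.cast_nonneg r
  have h1 := hdir r s hr1 hs1 h
  have h2 : min c' 1 * ((32 * r : ℕ) : ℝ) ≤ TT d p (32 * r) (15 * s) :=
    (mul_le_mul_of_nonneg_right (min_le_left _ _) (Nat.cast_nonneg _)).trans h1
  have h3 := hs₀ (32 * r) (15 * s) (by push_cast; linarith) (by linarith) h2 R (by
    push_cast
    linarith [hR])
  refine h3.trans ?_
  exact TT_mono hp0 hp1 le_rfl (by linarith)

end Pool.Agent.Lib.MP_06caae_pr
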