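import Pool.Agent.Lib.MP_06caae_pr.A.Growth

/-!
# The growth lemmas from the growth step
-/

open Finset SimpleGraph
open Pool.Agent.Lib.MP_566bac_pr.Zd

namespace Pool.Agent.Lib.MP_06caae_pr

variable {d : ℕ} {p : ℝ}

/-- one growth step -/
def GrowStep (d : ℕ) (p : ℝ) : Prop :=
  ∃ c₀ : ℝ, 0 < c₀ ∧ ∃ m : ℕ, ∀ η : ℝ, 0 < η → η ≤ 1 → ∃ l : ℕ, ∃ s₀ : ℝ, ∀ (r R : ℕ) (s : ℝ),
    1 ≤ r → s₀ ≤ s → (r : ℝ) ≤ η * R → η * r ≤ TT d p r s → TT d p (r + m) (s - l) ≤ 2 * TT d p r s →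
    c₀ * R ≤ TT d p (2 * R + r + m) s

private lemma pigeon_step (f : ℕ → ℝ) (N : ℕ) (h : f N < 2 ^ N * f 0) : ∃ i < N, f (i + 1) ≤ 2 * f i := by
  by_contra h1
  push Not at h1
  have key : ∀ k ≤ N, 2 ^ k * f 0 ≤ f k := by
    intro k
    induction k with
    | zero =>
      intro _
      rw [pow_zero, one_mul]
    | succ k ih =>
      intro hk
      have h2 := ih (by omega)
      have h3 := h1 k (by omega)
      calc 2 ^ (k + 1) * f 0 = 2 * (2 ^ k * f 0) := by ring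
        _ ≤ 2 * f k := by linarith
        _ ≤ f (k + 1) := h3.le
  exact absurd (key N le_rfl) (not_le.2 h)

theorem growth_of_step (hp0 : 0 ≤ p) (hp1 : p ≤ 1) {C₁ : ℝ} (hC : 1 ≤ C₁)
    (hC₁ : ∀ r : ℕ, 1 ≤ r → GG d p r ≤ C₁ * r) (h3 : GrowStep d p) :
    ∃ c₀ : ℝ, 0 < c₀ ∧ ∀ η : ℝ, 0 < η → η ≤ 1 → ∃ s₀ : ℝ, ∀ (r : ℕ) (s : ℝ), s₀ ≤ r → s₀ ≤ s →
      η * r ≤ TT d p r s → ∀ R : ℕ, 16 / η * r ≤ R → c₀ * R ≤ TT d p R (s / 3) := by
  obtain ⟨c, hc, m, h3⟩ := h3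
  have hC10 : (0 : ℝ) < C₁ := by linarith
  refine ⟨c / 4, by positivity, fun η hη hη1 => ?_⟩
  obtain ⟨l, s₂, h4⟩ := h3 (η / 2) (by positivity) (by linarith)
  obtain ⟨s₁, hs₁⟩ := exists_nat_ge s₂
  obtain ⟨N, hN⟩ := pow_unbounded_of_one_lt (2 * C₁ / η) (by norm_num : (1 : ℝ) < 2)
  have hN' : 2 * C₁ < 2 ^ N * η := by
    rw [div_lt_iff₀ hη] at hN
    exact hN
  refine ⟨((2 * s₁ + N * m + 3 * (N * l) + m + 1 : ℕ) : ℝ), fun r s hr hs hT R' hR' => ?_⟩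
  have hr' : 2 * s₁ + N * m + 3 * (N * l) + m + 1 ≤ r := by exact_mod_cast hr
  have hr1 : 1 ≤ r := by omega
  have hr0 : (0 : ℝ) < r := by exact_mod_cast hr1
  push_cast at hs
  have hs1 : (0 : ℝ) ≤ (s₁ : ℝ) := Nat.cast_nonneg _
  have hNm0 : (0 : ℝ) ≤ (N : ℝ) * m := by positivity
  have hNl0 : (0 : ℝ) ≤ (N : ℝ) * l := by positivity
  have hm0 : (0 : ℝ) ≤ (m : ℝ) := Nat.cast_nonneg _
  have hs0 : 0 < s := by linarith
  -- the pigeonhole principle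
  obtain ⟨i, hiN, hi⟩ := pigeon_step (fun i => TT d p (r + i * m) (s - i * l)) N (by
    show TT d p (r + N * m) (s - N * l) < 2 ^ N * TT d p (r + 0 * m) (s - (0 : ℕ) * l)
    rw [zero_mul, add_zero, Nat.cast_zero, zero_mul, sub_zero]
    have h5 : TT d p (r + N * m) (s - N * l) ≤ C₁ * (2 * r) := by
      refine (TT_le_GG hp0 hp1 _ _).trans ((hC₁ _ (by omega)).trans ?_)
      apply mul_le_mul_of_nonneg_left _ hC10.le
      have : ((r + N * m : ℕ) : ℝ) ≤ ((2 * r : ℕ) : ℝ) := by exact_mod_cast (by omega : r + N * m ≤ 2 * r)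
      push_cast at this ⊢
      linarith
    have h6 : 2 ^ N * (η * r) ≤ 2 ^ N * TT d p r s := mul_le_mul_of_nonneg_left hT (by positivity)
    have h7 : 2 * C₁ * r < 2 ^ N * η * r := mul_lt_mul_of_pos_right hN' hr0
    calc TT d p (r + N * m) (s - N * l) ≤ C₁ * (2 * r) := h5
      _ = 2 * C₁ * r := by ring
      _ < 2 ^ N * η * r := h7
      _ = 2 ^ N * (η * r) := by ring
      _ ≤ _ := h6)
  have him : i * m ≤ N * m := Nat.mul_le_mul_right m hiN.le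
  have hil : i * l ≤ N * l := Nat.mul_le_mul_right l hiN.le
  have hil' : (i : ℝ) * l ≤ N * l := by exact_mod_cast hil
  have hil0 : (0 : ℝ) ≤ (i : ℝ) * l := by positivity
  set r' := r + i * m with hr'def
  set s' : ℝ := s - i * l with hs'def
  have hi' : TT d p (r' + m) (s' - l) ≤ 2 * TT d p r' s' := by
    have h5 : r + (i + 1) * m = r' + m := by rw [hr'def]; ring
    have h6 : s - ((i + 1 : ℕ) : ℝ) * l = s' - l := by
      rw [hs'def]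
      push_cast
      ring
    have h7 : TT d p (r + (i + 1) * m) (s - ((i + 1 : ℕ) : ℝ) * l) ≤ 2 * TT d p r' s' := hi
    rw [h5, h6] at h7
    exact h7
  set T := TT d p r' s' with hTdef
  have hT1 : η * r ≤ T := hT.trans (TT_mono hp0 hp1 (by omega) (by linarith))
  have hT0 : 0 < T := lt_of_lt_of_le (by positivity) hT1
  have hr'2 : r' ≤ 2 * r := by omega
  have hr'2' : (r' : ℝ) ≤ 2 * r := by exact_mod_cast hr'2
  -- the radii
  have hR16 : 16 * (r : ℝ) ≤ R' := by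
    refine le_trans ?_ hR'
    apply mul_le_mul_of_nonneg_right _ hr0.le
    rw [le_div_iff₀ hη]
    linarith
  have hR16' : 16 * r ≤ R' := by exact_mod_cast hR16
  obtain ⟨R, hR⟩ : ∃ R, R = (R' - r' - m) / 2 := ⟨_, rfl⟩
  have hR1 : 2 * R + r' + m ≤ R' := by omega
  have hR2 : R' ≤ 4 * R := by omega
  have hR3 : r' ≤ R := by omega
  have hR'0 : (0 : ℝ) < R' := by linarith
  have hR4 : (R' : ℝ) ≤ 4 * R := by exact_mod_cast hR2
  have h5 := h4 r' R s' (by omega) (by linarith) (by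
    have h6 : 16 * (r : ℝ) ≤ η * R' := by
      have h7 : η * (16 / η * r) ≤ η * R' := mul_le_mul_of_nonneg_left hR' hη.le
      have h8 : η * (16 / η * r) = 16 * r := by field_simp
      linarith
    have h7 : η * (R' : ℝ) ≤ η * (4 * R) := mul_le_mul_of_nonneg_left hR4 hη.le
    linarith) (by
    refine le_trans ?_ hT1
    calc η / 2 * (r' : ℝ) ≤ η / 2 * (2 * r) := mul_le_mul_of_nonneg_left hr'2' (by positivity)
      _ = η * r := by ring) hi'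
  have h6 : TT d p (2 * R + r' + m) s' ≤ TT d p R' (s / 3) := TT_mono hp0 hp1 hR1 (by linarith)
  refine le_trans ?_ (h5.trans h6)
  have h7 : c * (R' : ℝ) ≤ c * (4 * R) := mul_le_mul_of_nonneg_left hR4 hc.le
  linarith

theorem growth_both_step (hd : 0 < d) (hp : 0 < p) (hp1 : p ≤ 1) (hT : Tri d p) {C₁ : ℝ} (hC : 1 ≤ C₁)
    (hC₁ : ∀ r : ℕ, 1 ≤ r → GG d p r ≤ C₁ * r) (h3 : GrowStep d p) :
    ∃ c₀ : ℝ, 0 < c₀ ∧
      (∀ η : ℝ, 0 < η → η ≤ 1 → ∃ s₀ : ℝ, ∀ (r : ℕ) (s : ℝ), s₀ ≤ r → s₀ ≤ s →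
        η * r ≤ TT d p r s → ∀ R : ℕ, 16 / η * r ≤ R → c₀ * R ≤ TT d p R (s / 3)) ∧
      ∃ K₀ : ℝ, ∃ s₁ : ℝ, ∀ (r : ℕ) (s : ℝ), s₁ ≤ r → s₁ ≤ s → c₀ * r ≤ TT d p r s →
        ∀ R : ℕ, K₀ * r ≤ R → c₀ * R ≤ TT d p R (2 * s) := by
  obtain ⟨c₀, hc₀, h1⟩ := growth_of_step hp.le hp1 hC hC₁ h3
  refine ⟨c₀, hc₀, h1, ?_⟩
  obtain ⟨c', hc', s₂, h2⟩ := dir4 hd hp hp1 hT hC hC₁ hc₀
  set η := min c' 1 with hη
  have hη0 : 0 < η := lt_min hc' one_pos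
  obtain ⟨s₃, h4⟩ := h1 η hη0 (min_le_right _ _)
  refine ⟨16 / η * 32, max (max s₂ s₃) 0, fun r s hr hs hcr R hR => ?_⟩
  have e1 : s₂ ≤ r := ((le_max_left _ _).trans (le_max_left _ _)).trans hr
  have e2 : s₃ ≤ r := ((le_max_right _ _).trans (le_max_left _ _)).trans hr
  have e3 : s₂ ≤ s := ((le_max_left _ _).trans (le_max_left _ _)).trans hs
  have e4 : s₃ ≤ s := ((le_max_right _ _).trans (le_max_left _ _)).trans hs
  have e5 : 0 ≤ s := (le_max_right _ _).trans hs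
  have h5 := h2 r s e1 e3 hcr
  have hr0 : (0 : ℝ) ≤ r := Nat.cast_nonneg r
  have h6 := h4 (32 * r) (15 * s) (by push_cast; linarith) (by linarith) (by
    refine le_trans ?_ h5
    exact mul_le_mul_of_nonneg_right (min_le_left _ _) (Nat.cast_nonneg _)) R (by
    refine le_trans (le_of_eq ?_) hR
    push_cast
    ring)
  refine h6.trans (TT_mono hp.le hp1 le_rfl ?_)
  linarith

end Pool.Agent.Lib.MP_06caae_pr
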