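import Pool.Agent.Lib.MP_06caae_pr.Lev1
import Pool.Agent.Lib.MP_06caae_pr.A.Two

/-!
# `r + 1 ≤ E |B(r)| ≤ C r`
-/

open Finset SimpleGraph
open Pool.Agent.Lib.MP_566bac_pr.Zd

namespace Pool.Agent.Lib.MP_06caae_pr

variable {d : ℕ}

/-- doubly exponential growth is impossible -/
lemma dbl {f : ℕ → ℝ} {C : ℝ} {m D : ℕ} (hC : 0 < C) (hf1 : ∀ r, 1 ≤ f r) (hmono : Monotone f)
    (hpol : ∀ r, f r ≤ ((2 * r + 1 : ℕ) : ℝ) ^ D)
    (h : ∀ r, 1 ≤ r → f r ^ 2 ≤ C * r * f (2 * r + m)) :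
    ∃ C₁ : ℝ, 1 ≤ C₁ ∧ ∀ r : ℕ, 1 ≤ r → f r ≤ C₁ * r := by
  -- for `r ≥ max m 1` we have `f r < 6 C r`
  have key : ∀ r0 : ℕ, 1 ≤ r0 → m ≤ r0 → f r0 < 6 * C * r0 := by
    intro r0 hr0 hm
    by_contra hcon
    push Not at hcon
    -- the sequence of radii
    obtain ⟨ρ, hρ0, hρs⟩ : ∃ ρ : ℕ → ℕ, ρ 0 = r0 ∧ ∀ i, ρ (i + 1) = 2 * ρ i + m :=
      ⟨fun i => (fun s => 2 * s + m)^[i] r0, rfl, fun i => Function.iterate_succ_apply' _ _ _⟩
    have hρge : ∀ i, r0 ≤ ρ i := by
      intro i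
      induction i with
      | zero => exact le_of_eq hρ0.symm
      | succ i ih => rw [hρs]; omega
    have hρle : ∀ i, ρ i ≤ 3 ^ i * r0 := by
      intro i
      induction i with
      | zero => rw [hρ0]; simp
      | succ i ih =>
        rw [hρs, pow_succ]
        have := hρge i
        have h2 : 3 ^ i * 3 * r0 = 3 * (3 ^ i * r0) := by ring
        rw [h2]
        omega
    have hx : ∀ i, 3 * C * 2 ^ (2 ^ i) * (ρ i : ℝ) ≤ f (ρ i) := by
      intro i
      induction i with
      | zero =>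
        rw [hρ0]
        norm_num
        linarith
      | succ i ih =>
        have h1 := h (ρ i) (hr0.trans (hρge i))
        rw [← hρs] at h1
        have hpos : (0 : ℝ) < ρ i := by
          have := hr0.trans (hρge i)
          exact_mod_cast this
        have h2 : (3 * C * 2 ^ (2 ^ i) * (ρ i : ℝ)) ^ 2 ≤ f (ρ i) ^ 2 := by
          apply pow_le_pow_left₀ _ ih
          positivity
        have h3 : (3 * C * 2 ^ (2 ^ i) * (ρ i : ℝ)) ^ 2 ≤ C * (ρ i : ℝ) * f (ρ (i + 1)) :=
          h2.trans h1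
        have h4 : (3 * C * 2 ^ (2 ^ i) * (ρ i : ℝ)) ^ 2 =
            C * (ρ i : ℝ) * (9 * C * 2 ^ (2 ^ (i + 1)) * (ρ i : ℝ)) := by
          rw [pow_succ 2 i, pow_mul]
          ring
        rw [h4] at h3
        have h5 : 9 * C * 2 ^ (2 ^ (i + 1)) * (ρ i : ℝ) ≤ f (ρ (i + 1)) :=
          le_of_mul_le_mul_left h3 (by positivity)
        have h6 : (ρ (i + 1) : ℝ) ≤ 3 * ρ i := by
          have : ρ (i + 1) ≤ 3 * ρ i := by
            rw [hρs]
            have := hρge i
            omega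
          exact_mod_cast this
        calc 3 * C * 2 ^ (2 ^ (i + 1)) * (ρ (i + 1) : ℝ)
            ≤ 3 * C * 2 ^ (2 ^ (i + 1)) * (3 * (ρ i : ℝ)) := by
              apply mul_le_mul_of_nonneg_left h6
              positivity
          _ = 9 * C * 2 ^ (2 ^ (i + 1)) * (ρ i : ℝ) := by ring
          _ ≤ f (ρ (i + 1)) := h5
    -- contradiction with the polynomial bound
    have hy : ∀ i, 3 * C * 2 ^ (2 ^ i) ≤ ((3 * r0 : ℕ) : ℝ) ^ D * ((3 : ℝ) ^ D) ^ i := by
      intro i
      have h1 := (hx i).trans (hpol (ρ i))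
      have hpos : (1 : ℝ) ≤ ρ i := by
        have := hr0.trans (hρge i)
        exact_mod_cast this
      have h2 : 3 * C * 2 ^ (2 ^ i) ≤ 3 * C * 2 ^ (2 ^ i) * (ρ i : ℝ) := by
        have : 0 ≤ 3 * C * 2 ^ (2 ^ i) := by positivity
        nlinarith
      refine h2.trans (h1.trans ?_)
      rw [← pow_mul, mul_comm D i, pow_mul, ← mul_pow]
      apply pow_le_pow_left₀ (Nat.cast_nonneg _)
      have h3 : 2 * ρ i + 1 ≤ 3 * r0 * 3 ^ i := by
        have := hρle i
        have := hr0.trans (hρge i)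
        have h4 : 3 * r0 * 3 ^ i = 3 * (3 ^ i * r0) := by ring
        rw [h4]
        omega
      exact_mod_cast h3
    -- `2^(2^i)` grows faster than any exponential
    have hbig : Filter.Tendsto (fun i : ℕ => (2 : ℝ) ^ (2 ^ i) / ((3 : ℝ) ^ D) ^ i) Filter.atTop
        Filter.atTop := by
      have h1 : Filter.Tendsto (fun n : ℕ => (2 : ℝ) ^ n / (n : ℝ) ^ (2 * D)) Filter.atTop
          Filter.atTop := by
        have h2 := tendsto_pow_const_div_const_pow_of_one_lt (2 * D) (r := (2 : ℝ)) (by norm_num)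
        have h3 : Filter.Tendsto (fun n : ℕ => ((n : ℝ) ^ (2 * D) / (2 : ℝ) ^ n)⁻¹) Filter.atTop
            Filter.atTop := by
          apply Filter.Tendsto.inv_tendsto_nhdsGT_zero
          rw [tendsto_nhdsWithin_iff]
          refine ⟨h2, ?_⟩
          filter_upwards [Filter.eventually_gt_atTop 0] with n hn
          have : (0 : ℝ) < n := by exact_mod_cast hn
          rw [Set.mem_Ioi]
          positivity
        refine h3.congr ?_
        intro n
        rw [inv_div]
      have h2 : Filter.Tendsto (fun i : ℕ => 2 ^ i) Filter.atTop Filter.atTop :=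
        tendsto_pow_atTop_atTop_of_one_lt (by norm_num)
      have h3 := h1.comp h2
      refine Filter.tendsto_atTop_mono ?_ h3
      intro i
      simp only [Function.comp_apply]
      apply div_le_div_of_nonneg_left (by positivity) (by positivity)
      push_cast
      have h4 : ((3 : ℝ) ^ D) ^ i = (3 ^ i) ^ D := by rw [← pow_mul, ← pow_mul, mul_comm]
      have h5 : (((2 : ℝ) ^ i) ^ (2 * D)) = (4 ^ i) ^ D := by
        rw [pow_mul]
        congr 1
        rw [← pow_mul, mul_comm, pow_mul]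
        norm_num
      rw [h4, h5]
      apply pow_le_pow_left₀ (by positivity)
      exact pow_le_pow_left₀ (by norm_num) (by norm_num) i
    obtain ⟨i, hi⟩ := (hbig.eventually (Filter.eventually_gt_atTop
      (((3 * r0 : ℕ) : ℝ) ^ D / (3 * C)))).exists
    have h1 := hy i
    rw [div_lt_div_iff₀ (by positivity) (by positivity)] at hi
    linarith
  refine ⟨max 1 (6 * C * (max m 1 : ℕ)), le_max_left _ _, ?_⟩
  intro r hr
  have hr' : (1 : ℝ) ≤ r := by exact_mod_cast hr
  by_cases hm : m ≤ r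
  · have h1 := (key r hr hm).le
    have h2 : (1 : ℝ) ≤ (max m 1 : ℕ) := by exact_mod_cast le_max_right m 1
    calc f r ≤ 6 * C * r := h1
      _ ≤ (6 * C * (max m 1 : ℕ)) * r := by
          have : 0 ≤ 6 * C * r := by positivity
          nlinarith
      _ ≤ _ := mul_le_mul_of_nonneg_right (le_max_right _ _) (by positivity)
  · have h1 := (key (max m 1) (le_max_right _ _) (le_max_left _ _)).le
    have h2 : f r ≤ f (max m 1) := hmono (by omega)
    calc f r ≤ 6 * C * (max m 1 : ℕ) := h2.trans h1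
      _ ≤ (6 * C * (max m 1 : ℕ)) * r := by
          have : 0 ≤ 6 * C * (max m 1 : ℕ) := by positivity
          nlinarith
      _ ≤ _ := mul_le_mul_of_nonneg_right (le_max_right _ _) (by positivity)

/-- points of large norm -/
lemma exists_far (hd : 0 < d) (R : ℕ) : ∃ e : V d, R ≤ dst 0 e := by
  refine ⟨fun _ => (R : ℤ), ?_⟩
  have h1 := le_dst (0 : V d) (fun _ => (R : ℤ)) ⟨0, hd⟩
  simp only [Pi.zero_apply, zero_sub, abs_neg, Nat.abs_cast] at h1
  exact_mod_cast h1

theorem G_up {p : ℝ} (hS : Std d p) :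
    ∃ C₁ : ℝ, 1 ≤ C₁ ∧ ∀ r : ℕ, 1 ≤ r → GG d p r ≤ C₁ * r := by
  have hp0 := hS.hp0.le
  have hp1 := hS.hp1.le
  obtain ⟨R, hR⟩ := nab_small hp0 hp1 hS.tri (ε := 1 / 2) (by norm_num)
  obtain ⟨e, he⟩ := exists_far hS.hd R
  obtain ⟨C, hC, m, h⟩ := two_piece hS.hp0 hp1 hS.tri e
  refine dbl (C := 2 * C) (m := m) (D := d) (by positivity) ?_ ?_ ?_ ?_
  · intro r
    have := G_low hS r
    have : (0 : ℝ) ≤ r := Nat.cast_nonneg r
    linarith
  · intro r s hrs
    exact GG_mono hp0 hp1 hrs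
  · intro r
    exact GG_le hp0 hp1 r
  · intro r hr
    have h1 := h r hr Set.univ Set.univ Set.univ (fun _ _ _ _ => Set.mem_univ _)
    rw [MM_univ, MM_univ] at h1
    have h2 := hR e he
    have h3 : nab p e * GG d p r ^ 2 ≤ 1 / 2 * GG d p r ^ 2 :=
      mul_le_mul_of_nonneg_right h2 (sq_nonneg _)
    nlinarith

end Pool.Agent.Lib.MP_06caae_pr
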