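import Pool.Agent.Lib.MP_06caae_pr.A.Avoid
import Pool.Agent.Lib.MP_06caae_pr.A.Av3
import Pool.Agent.Lib.MP_06caae_pr.A.Two

/-!
# The lower bound for three disjoint arms which also miss the boxes
-/

open Finset SimpleGraph
open Pool.Agent.Lib.MP_566bac_pr.Zd

namespace Pool.Agent.Lib.MP_06caae_pr

variable {d : ℕ}

/-- the open edges of the cluster -/
def own (S : Set (Ed d)) (a : V d) : Set (Ed d) := (openGraph S).edgeSet ∩ tch (clu S a)

lemma own_sub (S : Set (Ed d)) (a : V d) : own S a ⊆ S := by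
  rintro e ⟨h1, _⟩
  induction e using Sym2.ind with
  | _ x y => exact h1.2

lemma rch_own {S : Set (Ed d)} {a x : V d} {r : ℕ} (h : Rch S a r x) : Rch (own S a) a r x := by
  classical
  obtain ⟨w, hw⟩ := h
  refine (rch_edges w).mono (S' := own S a) ?_ hw
  intro e he
  have he' : e ∈ w.edges := he
  refine ⟨w.edges_subset_edgeSet he', ?_⟩
  induction e using Sym2.ind with
  | _ b c =>
    rw [mem_tch]
    left
    exact ⟨w.takeUntil b (w.fst_mem_support_of_mem_edges he')⟩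

lemma con_own {S : Set (Ed d)} {a x : V d} (h : Con S a x) : Con (own S a) a x := by
  obtain ⟨r, hr⟩ := con_iff.mp h
  exact (rch_own hr).con

lemma own_disj {S : Set (Ed d)} {a b : V d} (h : ¬ Con S a b) : Disjoint (own S a) (own S b) := by
  rw [Set.disjoint_left]
  rintro e ⟨h1, h2⟩ ⟨_, h3⟩
  apply h
  induction e using Sym2.ind with
  | _ x y =>
    rw [mem_tch] at h2 h3
    have hc : Con S x y := Con.step h1.1 h1.2
    rcases h2 with h2 | h2 <;> rcases h3 with h3 | h3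
    · exact Con.trans h2 (Con.symm h3)
    · exact (Con.trans h2 hc).trans (Con.symm h3)
    · exact (Con.trans h2 hc.symm).trans (Con.symm h3)
    · exact Con.trans h2 (Con.symm h3)

lemma box_sep {S : Set (Ed d)} {a b : V d} (hab : ¬ Con S a b) {A B : Set (Set (Ed d))}
    (hA : own S a ∈ A) (hB : own S b ∈ B) : S ∈ Box A B :=
  ⟨own S a, own S b, own_sub S a, own_sub S b, own_disj hab, hA, hB⟩

lemma box_sep3 {S : Set (Ed d)} {a b c : V d} (hab : ¬ Con S a b) (hac : ¬ Con S a c)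
    (hbc : ¬ Con S b c) {A B C : Set (Set (Ed d))}
    (hA : own S a ∈ A) (hB : own S b ∈ B) (hC : own S c ∈ C) : S ∈ Box (Box A B) C := by
  refine ⟨own S a ∪ own S b, own S c, Set.union_subset (own_sub S a) (own_sub S b),
    own_sub S c, ?_, ?_, hC⟩
  · exact Set.disjoint_union_left.mpr ⟨own_disj hac, own_disj hbc⟩
  · exact ⟨own S a, own S b, Set.subset_union_left, Set.subset_union_right, own_disj hab, hA, hB⟩

/-- the tree function: `x` to `a` within `r`, and to `w` -/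
noncomputable def tree (p : ℝ) (x a : V d) (r : ℕ) (w : V d) : ℝ :=
  ∑ u ∈ Lam x r, ppi p r (u - x) * ppi p r (a - u) * tau p (w - u)

lemma tree_nonneg {p : ℝ} (hp0 : 0 ≤ p) (hp1 : p ≤ 1) (x a : V d) (r : ℕ) (w : V d) :
    0 ≤ tree p x a r w :=
  sum_nonneg fun _ _ => mul_nonneg (mul_nonneg (ppi_nonneg hp0 hp1 _ _) (ppi_nonneg hp0 hp1 _ _))
    (tau_nonneg hp0 hp1 _)

lemma inc_and {A B : Set (Ed d) → Prop} (hA : Inc {S | A S}) (hB : Inc {S | B S}) :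
    Inc {S | A S ∧ B S} := by
  rintro S S' h ⟨h1, h2⟩
  exact ⟨hA _ _ h h1, hB _ _ h h2⟩

/-- **The lower bound for three disjoint arms which miss the boxes.** -/
theorem lower3 {p : ℝ} (hp0 : 0 ≤ p) (hp1 : p ≤ 1) {W : Finset (V d)} {v₁ v₂ v₂' v₃ a y : V d}
    (h2 : v₂ ∈ W) (h3 : v₃ ∈ W) (Q Q' : Finset (V d)) (R r : ℕ) :
    PE p (Ein W) {S | Rch S v₁ R a} * PE p (Ein W) {S | Rch S v₂ r v₂'} *
        PE p (Ein W) {S | Rch S v₃ R y} ≤
      PE p (Ein W) (Pre3 Q Q' v₁ v₂ v₂' v₃ a y R r) +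
      ((∑ z ∈ W, tree p v₁ a R z * (ppi p r (z - v₂) * ppi p r (v₂' - z))) * ppi p R (y - v₃) +
        ∑ z ∈ W, tree p v₁ a R z * ppi p r (v₂' - v₂) * (ppi p R (z - v₃) * ppi p R (y - z)) +
        ∑ z ∈ W, ppi p R (a - v₁) * tree p v₂ v₂' r z * (ppi p R (z - v₃) * ppi p R (y - z)) +
        ∑ q ∈ Q', tree p v₁ a R q * ppi p r (v₂' - v₂) * ppi p R (y - v₃) +
        ∑ q ∈ Q, ppi p R (a - v₁) * ppi p r (v₂' - v₂) * tree p v₃ y R q) := by
  classical
  have hw := wt_p (d := d) hp0 hp1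
  have hn := fun r y => ppi_nonneg (d := d) hp0 hp1 r y
  set g₁ : Set (Ed d) → ℝ := fun S => ind (Rch S v₁ R a) with hg₁
  set g₂ : Set (Ed d) → ℝ := fun S => g₁ S * ind (v₂ ∉ cls S {v₁} ∧ Rch S v₂ r v₂') with hg₂
  set g₃ : Set (Ed d) → ℝ := fun S => g₂ S * ind (v₃ ∉ cls S {v₁, v₂} ∧ Rch S v₃ R y) with hg₃
  have hg₁n : ∀ S, 0 ≤ g₁ S := fun S => ind_nonneg _
  have hg₂n : ∀ S, 0 ≤ g₂ S := fun S => mul_nonneg (ind_nonneg _) (ind_nonneg _)
  have hrev₁ : Rev (fun S : Set (Ed d) => tch (cls S {v₁})) g₁ :=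
    rev_ind (rev_cls_rch (Finset.mem_singleton_self v₁))
  have hrev₂ : Rev (fun S : Set (Ed d) => tch (cls S {v₁, v₂})) g₂ := by
    apply rev_mul
    · exact rev_ind (rev_cls_rch (Finset.mem_insert_self _ _))
    · apply rev_ind
      intro S S' h
      have e1 := rev_cls_con (d := d) (X := {v₁, v₂}) (x := v₁) (y := v₂)
        (Finset.mem_insert_self _ _) S S' h
      have e2 := rev_cls_rch (d := d) (X := {v₁, v₂}) (x := v₂) (y := v₂') (r := r)
        (Finset.mem_insert_of_mem (Finset.mem_singleton_self _)) S S' h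
      simp only [mem_cls_single]
      simp only at e1 e2
      rw [e1, e2]
  have ha1 := avoid hp0 hp1 (W := W) (X := {v₁}) (g := g₁) hg₁n hrev₁ (x := v₂) (y := v₂') h2 r
  have ha2 := avoid hp0 hp1 (W := W) (X := {v₁, v₂}) (g := g₂) hg₂n hrev₂ (x := v₃) (y := y) h3 R
  have e1 : EE p (Ein W) g₁ = PE p (Ein W) {S | Rch S v₁ R a} := Ex_ind _ _ _
  -- the trees
  have t1 : ∀ z, EE p (Ein W) (fun S => g₁ S * ind (z ∈ cls S {v₁})) ≤ tree p v₁ a R z := by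
    intro z
    refine le_trans (le_of_eq ?_) (tree_le hp0 hp1 (Ein W) v₁ a z R)
    unfold PE EE
    rw [← Ex_ind]
    congr 1
    ext S
    by_cases a1 : Rch S v₁ R a <;> by_cases a3 : Con S v₁ z <;>
      simp [hg₁, ind, a1, a3, mem_cls_single]
  have bA : ∀ z, PE p (Ein W) (Box {S : Set (Ed d) | Rch S v₁ R a ∧ Con S v₁ z}
      {S | Rch S v₂ r v₂'}) ≤ tree p v₁ a R z * ppi p r (v₂' - v₂) := by
    intro z
    refine (bk hw _ (inc_and (inc_Rch v₁ R a) (inc_Con v₁ z)) (inc_Rch v₂ r v₂')).trans ?_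
    exact mul_le_mul (tree_le hp0 hp1 (Ein W) v₁ a z R) (PE_le_ppi hp0 hp1 _ v₂ v₂' r)
      (PE_nonneg hp0 hp1 _ _) (tree_nonneg hp0 hp1 _ _ _ _)
  have bB : ∀ z, PE p (Ein W) (Box {S : Set (Ed d) | Rch S v₁ R a}
      {S | Rch S v₂ r v₂' ∧ Con S v₂ z}) ≤ ppi p R (a - v₁) * tree p v₂ v₂' r z := by
    intro z
    refine (bk hw _ (inc_Rch v₁ R a) (inc_and (inc_Rch v₂ r v₂') (inc_Con v₂ z))).trans ?_
    exact mul_le_mul (PE_le_ppi hp0 hp1 _ v₁ a R) (tree_le hp0 hp1 (Ein W) v₂ v₂' z r)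
      (PE_nonneg hp0 hp1 _ _) (hn _ _)
  have t2 : ∀ z, EE p (Ein W) (fun S => g₂ S * ind (z ∈ cls S {v₁, v₂})) ≤
      tree p v₁ a R z * ppi p r (v₂' - v₂) + ppi p R (a - v₁) * tree p v₂ v₂' r z := by
    intro z
    refine le_trans ?_ (add_le_add (bA z) (bB z))
    unfold PE EE
    rw [← Ex_ind, ← Ex_ind, ← Ex_add]
    apply Ex_mono hw
    intro S
    by_cases c1 : Rch S v₁ R a
    swap
    · simp only [hg₂, hg₁, ind_false c1, zero_mul]
      exact add_nonneg (ind_nonneg _) (ind_nonneg _)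
    by_cases c2 : v₂ ∉ cls S {v₁} ∧ Rch S v₂ r v₂'
    swap
    · simp only [hg₂, ind_false c2, mul_zero, zero_mul]
      exact add_nonneg (ind_nonneg _) (ind_nonneg _)
    by_cases c3 : z ∈ cls S {v₁, v₂}
    swap
    · simp only [ind_false c3, mul_zero]
      exact add_nonneg (ind_nonneg _) (ind_nonneg _)
    have c4 : ¬ Con S v₁ v₂ := fun h => c2.1 (mem_cls_single.mpr h)
    simp only [hg₂, hg₁, ind_true c1, ind_true c2, ind_true c3, mul_one]
    obtain ⟨x, hx, hxz⟩ := c3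
    rw [Finset.mem_insert, Finset.mem_singleton] at hx
    rcases hx with rfl | rfl
    · have h5 : S ∈ Box {S : Set (Ed d) | Rch S x R a ∧ Con S x z} {S | Rch S v₂ r v₂'} :=
        box_sep c4 ⟨rch_own c1, con_own hxz⟩ (rch_own c2.2)
      rw [ind_true h5]
      linarith [ind_nonneg (S ∈ Box {S : Set (Ed d) | Rch S x R a}
        {S | Rch S v₂ r v₂' ∧ Con S v₂ z})]
    · have h5 : S ∈ Box {S : Set (Ed d) | Rch S v₁ R a} {S | Rch S x r v₂' ∧ Con S x z} :=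
        box_sep c4 (rch_own c1) ⟨rch_own c2.2, con_own hxz⟩
      rw [ind_true h5]
      linarith [ind_nonneg (S ∈ Box {S : Set (Ed d) | Rch S v₁ R a ∧ Con S v₁ z}
        {S | Rch S x r v₂'})]
  -- the boxes
  have q1 : ∀ q, PE p (Ein W) (Box (Box {S : Set (Ed d) | Rch S v₁ R a ∧ Con S v₁ q}
      {S | Rch S v₂ r v₂'}) {S | Rch S v₃ R y}) ≤
      tree p v₁ a R q * ppi p r (v₂' - v₂) * ppi p R (y - v₃) := by
    intro q
    refine (bk hw _ (box_inc _ _) (inc_Rch v₃ R y)).trans ?_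
    exact mul_le_mul (bA q) (PE_le_ppi hp0 hp1 _ v₃ y R)
      (PE_nonneg hp0 hp1 _ _) (mul_nonneg (tree_nonneg hp0 hp1 _ _ _ _) (hn _ _))
  have q2 : ∀ q, PE p (Ein W) (Box (Box {S : Set (Ed d) | Rch S v₁ R a}
      {S | Rch S v₂ r v₂'}) {S | Rch S v₃ R y ∧ Con S v₃ q}) ≤
      ppi p R (a - v₁) * ppi p r (v₂' - v₂) * tree p v₃ y R q := by
    intro q
    refine (bk hw _ (box_inc _ _) (inc_and (inc_Rch v₃ R y) (inc_Con v₃ q))).trans ?_
    exact mul_le_mul (PE_box_le hp0 hp1 _ v₁ a v₂ v₂' R r) (tree_le hp0 hp1 (Ein W) v₃ y q R)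
      (PE_nonneg hp0 hp1 _ _) (mul_nonneg (hn _ _) (hn _ _))
  have q3 : EE p (Ein W) g₃ ≤ PE p (Ein W) (Pre3 Q Q' v₁ v₂ v₂' v₃ a y R r) +
      ∑ q ∈ Q', tree p v₁ a R q * ppi p r (v₂' - v₂) * ppi p R (y - v₃) +
        ∑ q ∈ Q, ppi p R (a - v₁) * ppi p r (v₂' - v₂) * tree p v₃ y R q := by
    refine le_trans ?_ (add_le_add (add_le_add le_rfl (sum_le_sum fun q _ => q1 q))
      (sum_le_sum fun q _ => q2 q))
    unfold PE EE
    simp only [← Ex_ind]
    rw [← Ex_sum, ← Ex_sum, ← Ex_add, ← Ex_add]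
    apply Ex_mono hw
    intro S
    have n1 : 0 ≤ ∑ q ∈ Q', ind (S ∈ Box (Box {S : Set (Ed d) | Rch S v₁ R a ∧ Con S v₁ q}
      {S | Rch S v₂ r v₂'}) {S | Rch S v₃ R y}) := sum_nonneg fun _ _ => ind_nonneg _
    have n2 : 0 ≤ ∑ q ∈ Q, ind (S ∈ Box (Box {S : Set (Ed d) | Rch S v₁ R a}
      {S | Rch S v₂ r v₂'}) {S | Rch S v₃ R y ∧ Con S v₃ q}) := sum_nonneg fun _ _ => ind_nonneg _
    have n3 := ind_nonneg (S ∈ Pre3 Q Q' v₁ v₂ v₂' v₃ a y R r)
    by_cases c1 : Rch S v₁ R a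
    swap
    · simp only [hg₃, hg₂, hg₁, ind_false c1, zero_mul]
      linarith
    by_cases c2 : v₂ ∉ cls S {v₁} ∧ Rch S v₂ r v₂'
    swap
    · simp only [hg₃, hg₂, ind_false c2, mul_zero, zero_mul]
      linarith
    by_cases c3 : v₃ ∉ cls S {v₁, v₂} ∧ Rch S v₃ R y
    swap
    · simp only [hg₃, ind_false c3, mul_zero]
      linarith
    simp only [hg₃, hg₂, hg₁, ind_true c1, ind_true c2, ind_true c3, mul_one]
    have c4 : ¬ Con S v₁ v₂ := fun h => c2.1 (mem_cls_single.mpr h)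
    have c5 : ¬ Con S v₁ v₃ := fun h => c3.1 ⟨v₁, Finset.mem_insert_self _ _, h⟩
    have c6 : ¬ Con S v₂ v₃ := fun h =>
      c3.1 ⟨v₂, Finset.mem_insert_of_mem (Finset.mem_singleton_self _), h⟩
    by_cases c7 : ∃ q ∈ Q', Con S v₁ q
    · obtain ⟨q, hq, hq2⟩ := c7
      have h5 : S ∈ Box (Box {S : Set (Ed d) | Rch S v₁ R a ∧ Con S v₁ q}
        {S | Rch S v₂ r v₂'}) {S | Rch S v₃ R y} :=
        box_sep3 c4 c5 c6 ⟨rch_own c1, con_own hq2⟩ (rch_own c2.2) (rch_own c3.2)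
      have h6 := Finset.single_le_sum (f := fun q => ind (S ∈ Box (Box
        {S : Set (Ed d) | Rch S v₁ R a ∧ Con S v₁ q}
        {S | Rch S v₂ r v₂'}) {S | Rch S v₃ R y})) (fun _ _ => ind_nonneg _) hq
      simp only [ind_true h5] at h6
      linarith
    by_cases c8 : ∃ q ∈ Q, Con S v₃ q
    · obtain ⟨q, hq, hq2⟩ := c8
      have h5 : S ∈ Box (Box {S : Set (Ed d) | Rch S v₁ R a}
        {S | Rch S v₂ r v₂'}) {S | Rch S v₃ R y ∧ Con S v₃ q} :=
        box_sep3 c4 c5 c6 (rch_own c1) (rch_own c2.2) ⟨rch_own c3.2, con_own hq2⟩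
      have h6 := Finset.single_le_sum (f := fun q => ind (S ∈ Box (Box
        {S : Set (Ed d) | Rch S v₁ R a}
        {S | Rch S v₂ r v₂'}) {S | Rch S v₃ R y ∧ Con S v₃ q})) (fun _ _ => ind_nonneg _) hq
      simp only [ind_true h5] at h6
      linarith
    push Not at c7 c8
    have h5 : S ∈ Pre3 Q Q' v₁ v₂ v₂' v₃ a y R r := ⟨c1, c2.2, c3.2, c7, c8⟩
    rw [ind_true h5]
    linarith
  -- assembly
  have p3 := PE_le_ppi hp0 hp1 (Ein W) v₃ y R
  have p3n := PE_nonneg hp0 hp1 (Ein W) {S : Set (Ed d) | Rch S v₃ R y}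
  rw [e1] at ha1
  have s1 : PE p (Ein W) {S | Rch S v₁ R a} * PE p (Ein W) {S | Rch S v₂ r v₂'} ≤
      EE p (Ein W) g₂ + ∑ z ∈ W, tree p v₁ a R z * (ppi p r (z - v₂) * ppi p r (v₂' - z)) := by
    have : ∑ w ∈ W, EE p (Ein W) (fun S => g₁ S * ind (w ∈ cls S {v₁})) *
        (ppi p r (w - v₂) * ppi p r (v₂' - w)) ≤
        ∑ z ∈ W, tree p v₁ a R z * (ppi p r (z - v₂) * ppi p r (v₂' - z)) := by
      apply sum_le_sum
      intro z _
      exact mul_le_mul_of_nonneg_right (t1 z) (mul_nonneg (hn _ _) (hn _ _))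
    linarith
  have s2 : EE p (Ein W) g₂ * PE p (Ein W) {S | Rch S v₃ R y} ≤ EE p (Ein W) g₃ +
      (∑ z ∈ W, tree p v₁ a R z * ppi p r (v₂' - v₂) * (ppi p R (z - v₃) * ppi p R (y - z)) +
        ∑ z ∈ W, ppi p R (a - v₁) * tree p v₂ v₂' r z * (ppi p R (z - v₃) * ppi p R (y - z))) := by
    have : ∑ w ∈ W, EE p (Ein W) (fun S => g₂ S * ind (w ∈ cls S {v₁, v₂})) *
        (ppi p R (w - v₃) * ppi p R (y - w)) ≤
        ∑ z ∈ W, tree p v₁ a R z * ppi p r (v₂' - v₂) * (ppi p R (z - v₃) * ppi p R (y - z)) +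
        ∑ z ∈ W, ppi p R (a - v₁) * tree p v₂ v₂' r z *
          (ppi p R (z - v₃) * ppi p R (y - z)) := by
      rw [← sum_add_distrib]
      apply sum_le_sum
      intro z _
      rw [← add_mul]
      exact mul_le_mul_of_nonneg_right (t2 z) (mul_nonneg (hn _ _) (hn _ _))
    linarith
  have s3 : (∑ z ∈ W, tree p v₁ a R z * (ppi p r (z - v₂) * ppi p r (v₂' - z))) *
      PE p (Ein W) {S | Rch S v₃ R y} ≤
      (∑ z ∈ W, tree p v₁ a R z * (ppi p r (z - v₂) * ppi p r (v₂' - z))) * ppi p R (y - v₃) :=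
    mul_le_mul_of_nonneg_left p3 (sum_nonneg fun z _ =>
      mul_nonneg (tree_nonneg hp0 hp1 _ _ _ _) (mul_nonneg (hn _ _) (hn _ _)))
  have s4 := mul_le_mul_of_nonneg_right s1 p3n
  rw [add_mul] at s4
  linarith

end Pool.Agent.Lib.MP_06caae_pr
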