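import Pool.Agent.Lib.MP_06caae_pr.Inv

/-!
# The second moment of the volume of the ball
-/

open Finset SimpleGraph
open Pool.Agent.Lib.MP_566bac_pr.Zd

namespace Pool.Agent.Lib.MP_06caae_pr

variable {d : ℕ}

/-- **A8.** -/
theorem mom2' {p : ℝ} (hp0 : 0 ≤ p) (hp1 : p ≤ 1) (E : Finset (Ed d)) (x : V d) (r : ℕ) :
    EE p E (fun S => (vol S x r : ℝ) ^ 2) ≤ GG d p r ^ 3 := by
  classical
  have h1 : ∀ S : Set (Ed d), (vol S x r : ℝ) ^ 2 =
      ∑ a ∈ Lam x r, ∑ w ∈ Lam x r, ind (S ∈ {S : Set (Ed d) | Rch S x r a ∧ Rch S x r w}) := by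
    intro S
    have h2 : ((vol S x r : ℕ) : ℝ) = ∑ y ∈ Lam x r, ind (Rch S x r y) := by
      unfold ind
      rw [← sum_filter, sum_const, nsmul_eq_mul, mul_one]
      rfl
    rw [h2, sq, sum_mul_sum]
    refine sum_congr rfl fun a _ => sum_congr rfl fun w _ => ?_
    by_cases ha : Rch S x r a
    · by_cases hw : Rch S x r w
      · rw [ind_true ha, ind_true hw, ind_true (show S ∈ {S : Set (Ed d) | Rch S x r a ∧ Rch S x r w} from ⟨ha, hw⟩),
          one_mul]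
      · rw [ind_false hw, mul_zero, ind_false fun h => hw h.2]
    · rw [ind_false ha, zero_mul, ind_false fun h => ha h.1]
  have h2 : EE p E (fun S => (vol S x r : ℝ) ^ 2) =
      ∑ a ∈ Lam x r, ∑ w ∈ Lam x r, PE p E {S : Set (Ed d) | Rch S x r a ∧ Rch S x r w} := by
    unfold EE
    simp only [h1]
    rw [Ex_sum]
    refine sum_congr rfl fun a _ => ?_
    rw [Ex_sum]
    refine sum_congr rfl fun w _ => ?_
    rw [Ex_ind]
    rfl
  rw [h2]
  have hG := GG_nonneg (d := d) hp0 hp1 r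
  calc ∑ a ∈ Lam x r, ∑ w ∈ Lam x r, PE p E {S : Set (Ed d) | Rch S x r a ∧ Rch S x r w} ≤
        ∑ a ∈ Lam x r, ∑ w ∈ Lam x r, ∑ u ∈ Lam x r, ppi p r (u - x) * ppi p r (a - u) * ppi p r (w - u) :=
        sum_le_sum fun a _ => sum_le_sum fun w _ => PE_tree_le hp0 hp1 E x a w r r
    _ = ∑ u ∈ Lam x r, ppi p r (u - x) * ((∑ a ∈ Lam x r, ppi p r (a - u)) * ∑ w ∈ Lam x r, ppi p r (w - u)) := by
        have h3 : ∀ a ∈ Lam x r, ∑ w ∈ Lam x r, ∑ u ∈ Lam x r, ppi p r (u - x) * ppi p r (a - u) * ppi p r (w - u) =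
            ∑ u ∈ Lam x r, ∑ w ∈ Lam x r, ppi p r (u - x) * ppi p r (a - u) * ppi p r (w - u) :=
          fun w _ => sum_comm
        rw [sum_congr rfl h3, sum_comm]
        refine sum_congr rfl fun u _ => ?_
        rw [sum_mul_sum, mul_sum]
        refine sum_congr rfl fun a _ => ?_
        rw [mul_sum]
        refine sum_congr rfl fun w _ => ?_
        ring
    _ ≤ ∑ u ∈ Lam x r, ppi p r (u - x) * (GG d p r * GG d p r) := by
        refine sum_le_sum fun u _ => ?_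
        refine mul_le_mul_of_nonneg_left ?_ (ppi_nonneg hp0 hp1 _ _)
        exact mul_le_mul (sum_ppi_sub_le hp0 hp1 r _ u) (sum_ppi_sub_le hp0 hp1 r _ u)
          (sum_nonneg fun w _ => ppi_nonneg hp0 hp1 _ _) hG
    _ ≤ GG d p r * (GG d p r * GG d p r) := by
        rw [← sum_mul]
        exact mul_le_mul_of_nonneg_right (sum_ppi_sub_le hp0 hp1 r _ x) (mul_nonneg hG hG)
    _ = GG d p r ^ 3 := by ring

/-- the form with `G(r) ≤ C₁ r` -/
theorem mom2 {p : ℝ} (hp0 : 0 ≤ p) (hp1 : p ≤ 1) {C₁ : ℝ} (hG : ∀ r : ℕ, 1 ≤ r → GG d p r ≤ C₁ * r)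
    (E : Finset (Ed d)) (x : V d) {r : ℕ} (hr : 1 ≤ r) :
    EE p E (fun S => (vol S x r : ℝ) ^ 2) ≤ C₁ ^ 3 * (r : ℝ) ^ 3 := by
  refine (mom2' hp0 hp1 E x r).trans ?_
  rw [← mul_pow]
  exact pow_le_pow_left₀ (GG_nonneg hp0 hp1 r) (hG r hr) 3

end Pool.Agent.Lib.MP_06caae_pr
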