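import Pool.Agent.Lib.MP_06caae_pr.A.Geo
import Pool.Agent.Lib.MP_06caae_pr.A.Two

/-!
# Pairs of points on one geodesic: first and second moment

For every `y` in the ball of radius `R` we fix one geodesic `g` from `0` to `y`. `prs S y R r s` are the
pairs of indices `i < j` with `j - i ≤ r` and `|g i - g j| ≥ s`.
-/

open Finset SimpleGraph
open Pool.Agent.Lib.MP_566bac_pr.Zd

namespace Pool.Agent.Lib.MP_06caae_pr

variable {d : ℕ}

/-- the edges of the piece of a path between the times `i` and `j` -/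
def seg (g : ℕ → V d) (i j : ℕ) : Set (Ed d) := {e | ∃ k, i ≤ k ∧ k < j ∧ e = s(g k, g (k + 1))}

lemma seg_mono {g : ℕ → V d} {i j i' j' : ℕ} (h : i' ≤ i) (h' : j ≤ j') :
    seg g i j ⊆ seg g i' j' := by
  rintro e ⟨k, h1, h2, h3⟩
  exact ⟨k, h.trans h1, h2.trans_le h', h3⟩

lemma IsGeo.adj {S : Set (Ed d)} {x y : V d} {l : ℕ} {g : ℕ → V d} (h : IsGeo S x y l g) {i : ℕ}
    (hi : i < l) : (lattice d).Adj (g i) (g (i + 1)) ∧ s(g i, g (i + 1)) ∈ S := by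
  simpa [openGraph] using h.2.2.1 i hi

lemma IsGeo.seg_sub {S : Set (Ed d)} {x y : V d} {l : ℕ} {g : ℕ → V d} (h : IsGeo S x y l g)
    {i j : ℕ} (hj : j ≤ l) : seg g i j ⊆ S := by
  rintro e ⟨k, _, h2, rfl⟩
  exact (h.adj (h2.trans_le hj)).2

lemma IsGeo.seg_rch {S : Set (Ed d)} {x y : V d} {l : ℕ} {g : ℕ → V d} (h : IsGeo S x y l g)
    {i j : ℕ} (hij : i ≤ j) (hj : j ≤ l) : Rch (seg g i j) (g i) (j - i) (g j) := by
  induction j, hij using Nat.le_induction with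
  | base => exact Rch.refl _ _ _
  | succ j hij ih =>
    have h1 := (ih (by omega)).mono (S' := seg g i (j + 1)) (seg_mono le_rfl (Nat.le_succ j))
      le_rfl
    have h2 := h.adj (i := j) (by omega)
    have h3 := h1.trans (Rch.step h2.1 ⟨j, hij, Nat.lt_succ_self j, rfl⟩)
    exact h3.mono subset_rfl (by omega)

lemma IsGeo.inj {S : Set (Ed d)} {x y : V d} {l : ℕ} {g : ℕ → V d} (h : IsGeo S x y l g)
    {i j : ℕ} (hi : i ≤ l) (hj : j ≤ l) (hg : g i = g j) : i = j := by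
  rcases le_total i j with hij | hij
  · have := h.le hij hj (k := 0) (by rw [hg]; exact Rch.refl _ _ _)
    omega
  · have := h.le hij hi (k := 0) (by rw [hg]; exact Rch.refl _ _ _)
    omega

lemma IsGeo.seg_disj {S : Set (Ed d)} {x y : V d} {l : ℕ} {g : ℕ → V d} (h : IsGeo S x y l g)
    {i j k : ℕ} (hk : k ≤ l) : Disjoint (seg g i j) (seg g j k) := by
  rw [Set.disjoint_left]
  rintro e ⟨m, _, h2, rfl⟩ ⟨n, h3, h4, h5⟩
  rw [Sym2.eq_iff] at h5
  rcases h5 with ⟨h5, _⟩ | ⟨h5, h6⟩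
  · have := h.inj (by omega) (by omega) h5
    omega
  · have := h.inj (by omega) (by omega) h5
    omega

lemma IsGeo.seg_box {S : Set (Ed d)} {x y : V d} {l : ℕ} {g : ℕ → V d} (h : IsGeo S x y l g)
    {K : Set (Set (Ed d))} {i j m : ℕ} (hK : seg g 0 i ∈ K) (hij : i ≤ j) (hj : j ≤ l)
    (hm : j - i ≤ m) : seg g 0 j ∈ Box K {T | Rch T (g i) m (g j)} :=
  ⟨seg g 0 i, seg g i j, seg_mono le_rfl hij, seg_mono (Nat.zero_le _) le_rfl,
    h.seg_disj hj, hK, (h.seg_rch hij hj).mono subset_rfl hm⟩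

/-- three pieces -/
def Ch3 (R r : ℕ) (u₁ u₂ y : V d) : Set (Set (Ed d)) :=
  Box (Box {S : Set (Ed d) | Rch S 0 R u₁} {S | Rch S u₁ r u₂}) {S | Rch S u₂ R y}

/-- five pieces -/
def Ch5 (R r : ℕ) (u₁ u₂ u₃ u₄ y : V d) : Set (Set (Ed d)) :=
  Box (Box (Ch3 R r u₁ u₂ u₃) {S | Rch S u₃ r u₄}) {S | Rch S u₄ R y}

lemma IsGeo.ch3 {S : Set (Ed d)} {y : V d} {l : ℕ} {g : ℕ → V d} (h : IsGeo S 0 y l g)
    {R r i j k : ℕ} (hij : i ≤ j) (hjk : j ≤ k) (hk : k ≤ l) (hl : l ≤ R) (hr : j ≤ i + r) :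
    seg g 0 k ∈ Ch3 R r (g i) (g j) (g k) := by
  have h1 : seg g 0 i ∈ {S : Set (Ed d) | Rch S 0 R (g i)} := by
    have h2 := h.seg_rch (Nat.zero_le i) (by omega)
    rw [h.1] at h2
    exact h2.mono subset_rfl (by omega)
  exact h.seg_box (h.seg_box h1 hij (by omega) (by omega)) hjk hk (by omega)

lemma IsGeo.mem_ch3 {S : Set (Ed d)} {y : V d} {l : ℕ} {g : ℕ → V d} (h : IsGeo S 0 y l g)
    {R r i j : ℕ} (hij : i ≤ j) (hj : j ≤ l) (hl : l ≤ R) (hr : j ≤ i + r) :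
    S ∈ Ch3 R r (g i) (g j) y := by
  have h1 := h.ch3 hij hj le_rfl hl hr
  rw [h.2.1] at h1
  exact box_inc _ _ _ _ (h.seg_sub le_rfl) h1

lemma IsGeo.mem_ch5 {S : Set (Ed d)} {y : V d} {l : ℕ} {g : ℕ → V d} (h : IsGeo S 0 y l g)
    {R r i j i' j' : ℕ} (hij : i ≤ j) (hji : j ≤ i') (hij' : i' ≤ j') (hj' : j' ≤ l) (hl : l ≤ R)
    (hr : j ≤ i + r) (hr' : j' ≤ i' + r) : S ∈ Ch5 R r (g i) (g j) (g i') (g j') y := by
  have h1 := h.ch3 (R := R) (r := r) hij hji (by omega) hl hr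
  have h2 := h.seg_box (h.seg_box h1 hij' hj' (m := r) (by omega)) hj' le_rfl (m := R) (by omega)
  rw [h.2.1] at h2
  exact box_inc _ _ _ _ (h.seg_sub le_rfl) h2

lemma PE_ch3 {p : ℝ} (hp0 : 0 ≤ p) (hp1 : p ≤ 1) (E : Finset (Ed d)) (R r : ℕ) (u₁ u₂ y : V d) :
    PE p E (Ch3 R r u₁ u₂ y) ≤ ppi p R u₁ * ppi p r (u₂ - u₁) * ppi p R (y - u₂) := by
  refine (bk (wt_p hp0 hp1) E (box_inc _ _) (inc_Rch u₂ R y)).trans ?_
  have h1 := PE_box_le hp0 hp1 E 0 u₁ u₁ u₂ R r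
  rw [sub_zero] at h1
  exact mul_le_mul h1 (PE_le_ppi hp0 hp1 E u₂ y R) (PE_nonneg hp0 hp1 _ _)
    (mul_nonneg (ppi_nonneg hp0 hp1 _ _) (ppi_nonneg hp0 hp1 _ _))

lemma PE_ch5 {p : ℝ} (hp0 : 0 ≤ p) (hp1 : p ≤ 1) (E : Finset (Ed d)) (R r : ℕ)
    (u₁ u₂ u₃ u₄ y : V d) :
    PE p E (Ch5 R r u₁ u₂ u₃ u₄ y) ≤ ppi p R u₁ * ppi p r (u₂ - u₁) * ppi p R (u₃ - u₂) *
      ppi p r (u₄ - u₃) * ppi p R (y - u₄) := by
  have hn := fun r y => ppi_nonneg (d := d) hp0 hp1 r y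
  refine (bk (wt_p hp0 hp1) E (box_inc _ _) (inc_Rch u₄ R y)).trans ?_
  refine mul_le_mul ?_ (PE_le_ppi hp0 hp1 E u₄ y R) (PE_nonneg hp0 hp1 _ _)
    (mul_nonneg (mul_nonneg (mul_nonneg (hn _ _) (hn _ _)) (hn _ _)) (hn _ _))
  refine (bk (wt_p hp0 hp1) E (box_inc _ _) (inc_Rch u₃ r u₄)).trans ?_
  exact mul_le_mul (PE_ch3 hp0 hp1 E R r u₁ u₂ u₃) (PE_le_ppi hp0 hp1 E u₃ u₄ r)
    (PE_nonneg hp0 hp1 _ _) (mul_nonneg (mul_nonneg (hn _ _) (hn _ _)) (hn _ _))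

/-! ### the chosen geodesic -/

lemma geo_ex2 {S : Set (Ed d)} {y : V d} {R : ℕ} (h : Rch S 0 R y) :
    ∃ q : ℕ × (ℕ → V d), q.1 ≤ R ∧ IsGeo S 0 y q.1 q.2 := by
  obtain ⟨l, hl, g, hg⟩ := geo_exists h
  exact ⟨(l, g), hl, hg⟩

open Classical in
/-- the pairs of indices on the chosen geodesic from `0` to `y` -/
noncomputable def prs (S : Set (Ed d)) (y : V d) (R r : ℕ) (s : ℝ) : Finset (ℕ × ℕ) :=
  if h : Rch S 0 R y then
    ((range (R + 1)) ×ˢ (range (R + 1))).filter fun q => q.1 < q.2 ∧ q.2 ≤ (geo_ex2 h).choose.1 ∧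
      q.2 ≤ q.1 + r ∧ s ≤ (dst ((geo_ex2 h).choose.2 q.1) ((geo_ex2 h).choose.2 q.2) : ℝ)
  else ∅

lemma prs_geo {S : Set (Ed d)} {y : V d} {R : ℕ} (r : ℕ) (s : ℝ) (h : Rch S 0 R y) :
    ∃ l ≤ R, ∃ g, IsGeo S 0 y l g ∧ ∀ q : ℕ × ℕ, q ∈ prs S y R r s ↔
      q.1 < q.2 ∧ q.2 ≤ l ∧ q.2 ≤ q.1 + r ∧ s ≤ (dst (g q.1) (g q.2) : ℝ) := by
  classical
  refine ⟨(geo_ex2 h).choose.1, (geo_ex2 h).choose_spec.1, (geo_ex2 h).choose.2,
    (geo_ex2 h).choose_spec.2, ?_⟩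
  intro q
  have h1 := (geo_ex2 h).choose_spec.1
  unfold prs
  rw [dif_pos h, Finset.mem_filter, Finset.mem_product, Finset.mem_range, Finset.mem_range]
  constructor
  · rintro ⟨_, h2⟩
    exact h2
  · rintro ⟨h2, h3, h4, h5⟩
    exact ⟨⟨by omega, by omega⟩, h2, h3, h4, h5⟩

lemma prs_empty {S : Set (Ed d)} {y : V d} {R : ℕ} (r : ℕ) (s : ℝ) (h : ¬ Rch S 0 R y) :
    prs S y R r s = ∅ := by
  unfold prs
  rw [dif_neg h]

open Classical in
/-- the index set for two points -/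
noncomputable def W2 (R : ℕ) (s : ℝ) : Finset (V d × V d) :=
  ((Lam 0 R : Finset (V d)) ×ˢ (Lam 0 R : Finset (V d))).filter fun u =>
    s ≤ (dst u.1 u.2 : ℝ)

lemma IsGeo.mem_Lam {S : Set (Ed d)} {y : V d} {l : ℕ} {g : ℕ → V d} (h : IsGeo S 0 y l g)
    {i R : ℕ} (hi : i ≤ l) (hl : l ≤ R) : g i ∈ (Lam 0 R : Finset (V d)) := by
  have h1 := h.rch (Nat.zero_le i) hi
  rw [h.1] at h1
  have h2 := rch_dst h1
  rw [Pool.Agent.Lib.MP_566bac_pr.Zd.mem_Lam, dst_comm]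
  omega

/-- the number of pairs -/
lemma card_prs_le (S : Set (Ed d)) (y : V d) (R r : ℕ) (s : ℝ) :
    ((prs S y R r s).card : ℝ) ≤ ∑ u ∈ W2 R s, ind (S ∈ Ch3 R r u.1 u.2 y) := by
  classical
  have h4 : ∑ u ∈ W2 R s, ind (S ∈ Ch3 R r u.1 u.2 y) =
      (((W2 R s).filter (fun u : V d × V d => S ∈ Ch3 R r u.1 u.2 y)).card : ℝ) := by
    unfold ind
    rw [Finset.card_filter]
    push_cast
    rfl
  rw [h4]
  by_cases h : Rch S 0 R y
  · obtain ⟨l, hl, g, hg, hq⟩ := prs_geo r s h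
    rw [Nat.cast_le]
    apply Finset.card_le_card_of_injOn (fun q : ℕ × ℕ => (g q.1, g q.2))
    · intro q hq1
      rw [Finset.mem_coe, hq] at hq1
      obtain ⟨h1, h2, h3, h5⟩ := hq1
      rw [Finset.mem_coe, Finset.mem_filter, W2, Finset.mem_filter, Finset.mem_product]
      exact ⟨⟨⟨hg.mem_Lam (by omega) hl, hg.mem_Lam (by omega) hl⟩, h5⟩,
        hg.mem_ch3 h1.le h2 hl h3⟩
    · intro q hq1 q' hq2 hqq
      rw [Finset.mem_coe, hq] at hq1 hq2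
      simp only [Prod.mk.injEq] at hqq
      have e1 := hg.inj (by omega) (by omega) hqq.1
      have e2 := hg.inj (by omega) (by omega) hqq.2
      exact Prod.ext e1 e2
  · rw [prs_empty r s h, Finset.card_empty, Nat.cast_zero]
    exact Nat.cast_nonneg _

/-- the number of pairs of pairs which do not overlap -/
lemma card_prs2_le (S : Set (Ed d)) (y : V d) (R r : ℕ) (s : ℝ) :
    ((((prs S y R r s) ×ˢ (prs S y R r s)).filter (fun q => q.1.2 ≤ q.2.1)).card : ℝ) ≤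
      ∑ u ∈ (W2 R s : Finset (V d × V d)) ×ˢ W2 R s,
        ind (S ∈ Ch5 R r u.1.1 u.1.2 u.2.1 u.2.2 y) := by
  classical
  have h4 : ∑ u ∈ (W2 R s : Finset (V d × V d)) ×ˢ W2 R s,
        ind (S ∈ Ch5 R r u.1.1 u.1.2 u.2.1 u.2.2 y) =
      ((((W2 R s : Finset (V d × V d)) ×ˢ W2 R s).filter
        (fun u => S ∈ Ch5 R r u.1.1 u.1.2 u.2.1 u.2.2 y)).card : ℝ) := by
    unfold ind
    rw [Finset.card_filter]
    push_cast
    rfl
  rw [h4]
  by_cases h : Rch S 0 R y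
  · obtain ⟨l, hl, g, hg, hq⟩ := prs_geo r s h
    rw [Nat.cast_le]
    apply Finset.card_le_card_of_injOn
      (fun q : (ℕ × ℕ) × (ℕ × ℕ) => ((g q.1.1, g q.1.2), (g q.2.1, g q.2.2)))
    · intro q hq1
      rw [Finset.mem_coe, Finset.mem_filter, Finset.mem_product, hq, hq] at hq1
      obtain ⟨⟨⟨h1, h2, h3, h5⟩, ⟨h6, h7, h8, h9⟩⟩, h10⟩ := hq1
      rw [Finset.mem_coe, Finset.mem_filter, Finset.mem_product, W2, Finset.mem_filter,
        Finset.mem_product, Finset.mem_filter, Finset.mem_product]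
      exact ⟨⟨⟨⟨hg.mem_Lam (by omega) hl, hg.mem_Lam (by omega) hl⟩, h5⟩,
        ⟨⟨hg.mem_Lam (by omega) hl, hg.mem_Lam (by omega) hl⟩, h9⟩⟩,
        hg.mem_ch5 h1.le h10 h6.le h7 hl h3 h8⟩
    · intro q hq1 q' hq2 hqq
      rw [Finset.mem_coe, Finset.mem_filter, Finset.mem_product, hq, hq] at hq1 hq2
      simp only [Prod.mk.injEq] at hqq
      have e1 := hg.inj (by omega) (by omega) hqq.1.1
      have e2 := hg.inj (by omega) (by omega) hqq.1.2
      have e3 := hg.inj (by omega) (by omega) hqq.2.1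
      have e4 := hg.inj (by omega) (by omega) hqq.2.2
      exact Prod.ext (Prod.ext e1 e2) (Prod.ext e3 e4)
  · rw [prs_empty r s h]
    simp

/-- the square of the number of pairs -/
lemma card_prs_sq (S : Set (Ed d)) (y : V d) (R r : ℕ) (s : ℝ) :
    ((prs S y R r s).card : ℝ) ^ 2 ≤
      2 * ((((prs S y R r s) ×ˢ (prs S y R r s)).filter (fun q => q.1.2 ≤ q.2.1)).card : ℝ) +
        ((2 * r + 1) * (r + 1) : ℕ) * ((prs S y R r s).card : ℝ) := by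
  classical
  set P := prs S y R r s with hP
  have hmem : ∀ q ∈ P, q.1 < q.2 ∧ q.2 ≤ q.1 + r := by
    intro q hq
    by_cases h : Rch S 0 R y
    · obtain ⟨l, hl, g, hg, hq2⟩ := prs_geo r s h
      rw [hP, hq2] at hq
      exact ⟨hq.1, hq.2.2.1⟩
    · rw [hP, prs_empty r s h] at hq
      exact absurd hq (Finset.notMem_empty _)
  set A := (P ×ˢ P).filter (fun q => q.1.2 ≤ q.2.1) with hA
  set B := (P ×ˢ P).filter (fun q => q.2.2 ≤ q.1.1) with hB
  set C := (P ×ˢ P).filter (fun q => q.2.1 < q.1.2 ∧ q.1.1 < q.2.2) with hC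
  have h1 : P ×ˢ P ⊆ (A ∪ B) ∪ C := by
    intro q hq
    rw [Finset.mem_union, Finset.mem_union, hA, hB, hC, Finset.mem_filter, Finset.mem_filter,
      Finset.mem_filter]
    by_cases h2 : q.1.2 ≤ q.2.1
    · exact Or.inl (Or.inl ⟨hq, h2⟩)
    · by_cases h3 : q.2.2 ≤ q.1.1
      · exact Or.inl (Or.inr ⟨hq, h3⟩)
      · exact Or.inr ⟨hq, by omega, by omega⟩
  have h2 : B.card ≤ A.card := by
    apply Finset.card_le_card_of_injOn (fun q : (ℕ × ℕ) × (ℕ × ℕ) => (q.2, q.1))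
    · intro q hq
      rw [Finset.mem_coe, hB, Finset.mem_filter, Finset.mem_product] at hq
      rw [Finset.mem_coe, hA, Finset.mem_filter, Finset.mem_product]
      exact ⟨⟨hq.1.2, hq.1.1⟩, hq.2⟩
    · intro q _ q' _ hqq
      simp only [Prod.mk.injEq] at hqq
      exact Prod.ext hqq.2 hqq.1
  have h3 : C.card ≤ (P ×ˢ ((range (2 * r + 1)) ×ˢ (range (r + 1)))).card := by
    apply Finset.card_le_card_of_injOn
      (fun q : (ℕ × ℕ) × (ℕ × ℕ) => (q.1, (q.2.1 + r - q.1.1, q.2.2 - q.2.1)))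
    · intro q hq
      rw [Finset.mem_coe, hC, Finset.mem_filter, Finset.mem_product] at hq
      have a1 := hmem _ hq.1.1
      have a2 := hmem _ hq.1.2
      rw [Finset.mem_coe, Finset.mem_product, Finset.mem_product, Finset.mem_range,
        Finset.mem_range]
      refine ⟨hq.1.1, ?_, ?_⟩
      · show q.2.1 + r - q.1.1 < 2 * r + 1
        omega
      · show q.2.2 - q.2.1 < r + 1
        omega
    · intro q hq q' hq' hqq
      rw [Finset.mem_coe, hC, Finset.mem_filter, Finset.mem_product] at hq hq'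
      have a1 := hmem _ hq.1.1
      have a2 := hmem _ hq.1.2
      have a3 := hmem _ hq'.1.1
      have a4 := hmem _ hq'.1.2
      simp only [Prod.mk.injEq] at hqq
      obtain ⟨e1, e2, e3⟩ := hqq
      rw [e1] at e2 a1 hq
      have e4 : q.2.1 = q'.2.1 := by omega
      have e5 : q.2.2 = q'.2.2 := by omega
      exact Prod.ext e1 (Prod.ext e4 e5)
  have h4 : (P ×ˢ P).card ≤ A.card + B.card + C.card :=
    (Finset.card_le_card h1).trans ((Finset.card_union_le _ _).trans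
      (Nat.add_le_add_right (Finset.card_union_le _ _) _))
  rw [Finset.card_product, Finset.card_product, card_range, card_range] at h3
  rw [Finset.card_product] at h4
  have h5 : P.card ^ 2 ≤ 2 * A.card + ((2 * r + 1) * (r + 1)) * P.card := by
    rw [sq]
    calc P.card * P.card ≤ A.card + B.card + C.card := h4
      _ ≤ A.card + A.card + P.card * ((2 * r + 1) * (r + 1)) := by omega
      _ = 2 * A.card + ((2 * r + 1) * (r + 1)) * P.card := by ring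
  exact_mod_cast h5

end Pool.Agent.Lib.MP_06caae_pr
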