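import Pool.Agent.Lib.MP_06caae_pr.A.Two
import Pool.Agent.Lib.MP_06caae_pr.A.AvDef
import Pool.Agent.Lib.MP_06caae_pr.Trans
import Pool.Agent.Lib.MP_06caae_pr.Meas

/-!
# A11: displacement of the balls of the incipient infinite cluster

If `T_r(s) ≥ c₀ r` then the ball of radius `3 r` of the IIC has extrinsic radius at least `s` with
probability bounded below. Two-arm surgery with the second arm to `x`, averaged over `x`.
-/

open Finset SimpleGraph MeasureTheory Filter Topology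
open Pool.Agent.Lib.MP_566bac_pr.Zd

namespace Pool.Agent.Lib.MP_06caae_pr

variable {d : ℕ}

/-! ### the displacement event -/

lemma dp_of_openGraph {A : Set (Set (Ed d))} (h : ∀ S S' : Set (Ed d), openGraph S = openGraph S' → S ∈ A → S' ∈ A) :
    Dp (lattice d).edgeSet A := by
  intro S S' hS
  have h1 : openGraph S = openGraph S' := by
    rw [← openGraph_lat S, ← openGraph_lat S']
    congr 1
    ext e
    constructor
    · rintro ⟨h2, h3⟩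
      exact ⟨(hS e h3).1 h2, h3⟩
    · rintro ⟨h2, h3⟩
      exact ⟨(hS e h3).2 h2, h3⟩
  exact ⟨h S S' h1, h S' S h1.symm⟩

lemma rad_congr {S S' : Set (Ed d)} (h : openGraph S = openGraph S') (x : V d) (n : ℕ) : rad S x n = rad S' x n := by
  unfold rad
  rw [ball_congr h]

lemma rad_mono {S S' : Set (Ed d)} (h : S ⊆ S') (x : V d) (n : ℕ) : rad S x n ≤ rad S' x n := by
  unfold rad
  exact Finset.sup_mono (ball_mono h le_rfl)

lemma bdet_rad (x : V d) (n : ℕ) (s : ℝ) : BDet x n {S : Set (Ed d) | s ≤ (rad S x n : ℝ)} := by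
  rw [bdet_iff]
  exact (rev_ball x le_rfl).comp fun B => s ≤ ((B.sup fun y => dst x y : ℕ) : ℝ)

lemma loc_rad (x : V d) (n : ℕ) (s : ℝ) : Loc {S : Set (Ed d) | s ≤ (rad S x n : ℝ)} :=
  loc_of_bdet (bdet_rad x n s) fun S S' h hS => by
    show s ≤ (rad S' x n : ℝ)
    rw [← rad_congr h]
    exact hS

/-- the event of the surgery -/
def Dsp (x : V d) (n : ℕ) (s : ℝ) : Set (Set (Ed d)) := {S | s ≤ (rad S (0 : V d) n : ℝ)} ∩ {S | Con S 0 x}

lemma inc_dsp (x : V d) (n : ℕ) (s : ℝ) : Inc (Dsp x n s) := by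
  rintro S S' h ⟨h1, h2⟩
  refine ⟨?_, inc_Con 0 x S S' h h2⟩
  have h3 : (rad S (0 : V d) n : ℝ) ≤ rad S' 0 n := by exact_mod_cast rad_mono h 0 n
  exact le_trans h1 h3

lemma dp_dsp (x : V d) (n : ℕ) (s : ℝ) : Dp (lattice d).edgeSet (Dsp x n s) := by
  refine dp_of_openGraph fun S S' h hS => ⟨?_, ?_⟩
  · show s ≤ (rad S' 0 n : ℝ)
    rw [← rad_congr h]
    exact hS.1
  · show (openGraph S').Reachable 0 x
    rw [← h]
    exact hS.2

/-! ### counting -/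

lemma post_count (S : Set (Ed d)) (x : V d) (k r r' : ℕ) {s : ℝ} (X : Finset (V d)) (hX : ∀ y ∈ X, s ≤ (dst 0 y : ℝ)) :
    ∑ y ∈ X, ind (S ∈ Post y 0 x k r r') ≤
      (((r + 2 * k * d + 1) * (2 * k + 1) ^ d : ℕ) : ℝ) * ind (S ∈ Dsp x (r + 2 * k * d) s) := by
  classical
  have h4 : ∑ y ∈ X, ind (S ∈ Post y 0 x k r r') =
      ((X.filter (fun y => S ∈ Post y 0 x k r r')).card : ℝ) := by
    unfold ind
    rw [Finset.card_filter]
    push_cast
    rfl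
  rw [h4]
  rcases (X.filter (fun y => S ∈ Post y 0 x k r r')).eq_empty_or_nonempty with h5 | ⟨y₀, hy₀⟩
  · rw [h5, card_empty, Nat.cast_zero]
    exact mul_nonneg (Nat.cast_nonneg _) (ind_nonneg _)
  · rw [mem_filter] at hy₀
    have hy₀p := hy₀.2
    have h6 : S ∈ Dsp x (r + 2 * k * d) s := by
      refine ⟨?_, hy₀p.2.1.con⟩
      have h7 : y₀ ∈ ball S (0 : V d) (r + 2 * k * d) := mem_ball.2 (hy₀p.1 y₀ (self_mem_Lam y₀ k)).symm
      have h8 : (dst 0 y₀ : ℝ) ≤ rad S 0 (r + 2 * k * d) := by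
        exact_mod_cast (dst_le_rad h7)
      exact (hX y₀ hy₀.1).trans h8
    rw [ind_true h6, mul_one]
    refine Nat.cast_le.2 ?_
    obtain ⟨l, hl, g, hg⟩ := geo_exists hy₀p.2.1
    refine card_boxes (g := g) (c := 0) fun y hy => ?_
    rw [mem_filter] at hy
    obtain ⟨i, hi, hgi⟩ := hg.meets hy.2.2.2
    refine ⟨i, ?_, ?_⟩
    · have h7 := (hy.2.1 (g i) (mem_coe.1 hgi)).symm
      have h8 : Rch S (g 0) (r + 2 * k * d) (g i) := by
        rw [hg.1]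
        exact h7
      have := hg.le (Nat.zero_le i) hi h8
      omega
    · rw [sub_zero]
      exact mem_coe.1 hgi

/-- the upper bound after the surgery -/
lemma reach_upper {q : unitInterval} {k : ℕ} {e : V d} (he : e ∈ Lam (0 : V d) k) {r r' N : ℕ} (hN : r + k ≤ N)
    {s : ℝ} (X : Finset (V d)) (hXr : X ⊆ Lam 0 r) (hX : ∀ y ∈ X, s ≤ (dst 0 y : ℝ)) (x : V d) :
    (q : ℝ) ^ (Ein (Lam (0 : V d) k)).card * ∑ y ∈ X, PE (q : ℝ) (Ein (Lam 0 N))
        {S | Rch S y r 0 ∧ Rch S (y + e) r' x ∧ ¬ Con S y (y + e)} ≤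
      (((r + 2 * k * d + 1) * (2 * k + 1) ^ d : ℕ) : ℝ) * (perc q).real (Dsp x (r + 2 * k * d) s) := by
  classical
  have hp0 := q.2.1
  have hp1 := q.2.2
  have h1 : ∀ y ∈ X, (q : ℝ) ^ (Ein (Lam (0 : V d) k)).card * PE (q : ℝ) (Ein (Lam 0 N))
        {S | Rch S y r 0 ∧ Rch S (y + e) r' x ∧ ¬ Con S y (y + e)} ≤
      PE (q : ℝ) (Ein (Lam 0 N)) (Post y 0 x k r r') := by
    intro y hy
    apply pre_post hp0 hp1
    · intro z hz
      have h2 := mem_Lam.mp (hXr hy)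
      have h3 := mem_Lam.mp hz
      rw [mem_Lam]
      have := dst_tri z y 0
      omega
    · exact self_mem_Lam y k
    · rw [mem_Lam'] at he ⊢
      intro i
      have := he i
      simp only [Pi.add_apply, Pi.zero_apply] at this ⊢
      omega
  rw [mul_sum]
  refine (sum_le_sum h1).trans ?_
  have h2 : ∑ y ∈ X, PE (q : ℝ) (Ein (Lam 0 N)) (Post y 0 x k r r') =
      Ex (fun _ => (q : ℝ)) (Ein (Lam 0 N)) (fun S => ∑ y ∈ X, ind (S ∈ Post y 0 x k r r')) := by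
    rw [Ex_sum]
    apply sum_congr rfl
    intro y _
    rw [Ex_ind]
    rfl
  rw [h2]
  refine (Ex_mono (wt_p hp0 hp1) fun S => post_count S x k r r' X hX).trans ?_
  rw [Ex_mul, Ex_ind]
  exact mul_le_mul_of_nonneg_left (PE_le_perc q _ (inc_dsp x _ s) (dp_dsp x _ s)) (Nat.cast_nonneg _)

/-! ### the lower bound -/

/-- the lower bound for one starting point of the first arm -/
lemma reach_one {p : ℝ} (hp0 : 0 ≤ p) (hp1 : p ≤ 1) {e : V d} {r r' N : ℕ} (hN : 2 * r + r' + dst 0 e ≤ N)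
    {y : V d} (hy : y ∈ Lam (0 : V d) r) (x : V d) :
    ppi p r y * ppi p r' (x - (y + e)) -
      ∑ w ∈ (Lam 0 N : Finset (V d)), (∑ u ∈ Lam 0 (2 * r), ppi p r u * (tau p (u - y) * tau p (w - u) * tau p (w - y - e))) *
        tau p (x - w) ≤
      PE p (Ein (Lam 0 N)) {S | Rch S y r 0 ∧ Rch S (y + e) r' x ∧ ¬ Con S y (y + e)} := by
  have hyr : dst y 0 ≤ r := mem_Lam.mp hy
  have hye : dst (y + e) 0 ≤ r + dst 0 e := by
    have h1 := dst_tri (y + e) y 0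
    have h2 : dst (y + e) y = dst 0 e := by
      rw [dst_comm 0 e]
      unfold dst
      congr 1
      ext i
      simp
    omega
  have hv : y + e ∈ (Lam 0 N : Finset (V d)) := by
    rw [mem_Lam]
    omega
  have h2 := lower2 hp0 hp1 (W := (Lam 0 N : Finset (V d))) (v₁ := y) (v₂ := y + e) (a := 0) (a' := x) hv r r'
  have h3 : PE p (Ein (Lam (0 : V d) N)) {S | Rch S y r 0} = ppi p r y := by
    rw [PE_eq_ppi hp0 hp1, zero_sub, ppi_neg hp0 hp1]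
    intro z hz
    rw [mem_Lam]
    have a1 := mem_Lam.mp hz
    have a2 := dst_tri z y 0
    omega
  have h4 : PE p (Ein (Lam (0 : V d) N)) {S | Rch S (y + e) r' x} = ppi p r' (x - (y + e)) := by
    rw [PE_eq_ppi hp0 hp1]
    intro z hz
    rw [mem_Lam]
    have a1 := mem_Lam.mp hz
    have a2 := dst_tri z (y + e) 0
    omega
  rw [h3, h4] at h2
  refine le_trans (sub_le_sub_left (sum_le_sum fun w _ => ?_) _) h2
  have h11 : Lam y r ⊆ (Lam 0 (2 * r) : Finset (V d)) := by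
    intro z hz
    rw [mem_Lam] at hz ⊢
    have a2 := dst_tri z y 0
    omega
  have hn : ∀ u, 0 ≤ ppi p r u * (tau p (u - y) * tau p (w - u) * tau p (w - y - e)) := fun u =>
    mul_nonneg (ppi_nonneg hp0 hp1 _ _) (mul_nonneg (mul_nonneg
      (tau_nonneg hp0 hp1 _) (tau_nonneg hp0 hp1 _)) (tau_nonneg hp0 hp1 _))
  rw [← mul_assoc]
  refine mul_le_mul ?_ (ppi_le_tau hp0 hp1 r' _) (ppi_nonneg hp0 hp1 _ _) (sum_nonneg fun u _ => hn u)
  rw [sum_mul]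
  refine le_trans (sum_le_sum fun u _ => ?_) (Finset.sum_le_sum_of_subset_of_nonneg h11 fun u _ _ => hn u)
  rw [zero_sub, ppi_neg hp0 hp1]
  have a1 := ppi_le_tau hp0 hp1 r (u - y)
  have a2 : ppi p r' (w - (y + e)) ≤ tau p (w - y - e) := by
    rw [sub_sub]
    exact ppi_le_tau hp0 hp1 r' _
  have b2 := ppi_nonneg hp0 hp1 r' (w - (y + e))
  have b3 := ppi_nonneg hp0 hp1 r u
  have b4 := tau_nonneg hp0 hp1 (w - u)
  have b5 := tau_nonneg hp0 hp1 (u - y)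
  calc ppi p r (u - y) * ppi p r u * tau p (w - u) * ppi p r' (w - (y + e))
      = ppi p r u * (ppi p r (u - y) * tau p (w - u) * ppi p r' (w - (y + e))) := by ring
    _ ≤ ppi p r u * (tau p (u - y) * tau p (w - u) * tau p (w - y - e)) := by
        apply mul_le_mul_of_nonneg_left _ b3
        exact mul_le_mul (mul_le_mul_of_nonneg_right a1 b4) a2 b2 (mul_nonneg b5 b4)

/-- the error term, averaged -/
lemma reach_err {p : ℝ} (hp0 : 0 ≤ p) (hp1 : p ≤ 1) (hT : Tri d p) (e : V d) (r : ℕ) (X Y W : Finset (V d)) {h : ℝ}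
    (hh : ∀ w, ∑ x ∈ Y, tau p (x - w) ≤ h) :
    ∑ x ∈ Y, ∑ y ∈ X, ∑ w ∈ W, (∑ u ∈ (Lam 0 (2 * r) : Finset (V d)),
        ppi p r u * (tau p (u - y) * tau p (w - u) * tau p (w - y - e))) * tau p (x - w) ≤
      h * (GG d p r * nab p e) := by
  have hn : ∀ y w u, 0 ≤ ppi p r u * (tau p (u - y) * tau p (w - u) * tau p (w - y - e)) := fun y w u =>
    mul_nonneg (ppi_nonneg hp0 hp1 _ _) (mul_nonneg (mul_nonneg
      (tau_nonneg hp0 hp1 _) (tau_nonneg hp0 hp1 _)) (tau_nonneg hp0 hp1 _))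
  have hh0 : 0 ≤ h := (sum_nonneg fun x _ => tau_nonneg hp0 hp1 _).trans (hh 0)
  rw [sum_comm]
  have h1 : ∀ y ∈ X, ∑ x ∈ Y, ∑ w ∈ W, (∑ u ∈ (Lam 0 (2 * r) : Finset (V d)),
        ppi p r u * (tau p (u - y) * tau p (w - u) * tau p (w - y - e))) * tau p (x - w) ≤
      h * ∑ w ∈ W, ∑ u ∈ (Lam 0 (2 * r) : Finset (V d)),
        ppi p r u * (tau p (u - y) * tau p (w - u) * tau p (w - y - e)) := by
    intro y _
    rw [sum_comm, mul_sum]
    refine sum_le_sum fun w _ => ?_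
    rw [← mul_sum, mul_comm]
    exact mul_le_mul_of_nonneg_right (hh w) (sum_nonneg fun u _ => hn y w u)
  refine (sum_le_sum h1).trans ?_
  rw [← mul_sum]
  refine mul_le_mul_of_nonneg_left ?_ hh0
  have h2 : ∑ y ∈ X, ∑ w ∈ W, ∑ u ∈ (Lam 0 (2 * r) : Finset (V d)),
        ppi p r u * (tau p (u - y) * tau p (w - u) * tau p (w - y - e)) =
      ∑ u ∈ (Lam 0 (2 * r) : Finset (V d)), ppi p r u * ∑ y ∈ X, ∑ w ∈ W,
        tau p (u - y) * tau p (w - u) * tau p (w - y - e) := by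
    simp only [mul_sum]
    rw [sum_congr rfl fun y _ => sum_comm]
    rw [sum_comm]
  rw [h2]
  calc ∑ u ∈ (Lam 0 (2 * r) : Finset (V d)), ppi p r u * ∑ y ∈ X, ∑ w ∈ W,
        tau p (u - y) * tau p (w - u) * tau p (w - y - e)
      ≤ ∑ u ∈ (Lam 0 (2 * r) : Finset (V d)), ppi p r u * nab p e :=
        sum_le_sum fun u _ => mul_le_mul_of_nonneg_left (sum_loop hp0 hp1 hT e u X W) (ppi_nonneg hp0 hp1 _ _)
    _ = (∑ u ∈ (Lam 0 (2 * r) : Finset (V d)), ppi p r u) * nab p e := by rw [sum_mul]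
    _ ≤ GG d p r * nab p e :=
        mul_le_mul_of_nonneg_right (sum_ppi_le hp0 hp1 r _) (nab_nonneg hp0 hp1 e)

/-- finite averages, first arms of bounded length -/
lemma reach_fin {q : unitInterval} (hT : Tri d (q : ℝ)) {k : ℕ} {e : V d} (he : e ∈ Lam (0 : V d) k) (r r' : ℕ) {s : ℝ}
    (X : Finset (V d)) (hXr : X ⊆ Lam 0 r) (hX : ∀ y ∈ X, s ≤ (dst 0 y : ℝ)) (Y : Finset (V d)) {h : ℝ}
    (hh : ∀ w, ∑ x ∈ Y, tau (q : ℝ) (x - w) ≤ h) :
    (q : ℝ) ^ (Ein (Lam (0 : V d) k)).card * (∑ y ∈ X, ppi (q : ℝ) r y * ∑ x ∈ Y, ppi (q : ℝ) r' (x - (y + e)) -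
        h * (GG d (q : ℝ) r * nab (q : ℝ) e)) ≤
      (((r + 2 * k * d + 1) * (2 * k + 1) ^ d : ℕ) : ℝ) *
        ∑ x ∈ Y, (perc q).real (Dsp x (r + 2 * k * d) s) := by
  have hp0 := q.2.1
  have hp1 := q.2.2
  have hek : dst 0 e ≤ k := by
    rw [dst_comm]
    exact mem_Lam.1 he
  obtain ⟨N, hN⟩ : ∃ N, N = 2 * r + r' + k := ⟨_, rfl⟩
  have h1 := reach_err hp0 hp1 hT e r X Y (Lam 0 N : Finset (V d)) hh
  rw [mul_sum]
  refine le_trans ?_ (sum_le_sum fun x _ => reach_upper (q := q) he (r := r) (r' := r') (N := N) (by omega) X hXr hX x)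
  rw [← mul_sum]
  refine mul_le_mul_of_nonneg_left ?_ (pow_nonneg hp0 _)
  refine le_trans ?_ (sum_le_sum fun x _ => sum_le_sum fun y hy =>
    reach_one hp0 hp1 (e := e) (r := r) (r' := r') (N := N) (by omega) (hXr hy) x)
  simp only [sum_sub_distrib]
  have h2 : ∑ y ∈ X, ppi (q : ℝ) r y * ∑ x ∈ Y, ppi (q : ℝ) r' (x - (y + e)) =
      ∑ x ∈ Y, ∑ y ∈ X, ppi (q : ℝ) r y * ppi (q : ℝ) r' (x - (y + e)) := by
    rw [sum_comm]
    simp only [mul_sum]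
  rw [h2]
  linarith

lemma ppi_tendsto {p : ℝ} (hp0 : 0 ≤ p) (hp1 : p ≤ 1) (y : V d) :
    Tendsto (fun r => ppi p r y) atTop (𝓝 (tau p y)) := by
  rw [Metric.tendsto_atTop]
  intro ε hε
  obtain ⟨N, hN⟩ := tau_le_ppi hp0 hp1 y (show 0 < ε / 2 by positivity)
  refine ⟨N, fun n hn => ?_⟩
  have h1 := hN n hn
  have h2 := ppi_le_tau hp0 hp1 n y
  rw [Real.dist_eq, abs_lt]
  constructor <;> linarith

/-- finite averages -/
lemma reach_avg {q : unitInterval} (hT : Tri d (q : ℝ)) {k : ℕ} {e : V d} (he : e ∈ Lam (0 : V d) k) (r : ℕ) {s : ℝ}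
    (X : Finset (V d)) (hXr : X ⊆ Lam 0 r) (hX : ∀ y ∈ X, s ≤ (dst 0 y : ℝ)) (Y : Finset (V d)) {h : ℝ}
    (hh : ∀ w, ∑ x ∈ Y, tau (q : ℝ) (x - w) ≤ h) :
    (q : ℝ) ^ (Ein (Lam (0 : V d) k)).card * (∑ y ∈ X, ppi (q : ℝ) r y * ∑ x ∈ Y, tau (q : ℝ) (x - (y + e)) -
        h * (GG d (q : ℝ) r * nab (q : ℝ) e)) ≤
      (((r + 2 * k * d + 1) * (2 * k + 1) ^ d : ℕ) : ℝ) *
        ∑ x ∈ Y, (perc q).real (Dsp x (r + 2 * k * d) s) := by
  have h1 : Tendsto (fun r' => (q : ℝ) ^ (Ein (Lam (0 : V d) k)).card *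
      (∑ y ∈ X, ppi (q : ℝ) r y * ∑ x ∈ Y, ppi (q : ℝ) r' (x - (y + e)) -
        h * (GG d (q : ℝ) r * nab (q : ℝ) e))) atTop (𝓝 ((q : ℝ) ^ (Ein (Lam (0 : V d) k)).card *
      (∑ y ∈ X, ppi (q : ℝ) r y * ∑ x ∈ Y, tau (q : ℝ) (x - (y + e)) -
        h * (GG d (q : ℝ) r * nab (q : ℝ) e)))) := by
    refine Tendsto.const_mul _ (Tendsto.sub_const ?_ _)
    refine tendsto_finset_sum _ fun y _ => Tendsto.const_mul _ (tendsto_finset_sum _ fun x _ => ?_)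
    exact ppi_tendsto q.2.1 q.2.2 _
  exact le_of_tendsto' h1 fun r' => reach_fin hT he r r' X hXr hX Y hh

/-! ### the limit -/

/-- the inequality for the incipient infinite cluster -/
theorem reach_iic {q : unitInterval} {ν : Measure (Set (Ed d))} (hν : IsIIC q ν) (hq : 0 < (q : ℝ)) (hd : 0 < d)
    (hT : Tri d (q : ℝ)) {Y : ℕ → Finset (V d)} (hY : AvSets (q : ℝ) Y) (e : V d) (r : ℕ) (s : ℝ) :
    (q : ℝ) ^ (Ein (Lam (0 : V d) (dst 0 e))).card * (TT d (q : ℝ) r s - 2 * (GG d (q : ℝ) r * nab (q : ℝ) e)) ≤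
      (((r + 2 * dst 0 e * d + 1) * (2 * dst 0 e + 1) ^ d : ℕ) : ℝ) *
        ν.real {S | s ≤ (rad S (0 : V d) (r + 2 * dst 0 e * d) : ℝ)} := by
  classical
  have hp0 := q.2.1
  have hp1 := q.2.2
  obtain ⟨k, hk⟩ : ∃ k, k = dst 0 e := ⟨_, rfl⟩
  rw [← hk]
  have he : e ∈ Lam (0 : V d) k := by
    rw [mem_Lam, dst_comm, hk]
  obtain ⟨X, hXdef⟩ : ∃ X : Finset (V d), X = (Lam 0 r : Finset (V d)).filter (fun y => s ≤ (dst 0 y : ℝ)) := ⟨_, rfl⟩
  have hXr : X ⊆ Lam 0 r := by rw [hXdef]; exact filter_subset _ _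
  have hXs : ∀ y ∈ X, s ≤ (dst 0 y : ℝ) := by
    intro y hy
    rw [hXdef, mem_filter] at hy
    exact hy.2
  have hTT : TT d (q : ℝ) r s = ∑ y ∈ X, ppi (q : ℝ) r y := by
    rw [hXdef]
    rfl
  have hτ : ∀ x : V d, 0 < tau (q : ℝ) x := fun x => tau_pos hq hp1 x
  obtain ⟨h, hh⟩ : ∃ h : ℕ → ℝ, ∀ n, h n = ∑ x ∈ Y n, tau (q : ℝ) x := ⟨_, fun _ => rfl⟩
  have hh0 : ∀ n, 0 ≤ h n := fun n => by
    rw [hh]
    exact sum_nonneg fun x _ => (hτ x).le
  -- the main term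
  have t1 : ∀ w : V d, Tendsto (fun n => (∑ x ∈ Y n, tau (q : ℝ) (x - w)) / h n) atTop (𝓝 1) := by
    intro w
    have h1 := hY.2 (fun x => tau (q : ℝ) (x - w) / tau (q : ℝ) x) (1 / tau (q : ℝ) w) 1 (fun x => ?_)
      (tau_ratio hν hq hd w)
    · refine h1.congr fun n => ?_
      rw [hh]
      congr 1
      refine sum_congr rfl fun x _ => ?_
      have := (hτ x).ne'
      field_simp
    · rw [abs_of_nonneg (div_nonneg (hτ _).le (hτ _).le), div_le_div_iff₀ (hτ x) (hτ w), one_mul]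
      have h2 := tau_mul_le hp0 hp1 (x - w) w
      rwa [sub_add_cancel] at h2
  have t2 : Tendsto (fun n => ∑ y ∈ X, ppi (q : ℝ) r y * ((∑ x ∈ Y n, tau (q : ℝ) (x - (y + e))) / h n)) atTop
      (𝓝 (TT d (q : ℝ) r s)) := by
    have h1 : Tendsto (fun n => ∑ y ∈ X, ppi (q : ℝ) r y * ((∑ x ∈ Y n, tau (q : ℝ) (x - (y + e))) / h n)) atTop
      (𝓝 (∑ y ∈ X, ppi (q : ℝ) r y * 1)) :=
      tendsto_finset_sum _ fun y _ => (t1 (y + e)).const_mul _
    rw [hTT]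
    simpa only [mul_one] using h1
  -- the right-hand side
  have t3 : Tendsto (fun n => (∑ x ∈ Y n, (perc q).real (Dsp x (r + 2 * k * d) s)) / h n) atTop
      (𝓝 (ν.real {S | s ≤ (rad S (0 : V d) (r + 2 * k * d) : ℝ)})) := by
    have h3 := hν.lim _ (loc_rad (0 : V d) (r + 2 * k * d) s)
    simp only [perc_con0] at h3
    have h1 := hY.2 (fun x => (perc q).real (Dsp x (r + 2 * k * d) s) / tau (q : ℝ) x) 1 _ (fun x => ?_) h3
    · refine h1.congr fun n => ?_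
      rw [hh]
      congr 1
      refine sum_congr rfl fun x _ => ?_
      have := (hτ x).ne'
      field_simp
    · rw [abs_of_nonneg (div_nonneg measureReal_nonneg (hτ _).le), div_le_one (hτ x), ← perc_con0 q x]
      exact perc_mono q Set.inter_subset_right
  have t4 := ((t2.sub_const (2 * (GG d (q : ℝ) r * nab (q : ℝ) e))).const_mul ((q : ℝ) ^ (Ein (Lam (0 : V d) k)).card))
  have t5 := t3.const_mul (((r + 2 * k * d + 1) * (2 * k + 1) ^ d : ℕ) : ℝ)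
  refine le_of_tendsto_of_tendsto' t4 t5 fun n => ?_
  have h1 := reach_avg hT he r X hXr hXs (Y n) (h := 2 * h n) (fun w => by rw [hh]; exact hY.1 n w)
  rcases (hh0 n).eq_or_lt with h2 | h2
  · rw [← h2, div_zero, mul_zero]
    simp only [div_zero, mul_zero, sum_const_zero, zero_sub]
    have h3 : 0 ≤ GG d (q : ℝ) r * nab (q : ℝ) e := mul_nonneg (GG_nonneg hp0 hp1 r) (nab_nonneg hp0 hp1 e)
    have h4 : 0 ≤ (q : ℝ) ^ (Ein (Lam (0 : V d) k)).card := pow_nonneg hp0 _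
    nlinarith
  · have h3 : (q : ℝ) ^ (Ein (Lam (0 : V d) k)).card * (∑ y ∈ X, ppi (q : ℝ) r y *
        ((∑ x ∈ Y n, tau (q : ℝ) (x - (y + e))) / h n) - 2 * (GG d (q : ℝ) r * nab (q : ℝ) e)) =
        (q : ℝ) ^ (Ein (Lam (0 : V d) k)).card * (∑ y ∈ X, ppi (q : ℝ) r y * ∑ x ∈ Y n, tau (q : ℝ) (x - (y + e)) -
        2 * h n * (GG d (q : ℝ) r * nab (q : ℝ) e)) / h n := by
      have h4 : ∑ y ∈ X, ppi (q : ℝ) r y * ((∑ x ∈ Y n, tau (q : ℝ) (x - (y + e))) / h n) =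
          (∑ y ∈ X, ppi (q : ℝ) r y * ∑ x ∈ Y n, tau (q : ℝ) (x - (y + e))) / h n := by
        rw [sum_div]
        refine sum_congr rfl fun y _ => ?_
        rw [mul_div_assoc]
      rw [h4]
      field_simp
    rw [h3, ← mul_div_assoc]
    exact div_le_div_of_nonneg_right h1 h2.le

/-- **A11.** -/
theorem reachI {q : unitInterval} {ν : Measure (Set (Ed d))} (hν : IsIIC q ν) (hq : 0 < (q : ℝ)) (hd : 0 < d)
    (hT : Tri d (q : ℝ)) {Y : ℕ → Finset (V d)} (hY : AvSets (q : ℝ) Y) {C1 : ℝ}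
    (hG : ∀ r : ℕ, 1 ≤ r → GG d (q : ℝ) r ≤ C1 * r) {c₀ : ℝ} (hc₀ : 0 < c₀) :
    ∃ c₃ : ℝ, 0 < c₃ ∧ ∃ s₂ : ℝ, ∀ (r : ℕ) (s : ℝ), s₂ ≤ r → s₂ ≤ s → c₀ * r ≤ TT d (q : ℝ) r s →
      c₃ ≤ ν.real {S | s / 3 ≤ (rad S (0 : V d) (3 * r) : ℝ)} := by
  have hp0 := q.2.1
  have hp1 := q.2.2
  have := hν.prob
  obtain ⟨K, hK⟩ : ∃ K, K = |C1| + 1 := ⟨_, rfl⟩
  have hK0 : 0 < K := by rw [hK]; positivity
  have hC1K : C1 ≤ K := by
    rw [hK]
    linarith [le_abs_self C1]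
  obtain ⟨R, hR⟩ := nab_small hp0 hp1 hT (show 0 < c₀ / (4 * K) by positivity)
  obtain ⟨e, heR⟩ : ∃ e : V d, R ≤ dst 0 e := by
    refine ⟨fun _ => (R : ℤ), ?_⟩
    have h1 := le_dst (0 : V d) (fun _ => (R : ℤ)) ⟨0, hd⟩
    simpa using h1
  have hne := hR e heR
  obtain ⟨k, hk⟩ : ∃ k, k = dst 0 e := ⟨_, rfl⟩
  obtain ⟨cL, hcL⟩ : ∃ cL : ℝ, cL = (q : ℝ) ^ (Ein (Lam (0 : V d) k)).card := ⟨_, rfl⟩
  have hcL0 : 0 < cL := by rw [hcL]; exact pow_pos hq _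
  obtain ⟨D, hD⟩ : ∃ D : ℝ, D = ((2 * k * d + 2) * (2 * k + 1) ^ d : ℕ) := ⟨_, rfl⟩
  have hD0 : 0 < D := by
    rw [hD]
    exact_mod_cast (by positivity : 0 < (2 * k * d + 2) * (2 * k + 1) ^ d)
  refine ⟨cL * c₀ / (2 * D), by positivity, (k * d + 1 : ℕ), fun r s hr hs hTT => ?_⟩
  have hr' : k * d + 1 ≤ r := by exact_mod_cast hr
  have hr1 : 1 ≤ r := by omega
  have hr0 : (0 : ℝ) < r := by exact_mod_cast hr1
  have hs0 : 0 ≤ s := (Nat.cast_nonneg _).trans hs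
  have h1 := reach_iic hν hq hd hT hY e r s
  rw [← hk, ← hcL] at h1
  have h2 : GG d (q : ℝ) r * nab (q : ℝ) e ≤ c₀ / 4 * r := by
    calc GG d (q : ℝ) r * nab (q : ℝ) e ≤ (K * r) * (c₀ / (4 * K)) :=
          mul_le_mul ((hG r hr1).trans (mul_le_mul_of_nonneg_right hC1K hr0.le)) hne (nab_nonneg hp0 hp1 e) (by positivity)
      _ = c₀ / 4 * r := by field_simp
  have h3 : cL * (c₀ / 2 * r) ≤ cL * (TT d (q : ℝ) r s - 2 * (GG d (q : ℝ) r * nab (q : ℝ) e)) := by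
    refine mul_le_mul_of_nonneg_left ?_ hcL0.le
    linarith
  have h4 : (((r + 2 * k * d + 1) * (2 * k + 1) ^ d : ℕ) : ℝ) ≤ D * r := by
    rw [hD]
    have h5 : (r + 2 * k * d + 1) * (2 * k + 1) ^ d ≤ ((2 * k * d + 2) * (2 * k + 1) ^ d) * r := by
      calc (r + 2 * k * d + 1) * (2 * k + 1) ^ d ≤ ((2 * k * d + 2) * r) * (2 * k + 1) ^ d := by
            apply Nat.mul_le_mul_right
            have h10 : 2 * k * d ≤ 2 * k * d * r := Nat.le_mul_of_pos_right _ hr1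
            rw [add_mul]
            omega
        _ = _ := by ring
    exact_mod_cast h5
  have h5 : ν.real {S | s ≤ (rad S (0 : V d) (r + 2 * k * d) : ℝ)} ≤ ν.real {S | s / 3 ≤ (rad S (0 : V d) (3 * r) : ℝ)} := by
    refine measureReal_mono (fun S hS => ?_) (measure_ne_top _ _)
    have h6 : s ≤ (rad S (0 : V d) (r + 2 * k * d) : ℝ) := hS
    have h7 : rad S (0 : V d) (r + 2 * k * d) ≤ rad S 0 (3 * r) := by
      unfold rad
      refine Finset.sup_mono (ball_mono subset_rfl ?_)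
      have : 2 * k * d = 2 * (k * d) := by ring
      omega
    have h8 : (rad S (0 : V d) (r + 2 * k * d) : ℝ) ≤ rad S 0 (3 * r) := by exact_mod_cast h7
    show s / 3 ≤ (rad S (0 : V d) (3 * r) : ℝ)
    linarith
  have h6 : cL * (c₀ / 2 * r) ≤ D * r * ν.real {S | s / 3 ≤ (rad S (0 : V d) (3 * r) : ℝ)} :=
    h3.trans (h1.trans (mul_le_mul h4 h5 measureReal_nonneg (by positivity)))
  rw [div_le_iff₀ (by positivity)]
  have h7 : (cL * c₀) * r ≤ (ν.real {S | s / 3 ≤ (rad S (0 : V d) (3 * r) : ℝ)} * (2 * D)) * r := by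
    nlinarith
  exact le_of_mul_le_mul_right h7 hr0

end Pool.Agent.Lib.MP_06caae_pr
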