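import Pool.Agent.Lib.MP_06caae_pr.A.Err
import Pool.Agent.Lib.MP_06caae_pr.A.First
import Pool.Agent.Lib.MP_06caae_pr.A.Moms
import Pool.Agent.Lib.MP_06caae_pr.A.Gup
import Pool.Agent.Lib.MP_06caae_pr.A.Growth

/-!
# The three-piece inequality
-/

open Finset SimpleGraph
open Pool.Agent.Lib.MP_566bac_pr.Zd

namespace Pool.Agent.Lib.MP_06caae_pr

variable {d : ℕ}

lemma dst_zero_le {x : V d} {n : ℕ} : dst 0 x ≤ n ↔ ∀ i, |x i| ≤ n := by
  rw [dst_le]
  refine forall_congr' fun i => ?_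
  rw [Pi.zero_apply, zero_sub, abs_neg]

lemma dst_zero_add (x y : V d) : dst 0 (x + y) ≤ dst 0 x + dst 0 y := by
  rw [dst_zero_le]
  intro i
  have h1 := dst_zero_le.mp (le_refl (dst 0 x)) i
  have h2 := dst_zero_le.mp (le_refl (dst 0 y)) i
  rw [Pi.add_apply]
  push_cast
  exact (abs_add_le _ _).trans (add_le_add h1 h2)

lemma dst_zero_neg (x : V d) : dst 0 (-x) = dst 0 x := by
  apply le_antisymm
  · rw [dst_zero_le]
    intro i
    rw [Pi.neg_apply, abs_neg]
    exact dst_zero_le.mp (le_refl (dst 0 x)) i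
  · rw [dst_zero_le]
    intro i
    have := dst_zero_le.mp (le_refl (dst 0 (-x))) i
    rwa [Pi.neg_apply, abs_neg] at this

lemma dst_sub_eq (x y : V d) : dst x y = dst 0 (y - x) := by
  unfold dst
  apply congrArg
  ext i
  simp only [Pi.zero_apply, Pi.sub_apply]
  omega

/-- the reflection principle -/
lemma dst_reflect (A x : V d) : 2 * dst 0 x ≤ dst 0 (A + x) + dst 0 (A - x) := by
  have h1 : dst 0 x ≤ (dst 0 (A + x) + dst 0 (A - x)) / 2 := by
    rw [dst_zero_le]
    intro i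
    have h2 := dst_zero_le.mp (le_refl (dst 0 (A + x))) i
    have h3 := dst_zero_le.mp (le_refl (dst 0 (A - x))) i
    rw [Pi.add_apply, abs_le] at h2
    rw [Pi.sub_apply, abs_le] at h3
    rw [abs_le]
    omega
  omega

lemma neg_mem_Xf {r : ℕ} {s : ℝ} {x : V d} (h : x ∈ (Xf r s : Finset (V d))) :
    -x ∈ (Xf r s : Finset (V d)) := by
  rw [mem_Xf] at h ⊢
  refine ⟨?_, ?_⟩
  · have h1 := h.1
    rw [mem_Lam, dst_comm] at h1 ⊢
    rw [dst_zero_neg]
    exact h1
  · rw [dst_zero_neg]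
    exact h.2

open Classical in
/-- at least one half of the middle pieces increase the displacement -/
lemma half_far {p : ℝ} (hp0 : 0 ≤ p) (hp1 : p ≤ 1) (r : ℕ) (s : ℝ) (A : V d) :
    TT d p r s ≤ 2 * ∑ x ∈ (Xf r s : Finset (V d)),
      (if s ≤ (dst 0 (A + x) : ℝ) then ppi p r x else 0) := by
  have h1 : ∑ x ∈ (Xf r s : Finset (V d)), (if s ≤ (dst 0 (A + x) : ℝ) then ppi p r x else 0) =
      ∑ x ∈ (Xf r s : Finset (V d)), (if s ≤ (dst 0 (A - x) : ℝ) then ppi p r x else 0) := by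
    refine Finset.sum_bij' (fun x _ => -x) (fun x _ => -x) ?_ ?_ ?_ ?_ ?_
    · exact fun x hx => neg_mem_Xf hx
    · exact fun x hx => neg_mem_Xf hx
    · intro x _
      simp
    · intro x _
      simp
    · intro x _
      simp only [sub_neg_eq_add, ppi_neg hp0 hp1]
  have h2 : TT d p r s ≤ ∑ x ∈ (Xf r s : Finset (V d)),
      ((if s ≤ (dst 0 (A + x) : ℝ) then ppi p r x else 0) +
        (if s ≤ (dst 0 (A - x) : ℝ) then ppi p r x else 0)) := by
    rw [TT_Xf]
    apply sum_le_sum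
    intro x hx
    have h3 := (mem_Xf.mp hx).2
    have h4 := dst_reflect A x
    have h5 := ppi_nonneg (d := d) hp0 hp1 r x
    by_cases h6 : s ≤ (dst 0 (A + x) : ℝ)
    · rw [if_pos h6]
      split_ifs <;> linarith
    · rw [if_neg h6, if_pos]
      · linarith
      · have h7 : 2 * (dst 0 x : ℝ) ≤ (dst 0 (A + x) : ℝ) + (dst 0 (A - x) : ℝ) := by
          exact_mod_cast h4
        linarith
  rw [sum_add_distrib, ← h1] at h2
  linarith

/-- the probability of three arms -/
noncomputable def F3 (p : ℝ) (N k R r : ℕ) (e v x w : V d) : ℝ :=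
  PE p (Ein (Lam (0 : V d) N)) (Pre3 (Lam v k) (Lam (v + e + x) k) v (v + e) (v + e + x)
    (v + e + x + e) 0 (v + e + x + e + w) R r)

lemma lower3' {p : ℝ} (hp0 : 0 ≤ p) (hp1 : p ≤ 1) {N k R r : ℕ} {e v x w : V d}
    (hN : 2 * R + 2 * k + r ≤ N) (he : dst 0 e ≤ k) (hv : v ∈ (Lam 0 R : Finset (V d)))
    (hx : x ∈ (Lam 0 r : Finset (V d))) :
    ppi p R v * ppi p r x * ppi p R w ≤ F3 p N k R r e v x w +
      ((∑ z ∈ (Lam 0 N : Finset (V d)), tree p v 0 R z *
          (ppi p r (z - (v + e)) * ppi p r (v + e + x - z))) * ppi p R w +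
        ∑ z ∈ (Lam 0 N : Finset (V d)), tree p v 0 R z * ppi p r x *
          (ppi p R (z - (v + e + x + e)) * ppi p R (v + e + x + e + w - z)) +
        ∑ z ∈ (Lam 0 N : Finset (V d)), ppi p R v * tree p (v + e) (v + e + x) r z *
          (ppi p R (z - (v + e + x + e)) * ppi p R (v + e + x + e + w - z)) +
        ∑ q ∈ (Lam 0 k : Finset (V d)), tree p v 0 R (v + e + x + q) * ppi p r x * ppi p R w +
        ∑ q ∈ (Lam 0 k : Finset (V d)), ppi p R v * ppi p r x *
          tree p (v + e + x + e) (v + e + x + e + w) R (v + q)) := by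
  classical
  have hv1 : dst 0 v ≤ R := by rw [dst_comm]; exact mem_Lam.mp hv
  have hx1 : dst 0 x ≤ r := by rw [dst_comm]; exact mem_Lam.mp hx
  have a1 := dst_zero_add v e
  have a2 := dst_zero_add (v + e) x
  have a3 := dst_zero_add (v + e + x) e
  have sub : ∀ (c : V d) (n : ℕ), dst 0 c + n ≤ N → Lam c n ⊆ (Lam 0 N : Finset (V d)) := by
    intro c n hc y hy
    rw [mem_Lam] at hy ⊢
    have b1 := dst_tri y c 0
    have b2 := dst_comm c 0
    omega
  have mem : ∀ c : V d, dst 0 c ≤ N → c ∈ (Lam 0 N : Finset (V d)) := by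
    intro c hc
    rw [mem_Lam, dst_comm]
    exact hc
  have h := lower3 hp0 hp1 (W := Lam 0 N) (v₁ := v) (v₂ := v + e) (v₂' := v + e + x)
    (v₃ := v + e + x + e) (a := 0) (y := v + e + x + e + w) (mem _ (by omega)) (mem _ (by omega))
    (Lam v k) (Lam (v + e + x) k) R r
  rw [PE_eq_ppi hp0 hp1 (sub v R (by omega)), PE_eq_ppi hp0 hp1 (sub (v + e) r (by omega)),
    PE_eq_ppi hp0 hp1 (sub (v + e + x + e) R (by omega))] at h
  have shift : ∀ (c : V d) (f : V d → ℝ), ∑ q ∈ Lam c k, f q =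
      ∑ q ∈ (Lam 0 k : Finset (V d)), f (c + q) := by
    intro c f
    symm
    refine Finset.sum_bij' (fun q _ => c + q) (fun q _ => q - c) ?_ ?_ ?_ ?_ ?_
    · intro q hq
      rw [mem_Lam'] at hq ⊢
      intro i
      have := hq i
      simp only [Pi.zero_apply, Pi.add_apply] at this ⊢
      omega
    · intro q hq
      rw [mem_Lam'] at hq ⊢
      intro i
      have := hq i
      simp only [Pi.zero_apply, Pi.sub_apply] at this ⊢
      omega
    · intro q _
      simp
    · intro q _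
      simp
    · intro q _
      rfl
  rw [shift v, shift (v + e + x)] at h
  simp only [zero_sub, ppi_neg hp0 hp1, add_sub_cancel_left] at h
  unfold F3
  exact h

open Classical in
/-- **The first moment from below.** -/
theorem sum_F3_lower {p : ℝ} (hp0 : 0 ≤ p) (hp1 : p ≤ 1) (hT : Tri d p) {N k R r l : ℕ} {e : V d}
    {s δ : ℝ} (hN : 2 * R + 2 * k + r ≤ N) (he : dst 0 e ≤ k)
    (hδ : ∀ z : V d, s - 3 * k ≤ (dst 0 z : ℝ) → nab p z ≤ δ) :
    GG d p R ^ 2 * TT d p r s ≤
      2 * (∑ v ∈ (Lam 0 R : Finset (V d)), ∑ x ∈ (Xf r s : Finset (V d)),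
        ∑ w ∈ (Lam 0 R : Finset (V d)),
          (if s ≤ (dst 0 (v + e + x + e + w) : ℝ) then F3 p N k R r e v x w else 0)) +
      2 * (GG d p R ^ 2 * (2 * (nab p e * TT d p r (s - l) + nabt p l e * GG d p r) +
        (1 + 2 * ((2 * k + 1) ^ d : ℕ)) * δ * TT d p r s)) := by
  have hn := fun r y => ppi_nonneg (d := d) hp0 hp1 r y
  have ht := fun y => tau_nonneg (d := d) hp0 hp1 y
  have hG := GG_nonneg (d := d) hp0 hp1
  have htr := fun (x a : V d) (r : ℕ) (w : V d) => tree_nonneg (d := d) hp0 hp1 x a r w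
  set L := (Lam 0 R : Finset (V d)) with hL
  set K := (Lam 0 k : Finset (V d)) with hK
  have he' : (dst 0 e : ℝ) ≤ k := by exact_mod_cast he
  -- the reflection
  have h1 : GG d p R ^ 2 * TT d p r s ≤ 2 * ∑ v ∈ L, ∑ x ∈ (Xf r s : Finset (V d)), ∑ w ∈ L,
      (if s ≤ (dst 0 (v + e + x + e + w) : ℝ) then ppi p R v * ppi p r x * ppi p R w else 0) := by
    have e1 : ∀ v ∈ L, ∑ x ∈ (Xf r s : Finset (V d)), ∑ w ∈ L,
        (if s ≤ (dst 0 (v + e + x + e + w) : ℝ) then
          ppi p R v * ppi p r x * ppi p R w else 0) =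
        ∑ w ∈ L, (ppi p R v * ppi p R w) * ∑ x ∈ (Xf r s : Finset (V d)),
          (if s ≤ (dst 0 ((v + e + e + w) + x) : ℝ) then ppi p r x else 0) := by
      intro v _
      rw [sum_comm]
      apply sum_congr rfl
      intro w _
      rw [mul_sum]
      apply sum_congr rfl
      intro x _
      have : v + e + x + e + w = (v + e + e + w) + x := by abel
      rw [this]
      split_ifs
      · ring
      · ring
    rw [sum_congr rfl e1]
    have e2 : GG d p R ^ 2 * TT d p r s = ∑ v ∈ L, ∑ w ∈ L,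
        (ppi p R v * ppi p R w) * TT d p r s := by
      have e3 : GG d p R = ∑ v ∈ L, ppi p R v := rfl
      simp only [← sum_mul]
      rw [sq, e3, Finset.sum_mul_sum]
    rw [e2, mul_sum]
    apply sum_le_sum
    intro v _
    rw [mul_sum]
    apply sum_le_sum
    intro w _
    rw [mul_left_comm]
    exact mul_le_mul_of_nonneg_left (half_far hp0 hp1 r s (v + e + e + w))
      (mul_nonneg (hn _ _) (hn _ _))
  -- the pointwise bound
  have h2 : ∀ v ∈ L, ∀ x ∈ (Xf r s : Finset (V d)), ∀ w ∈ L,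
      (if s ≤ (dst 0 (v + e + x + e + w) : ℝ) then ppi p R v * ppi p r x * ppi p R w else 0) ≤
      (if s ≤ (dst 0 (v + e + x + e + w) : ℝ) then F3 p N k R r e v x w else 0) +
      ((∑ z ∈ (Lam 0 N : Finset (V d)), tree p v 0 R z *
          (ppi p r (z - (v + e)) * ppi p r (v + e + x - z))) * ppi p R w +
        ∑ z ∈ (Lam 0 N : Finset (V d)), tree p v 0 R z * ppi p r x *
          (ppi p R (z - (v + e + x + e)) * ppi p R (v + e + x + e + w - z)) +
        ∑ z ∈ (Lam 0 N : Finset (V d)), ppi p R v * tree p (v + e) (v + e + x) r z *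
          (ppi p R (z - (v + e + x + e)) * ppi p R (v + e + x + e + w - z)) +
        ∑ q ∈ K, tree p v 0 R (v + e + x + q) * ppi p r x * ppi p R w +
        ∑ q ∈ K, ppi p R v * ppi p r x *
          tree p (v + e + x + e) (v + e + x + e + w) R (v + q)) := by
    intro v hv x hx w _
    split_ifs with h
    · exact lower3' hp0 hp1 hN he hv (mem_Xf.mp hx).1
    · rw [zero_add]
      have b1 : 0 ≤ (∑ z ∈ (Lam 0 N : Finset (V d)), tree p v 0 R z *
          (ppi p r (z - (v + e)) * ppi p r (v + e + x - z))) * ppi p R w :=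
        mul_nonneg (sum_nonneg fun z _ => mul_nonneg (htr _ _ _ _)
          (mul_nonneg (hn _ _) (hn _ _))) (hn _ _)
      have b2 : 0 ≤ ∑ z ∈ (Lam 0 N : Finset (V d)), tree p v 0 R z * ppi p r x *
          (ppi p R (z - (v + e + x + e)) * ppi p R (v + e + x + e + w - z)) :=
        sum_nonneg fun z _ => mul_nonneg (mul_nonneg (htr _ _ _ _) (hn _ _))
          (mul_nonneg (hn _ _) (hn _ _))
      have b3 : 0 ≤ ∑ z ∈ (Lam 0 N : Finset (V d)),
          ppi p R v * tree p (v + e) (v + e + x) r z *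
          (ppi p R (z - (v + e + x + e)) * ppi p R (v + e + x + e + w - z)) :=
        sum_nonneg fun z _ => mul_nonneg (mul_nonneg (hn _ _) (htr _ _ _ _))
          (mul_nonneg (hn _ _) (hn _ _))
      have b4 : 0 ≤ ∑ q ∈ K, tree p v 0 R (v + e + x + q) * ppi p r x * ppi p R w :=
        sum_nonneg fun z _ => mul_nonneg (mul_nonneg (htr _ _ _ _) (hn _ _)) (hn _ _)
      have b5 : 0 ≤ ∑ q ∈ K, ppi p R v * ppi p r x *
          tree p (v + e + x + e) (v + e + x + e + w) R (v + q) :=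
        sum_nonneg fun z _ => mul_nonneg (mul_nonneg (hn _ _) (hn _ _)) (htr _ _ _ _)
      linarith
  have h3 := sum_le_sum fun v hv => sum_le_sum fun x hx => sum_le_sum fun w hw => h2 v hv x hx w hw
  simp only [sum_add_distrib] at h3
  -- the errors
  have f1 := err12 hp0 hp1 hT e R r l s (Lam 0 N : Finset (V d))
  have f2 := err13 hp0 hp1 hT e R r s δ (Lam 0 N : Finset (V d)) (by
    intro x hx
    apply hδ
    have c1 := (mem_Xf.mp hx).2
    have c2 := dst_zero_add (e + x + e) (-(e + e))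
    have c3 : e + x + e + -(e + e) = x := by abel
    rw [c3, dst_zero_neg] at c2
    have c4 := dst_zero_add e e
    have c5 : (dst 0 x : ℝ) ≤ (dst 0 (e + x + e) : ℝ) + ((dst 0 e : ℝ) + (dst 0 e : ℝ)) := by
      have : dst 0 x ≤ dst 0 (e + x + e) + (dst 0 e + dst 0 e) := by omega
      exact_mod_cast this
    have c6 : (0 : ℝ) ≤ k := Nat.cast_nonneg k
    linarith)
  have f3 := err23 hp0 hp1 hT e R r l s (Lam 0 N : Finset (V d))
  have f4 := errQ' hp0 hp1 hT e R r k s δ (by
    intro x hx q hq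
    apply hδ
    have c1 := (mem_Xf.mp hx).2
    have c2 := dst_zero_add (e + x + q) (-(e + q))
    have c3 : e + x + q + -(e + q) = x := by abel
    rw [c3, dst_zero_neg] at c2
    have c4 := dst_zero_add e q
    have c7 : dst 0 q ≤ k := by rw [dst_comm]; exact mem_Lam.mp hq
    have c5 : (dst 0 x : ℝ) ≤ (dst 0 (e + x + q) : ℝ) + ((k : ℝ) + (k : ℝ)) := by
      have : dst 0 x ≤ dst 0 (e + x + q) + (k + k) := by omega
      exact_mod_cast this
    have c6 : (0 : ℝ) ≤ k := Nat.cast_nonneg k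
    linarith)
  have f5 := errQ hp0 hp1 hT e R r k s δ (by
    intro x hx q hq
    apply hδ
    have c1 := (mem_Xf.mp hx).2
    have c2 := dst_zero_add (q - (e + x + e)) (e + e - q)
    have c3 : q - (e + x + e) + (e + e - q) = -x := by abel
    rw [c3, dst_zero_neg] at c2
    have c4 := dst_zero_add (e + e) (-q)
    have c8 : e + e + -q = e + e - q := by abel
    rw [c8, dst_zero_neg] at c4
    have c9 := dst_zero_add e e
    have c7 : dst 0 q ≤ k := by rw [dst_comm]; exact mem_Lam.mp hq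
    have c5 : (dst 0 x : ℝ) ≤ (dst 0 (q - (e + x + e)) : ℝ) + (3 * (k : ℝ)) := by
      have : dst 0 x ≤ dst 0 (q - (e + x + e)) + 3 * k := by omega
      exact_mod_cast this
    linarith)
  have h4 : GG d p R ^ 2 * (nab p e * TT d p r (s - l) + nabt p l e * GG d p r) +
      GG d p R ^ 2 * (δ * TT d p r s) +
      GG d p R ^ 2 * (nab p e * TT d p r (s - l) + nabt p l e * GG d p r) +
      GG d p R ^ 2 * (((2 * k + 1) ^ d : ℕ) * δ * TT d p r s) +
      GG d p R ^ 2 * (((2 * k + 1) ^ d : ℕ) * δ * TT d p r s) =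
      GG d p R ^ 2 * (2 * (nab p e * TT d p r (s - l) + nabt p l e * GG d p r) +
        (1 + 2 * ((2 * k + 1) ^ d : ℕ)) * δ * TT d p r s) := by ring
  linarith

open Classical in
/-- **The first moment from above.** -/
theorem sum_F3_upper {p : ℝ} (hp0 : 0 ≤ p) (hp1 : p ≤ 1) {N k R r : ℕ} {e : V d}
    {s : ℝ} (hN : 2 * R + 2 * k + r ≤ N) (he : dst 0 e ≤ k) (hs : 3 * (k : ℝ) < s) :
    p ^ (2 * (Ein (Lam (0 : V d) k)).card) *
      (∑ v ∈ (Lam 0 R : Finset (V d)), ∑ x ∈ (Xf r s : Finset (V d)),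
        ∑ w ∈ (Lam 0 R : Finset (V d)),
          (if s ≤ (dst 0 (v + e + x + e + w) : ℝ) then F3 p N k R r e v x w else 0)) ≤
      (2 * ((2 * k + 1) ^ d) ^ 2 : ℕ) * ∑ y ∈ (Xf N s : Finset (V d)),
        EE p (Ein (Lam 0 N)) (fun S =>
        ((prs S y (2 * R + r + 4 * k * d) (r + 4 * k * d) (s - 3 * k)).card : ℝ)) := by
  set L := (Lam 0 R : Finset (V d)) with hL
  have hPn : ∀ (v x y : V d), 0 ≤ PE p (Ein (Lam (0 : V d) N)) (Pre3 (Lam v k) (Lam x k)
      v (v + e) x (x + e) 0 y R r) := fun v x y => PE_nonneg hp0 hp1 _ _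
  -- reindexing the last displacement
  have h1 : ∀ v ∈ L, ∀ x ∈ (Xf r s : Finset (V d)), ∑ w ∈ L,
      (if s ≤ (dst 0 (v + e + x + e + w) : ℝ) then F3 p N k R r e v x w else 0) ≤
      ∑ y ∈ (Xf N s : Finset (V d)), PE p (Ein (Lam (0 : V d) N)) (Pre3 (Lam v k)
        (Lam (v + e + x) k) v (v + e) (v + e + x) (v + e + x + e) 0 y R r) := by
    intro v hv x hx
    have hv1 : dst 0 v ≤ R := by rw [dst_comm]; exact mem_Lam.mp hv
    have hx1 : dst 0 x ≤ r := by rw [dst_comm]; exact mem_Lam.mp (mem_Xf.mp hx).1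
    rw [← Finset.sum_filter]
    have e1 : ∑ w ∈ L.filter (fun w => s ≤ (dst 0 (v + e + x + e + w) : ℝ)),
        F3 p N k R r e v x w =
        ∑ y ∈ (L.filter (fun w => s ≤ (dst 0 (v + e + x + e + w) : ℝ))).image
          (fun w => v + e + x + e + w), PE p (Ein (Lam (0 : V d) N)) (Pre3 (Lam v k)
        (Lam (v + e + x) k) v (v + e) (v + e + x) (v + e + x + e) 0 y R r) := by
      rw [Finset.sum_image]
      · rfl
      · intro a _ b _ h
        exact add_left_cancel h
    rw [e1]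
    apply Finset.sum_le_sum_of_subset_of_nonneg
    · intro y hy
      rw [Finset.mem_image] at hy
      obtain ⟨w, hw, rfl⟩ := hy
      rw [Finset.mem_filter] at hw
      rw [mem_Xf]
      refine ⟨?_, hw.2⟩
      have hw1 : dst 0 w ≤ R := by rw [dst_comm]; exact mem_Lam.mp hw.1
      have a1 := dst_zero_add v e
      have a2 := dst_zero_add (v + e) x
      have a3 := dst_zero_add (v + e + x) e
      have a4 := dst_zero_add (v + e + x + e) w
      rw [mem_Lam, dst_comm]
      omega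
    · intro y _ _
      exact hPn _ _ _
  have h2 := sum_le_sum fun v hv => sum_le_sum fun x hx => h1 v hv x hx
  -- the pairs of boxes
  set X : Finset (V d × V d) := (L ×ˢ (Xf r s : Finset (V d))).image
    (fun q => (q.1, q.1 + e + q.2)) with hX
  have h3 : ∑ v ∈ L, ∑ x ∈ (Xf r s : Finset (V d)), ∑ y ∈ (Xf N s : Finset (V d)),
      PE p (Ein (Lam (0 : V d) N)) (Pre3 (Lam v k)
        (Lam (v + e + x) k) v (v + e) (v + e + x) (v + e + x + e) 0 y R r) =
      ∑ y ∈ (Xf N s : Finset (V d)), ∑ q ∈ X, PE p (Ein (Lam (0 : V d) N))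
        (Pre3 (Lam q.1 k) (Lam q.2 k) q.1 (q.1 + e) q.2 (q.2 + e) 0 y R r) := by
    rw [← Finset.sum_product', sum_comm]
    apply sum_congr rfl
    intro y _
    rw [hX, Finset.sum_image]
    rintro ⟨a, b⟩ _ ⟨a', b'⟩ _ h
    simp only [Prod.mk.injEq] at h
    obtain ⟨h5, h6⟩ := h
    subst h5
    have h7 : b = b' := add_left_cancel h6
    rw [h7]
  rw [h3] at h2
  refine (mul_le_mul_of_nonneg_left h2 (pow_nonneg hp0 _)).trans ?_
  rw [mul_sum, mul_sum]
  apply sum_le_sum
  intro y _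
  apply first_upper hp0 hp1 (e := e)
  · rw [mem_Lam, dst_comm]
    exact he
  · linarith
  · intro q hq
    rw [hX, Finset.mem_image] at hq
    obtain ⟨⟨v, x⟩, hvx, rfl⟩ := hq
    rw [Finset.mem_product] at hvx
    have c1 := (mem_Xf.mp hvx.2).2
    simp only
    rw [dst_sub_eq v (v + e + x)]
    have c2 : v + e + x - v = e + x := by abel
    rw [c2]
    have c3 := dst_zero_add (e + x) (-e)
    have c4 : e + x + -e = x := by abel
    rw [c4, dst_zero_neg] at c3
    have c5 : (dst 0 x : ℝ) ≤ (dst 0 (e + x) : ℝ) + k := by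
      have : dst 0 x ≤ dst 0 (e + x) + k := by omega
      exact_mod_cast this
    linarith
  · intro q hq
    rw [hX, Finset.mem_image] at hq
    obtain ⟨⟨v, x⟩, hvx, rfl⟩ := hq
    rw [Finset.mem_product] at hvx
    have hv1 : dst 0 v ≤ R := by rw [dst_comm]; exact mem_Lam.mp hvx.1
    have hx1 : dst 0 x ≤ r := by rw [dst_comm]; exact mem_Lam.mp (mem_Xf.mp hvx.2).1
    have a1 := dst_zero_add v e
    have a2 := dst_zero_add (v + e) x
    constructor
    · intro z hz
      simp only at hz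
      rw [mem_Lam] at hz ⊢
      have b1 := dst_tri z v 0
      have b2 := dst_comm v 0
      omega
    · intro z hz
      simp only at hz
      rw [mem_Lam] at hz ⊢
      have b1 := dst_tri z (v + e + x) 0
      have b2 := dst_comm (v + e + x) 0
      omega

end Pool.Agent.Lib.MP_06caae_pr
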