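import Pool.Agent.Lib.MP_06caae_pr.A.Three

/-!
# The three-piece inequality: the end
-/

open Finset SimpleGraph
open Pool.Agent.Lib.MP_566bac_pr.Zd

namespace Pool.Agent.Lib.MP_06caae_pr

variable {d : ℕ}

private lemma arith1 {G T Sg E : ℝ} (hT : 0 ≤ T) (h : G ^ 2 * T ≤ 2 * Sg +
    2 * (G ^ 2 * E)) (hE : E ≤ 5 / 32 * T) : G ^ 2 * T / 4 ≤ Sg := by
  have h1 : G ^ 2 * E ≤ G ^ 2 * (5 / 32 * T) := mul_le_mul_of_nonneg_left hE (sq_nonneg G)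
  have h2 : 0 ≤ G ^ 2 * T := mul_nonneg (sq_nonneg G) hT
  linarith

private lemma arith2 {κ G T A U G1 T' n' r C : ℝ} (hκ : 0 ≤ κ) (hT : 0 ≤ T) (hU : 0 ≤ U)
    (hG1 : 0 ≤ G1) (hT'0 : 0 ≤ T') (hT' : T' ≤ 2 * T) (hn : n' ≤ 4 * C * r ^ 2)
    (hC : 0 ≤ C) (h1 : κ * (G ^ 2 * T) ≤ A)
    (h2 : A ^ 2 ≤ U * (2 * (G1 ^ 3 * T' ^ 2) + n' * (G1 ^ 2 * T'))) :
    κ ^ 2 / 8 * G ^ 4 * T ^ 2 ≤ U * (G1 ^ 3 * T ^ 2 + C * r ^ 2 * G1 ^ 2 * T) := by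
  have e1 : (κ * (G ^ 2 * T)) ^ 2 ≤ A ^ 2 :=
    pow_le_pow_left₀ (mul_nonneg hκ (mul_nonneg (sq_nonneg _) hT)) h1 2
  have e2 : T' ^ 2 ≤ (2 * T) ^ 2 := pow_le_pow_left₀ hT'0 hT' 2
  have e3 : G1 ^ 3 * T' ^ 2 ≤ G1 ^ 3 * (2 * T) ^ 2 :=
    mul_le_mul_of_nonneg_left e2 (pow_nonneg hG1 3)
  have e4 : n' * (G1 ^ 2 * T') ≤ (4 * C * r ^ 2) * (G1 ^ 2 * (2 * T)) := by
    calc n' * (G1 ^ 2 * T') ≤ (4 * C * r ^ 2) * (G1 ^ 2 * T') :=
          mul_le_mul_of_nonneg_right hn (mul_nonneg (sq_nonneg _) hT'0)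
      _ ≤ (4 * C * r ^ 2) * (G1 ^ 2 * (2 * T)) :=
          mul_le_mul_of_nonneg_left (mul_le_mul_of_nonneg_left hT' (sq_nonneg _))
            (mul_nonneg (mul_nonneg (by norm_num) hC) (sq_nonneg _))
  have e5 : U * (2 * (G1 ^ 3 * T' ^ 2) + n' * (G1 ^ 2 * T')) ≤
      U * (2 * (G1 ^ 3 * (2 * T) ^ 2) + (4 * C * r ^ 2) * (G1 ^ 2 * (2 * T))) := by
    apply mul_le_mul_of_nonneg_left _ hU
    linarith
  have e6 := (e1.trans h2).trans e5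
  have e7 : U * (2 * (G1 ^ 3 * (2 * T) ^ 2) + (4 * C * r ^ 2) * (G1 ^ 2 * (2 * T))) =
      8 * (U * (G1 ^ 3 * T ^ 2 + C * r ^ 2 * G1 ^ 2 * T)) := by ring
  rw [e7] at e6
  have e8 : (κ * (G ^ 2 * T)) ^ 2 = 8 * (κ ^ 2 / 8 * G ^ 4 * T ^ 2) := by ring
  rw [e8] at e6
  linarith

/-- **The three-piece inequality.** -/
theorem three {p : ℝ} (hS : Std d p) : Three d p := by
  classical
  have hp0 := hS.hp0.le
  have hp1 := hS.hp1.le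
  have hT := hS.tri
  obtain ⟨C₁, hC₁, hG⟩ := G_up hS
  obtain ⟨R₁, hR₁⟩ := nab_small hp0 hp1 hT (ε := 1 / 64) (by norm_num)
  obtain ⟨e, he⟩ := exists_far hS.hd R₁
  have hnab := hR₁ e he
  set k := dst 0 e with hk
  set cQ : ℝ := p ^ (2 * (Ein (Lam (0 : V d) k)).card) with hcQ
  have hcQ0 : 0 < cQ := pow_pos hS.hp0 _
  set M : ℝ := ((2 * ((2 * k + 1) ^ d) ^ 2 : ℕ) : ℝ) with hM
  have hM0 : 0 < M := by
    rw [hM]
    exact_mod_cast (by positivity : 0 < 2 * ((2 * k + 1) ^ d) ^ 2)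
  set κ : ℝ := cQ / (4 * M) with hκ
  have hκ0 : 0 < κ := by positivity
  set D : ℝ := (((2 * k + 1) ^ d : ℕ) : ℝ) with hD
  have hD0 : 0 ≤ D := Nat.cast_nonneg _
  set δ : ℝ := 1 / (16 * (1 + 2 * D)) with hδ
  have hδ0 : 0 < δ := by positivity
  obtain ⟨R₀, hR₀⟩ := nab_small hp0 hp1 hT hδ0
  refine ⟨κ ^ 2 / 8, by positivity, 3 / 2 * (1 + 4 * k * d) ^ 2, by positivity, 4 * k * d,
    fun η hη => ?_⟩
  obtain ⟨l₀, hl₀⟩ := nabt_small hp0 hp1 hT e (ε := η / (64 * C₁)) (by positivity)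
  refine ⟨max l₀ (3 * k), R₀ + 3 * k + 1, fun r R s hr hs hrR hηr hpig => ?_⟩
  set l := max l₀ (3 * k) with hl
  set m := 4 * k * d with hm
  have hr1 : 1 ≤ r := by omega
  have hr0 : (0 : ℝ) < r := by exact_mod_cast hr1
  push_cast at hs
  have hk0 : (0 : ℝ) ≤ k := Nat.cast_nonneg k
  have hR₀0 : (0 : ℝ) ≤ R₀ := Nat.cast_nonneg R₀
  set T := TT d p r s with hTdef
  have hT0 : 0 ≤ T := TT_nonneg hp0 hp1 _ _
  have hl3 : (3 * k : ℝ) ≤ l := by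
    have : 3 * k ≤ l := le_max_right _ _
    exact_mod_cast this
  have hTl : TT d p r (s - l) ≤ 2 * T :=
    (TT_mono hp0 hp1 (Nat.le_add_right r m) le_rfl).trans hpig
  have hT' : TT d p (r + m) (s - 3 * k) ≤ 2 * T :=
    (TT_mono hp0 hp1 le_rfl (by linarith)).trans hpig
  have hN : 2 * R + 2 * k + r ≤ 2 * R + 2 * k + r := le_rfl
  set N := 2 * R + 2 * k + r with hNdef
  have hlow := sum_F3_lower hp0 hp1 hT (l := l) (e := e) (s := s) (δ := δ) hN (le_refl k) (by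
    intro z hz
    apply hR₀
    have : (R₀ : ℝ) ≤ (dst 0 z : ℝ) := by linarith
    exact_mod_cast this)
  have hup := sum_F3_upper hp0 hp1 (e := e) (s := s) hN (le_refl k) (by linarith)
  set Sg := ∑ v ∈ (Lam 0 R : Finset (V d)), ∑ x ∈ (Xf r s : Finset (V d)),
        ∑ w ∈ (Lam 0 R : Finset (V d)),
          (if s ≤ (dst 0 (v + e + x + e + w) : ℝ) then F3 p N k R r e v x w else 0) with hSg
  set A := ∑ y ∈ (Xf N s : Finset (V d)), EE p (Ein (Lam 0 N)) (fun S =>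
        ((prs S y (2 * R + r + 4 * k * d) (r + 4 * k * d) (s - 3 * k)).card : ℝ)) with hA
  have hGn := GG_nonneg (d := d) hp0 hp1
  have hsm := second_moment hp0 hp1 (Ein (Lam (0 : V d) N)) (2 * R + r + m) (r + m)
    (s - 3 * k) s (Xf N s : Finset (V d)) (fun y hy => (mem_Xf.mp hy).2)
  -- the error
  have hErr : 2 * (nab p e * TT d p r (s - l) + nabt p l e * GG d p r) +
      (1 + 2 * D) * δ * T ≤ 5 / 32 * T := by
    have a1 : nab p e * TT d p r (s - l) ≤ 1 / 64 * (2 * T) :=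
      mul_le_mul hnab hTl (TT_nonneg hp0 hp1 _ _) (by norm_num)
    have a2 : nabt p l e * GG d p r ≤ η / (64 * C₁) * (C₁ * r) :=
      mul_le_mul (hl₀ l (le_max_left _ _)) (hG r hr1) (hGn r) (by positivity)
    have a3 : η / (64 * C₁) * (C₁ * r) = 1 / 64 * (η * r) := by
      field_simp
    have a4 : (1 + 2 * D) * δ * T = 1 / 16 * T := by
      rw [hδ]
      field_simp
    rw [a3] at a2
    rw [a4]
    linarith
  have h1 := arith1 hT0 hlow hErr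
  have h2 : κ * (GG d p R ^ 2 * T) ≤ A := by
    have b1 : cQ * (GG d p R ^ 2 * T / 4) ≤ M * A :=
      (mul_le_mul_of_nonneg_left h1 hcQ0.le).trans hup
    have b2 : κ * (GG d p R ^ 2 * T) = cQ * (GG d p R ^ 2 * T / 4) / M := by
      rw [hκ]
      field_simp
    rw [b2, div_le_iff₀ hM0]
    linarith
  have h3 : (((2 * (r + m) + 1) * (r + m + 1) : ℕ) : ℝ) ≤
      4 * (3 / 2 * (1 + 4 * k * d) ^ 2) * (r : ℝ) ^ 2 := by
    have c1 : ((r + m : ℕ) : ℝ) ≤ (1 + 4 * k * d) * r := by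
      have : r + m ≤ (1 + 4 * k * d) * r := by
        rw [hm]
        nlinarith [Nat.zero_le (4 * k * d)]
      exact_mod_cast this
    have c2 : (1 : ℝ) ≤ ((r + m : ℕ) : ℝ) := by
      have : 1 ≤ r + m := by omega
      exact_mod_cast this
    have c3 : (((2 * (r + m) + 1) * (r + m + 1) : ℕ) : ℝ) =
        (2 * ((r + m : ℕ) : ℝ) + 1) * (((r + m : ℕ) : ℝ) + 1) := by
      push_cast
      ring
    rw [c3]
    set x := ((r + m : ℕ) : ℝ) with hx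
    have c4 : (2 * x + 1) * (x + 1) ≤ 6 * x ^ 2 := by nlinarith
    have c5 : x ^ 2 ≤ ((1 + 4 * k * d) * r) ^ 2 := pow_le_pow_left₀ (by linarith) c1 2
    calc (2 * x + 1) * (x + 1) ≤ 6 * x ^ 2 := c4
      _ ≤ 6 * ((1 + 4 * k * d) * r) ^ 2 := by linarith
      _ = 4 * (3 / 2 * (1 + 4 * k * d) ^ 2) * (r : ℝ) ^ 2 := by ring
  exact arith2 hκ0.le hT0 (TT_nonneg hp0 hp1 _ _) (hGn _) (TT_nonneg hp0 hp1 _ _) hT' h3
    (by positivity) h2 hsm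

/-- **The first growth lemma** (hypothesis `g1` of `scale_main`). -/
theorem growth1 {p : ℝ} (hS : Std d p) : ∃ c₀ : ℝ, 0 < c₀ ∧ ∀ η : ℝ, 0 < η → η ≤ 1 →
    ∃ s₀ : ℝ, ∀ (r : ℕ) (s : ℝ), s₀ ≤ r → s₀ ≤ s → η * r ≤ TT d p r s →
      ∀ R : ℕ, 16 / η * r ≤ R → c₀ * R ≤ TT d p R (s / 3) := by
  obtain ⟨C₁, hC₁, hG⟩ := G_up hS
  exact growth_of_three hS.hp0.le hS.hp1.le hC₁ hG (G_low hS) (three hS)

end Pool.Agent.Lib.MP_06caae_pr
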